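import Pool.Agent.R694.RC.Tame

set_option autoImplicit false
set_option linter.unusedSectionVars false

/-!
# Modules of induced subgraphs, and the maximal proper modules
-/

namespace Pool.Agent.L7h41.MD

open Finset Classical

variable {V : Type} [Fintype V]

/-- `N` is a module of the graph induced by `S`. -/
def Mod (G : SimpleGraph V) (S N : Finset V) : Prop :=
  N ⊆ S ∧ ∀ z ∈ S, z ∉ N → ∀ x ∈ N, ∀ y ∈ N, (G.Adj z x ↔ G.Adj z y)

/-- The graph induced by `S` and its complement are connected, and `S` has at least two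
elements. -/
def Good (G : SimpleGraph V) (S : Finset V) : Prop :=
  2 ≤ S.card ∧ ∀ A ⊆ S, A.Nonempty → (S \ A).Nonempty → ∀ c : Prop,
    ¬ ∀ x ∈ A, ∀ y ∈ S \ A, (G.Adj x y ↔ c)

variable {G H : SimpleGraph V} {S A B N : Finset V} {u v w x y z : V}

theorem Mod.union (hA : Mod G S A) (hB : Mod G S B) (h : (A ∩ B).Nonempty) :
    Mod G S (A ∪ B) := by
  obtain ⟨t, ht⟩ := h
  rw [mem_inter] at ht
  refine ⟨union_subset hA.1 hB.1, fun z hz hzn x hx y hy => ?_⟩
  rw [mem_union, not_or] at hzn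
  have key : ∀ x ∈ A ∪ B, (G.Adj z x ↔ G.Adj z t) := by
    intro x hx
    rcases mem_union.mp hx with h | h
    · exact hA.2 z hz hzn.1 x h t ht.1
    · exact hB.2 z hz hzn.2 x h t ht.2
  exact (key x hx).trans (key y hy).symm

theorem Mod.inter (hA : Mod G S A) (hB : Mod G S B) : Mod G S (A ∩ B) := by
  refine ⟨fun x hx => hA.1 (mem_inter.mp hx).1, fun z hz hzn x hx y hy => ?_⟩
  rw [mem_inter] at hx hy
  by_cases h : z ∈ A
  · exact hB.2 z hz (fun h' => hzn (mem_inter.mpr ⟨h, h'⟩)) x hx.2 y hy.2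
  · exact hA.2 z hz h x hx.1 y hy.1

theorem Mod.singleton (hx : x ∈ S) : Mod G S {x} := by
  refine ⟨fun y hy => by rw [mem_singleton.mp hy]; exact hx, fun z _ _ a ha b hb => ?_⟩
  rw [mem_singleton.mp ha, mem_singleton.mp hb]

theorem Mod.erase (h : Mod G S N) (v : V) : Mod G (S.erase v) (N.erase v) := by
  refine ⟨erase_subset_erase v h.1, fun z hz hzn x hx y hy => ?_⟩
  rw [mem_erase] at hz hx hy
  exact h.2 z hz.2 (fun h' => hzn (mem_erase.mpr ⟨hz.1, h'⟩)) x hx.2 y hy.2

theorem Good.union_ne (hG : Good G S) (hA : Mod G S A) (hB : Mod G S B) (hAS : A ≠ S)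
    (hBS : B ≠ S) (h : (A ∩ B).Nonempty) : A ∪ B ≠ S := by
  intro hAB
  obtain ⟨t, ht⟩ := h
  rw [mem_inter] at ht
  have h1 : (A \ B).Nonempty := by
    rw [sdiff_nonempty]
    intro h
    apply hBS
    rw [← hAB]
    exact (union_eq_right.mpr h).symm
  have h2 : (B \ A).Nonempty := by
    rw [sdiff_nonempty]
    intro h
    apply hAS
    rw [← hAB]
    exact (union_eq_left.mpr h).symm
  obtain ⟨b, hb⟩ := h2
  rw [mem_sdiff] at hb
  have hS : S \ (A \ B) = B := by
    ext x
    rw [mem_sdiff, mem_sdiff, ← hAB, mem_union]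
    tauto
  refine hG.2 (A \ B) (fun x hx => hA.1 (mem_sdiff.mp hx).1) h1 (by rw [hS]; exact ⟨t, ht.2⟩)
    (G.Adj b t) ?_
  rw [hS]
  intro x hx y hy
  rw [mem_sdiff] at hx
  have e1 : G.Adj x y ↔ G.Adj x b := hB.2 x (hA.1 hx.1) hx.2 y hy b hb.1
  have e2 : G.Adj b x ↔ G.Adj b t := hA.2 b (hB.1 hb.1) hb.2 x hx.1 t ht.1
  rw [e1, G.adj_comm, e2]

theorem Good.three (hG : Good G S) (hN : Mod G S N) (h0 : N.Nonempty) (hNS : N ≠ S) :
    3 ≤ (S \ N).card := by
  by_contra hlt
  have hne : (S \ N).Nonempty := by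
    rw [sdiff_nonempty]
    intro h
    exact hNS (subset_antisymm hN.1 h)
  obtain ⟨x0, hx0⟩ := h0
  have hpos := card_pos.mpr hne
  have hcases : (S \ N).card = 1 ∨ (S \ N).card = 2 := by omega
  rcases hcases with h1 | h2
  · obtain ⟨z, hz⟩ := card_eq_one.mp h1
    refine hG.2 N hN.1 ⟨x0, hx0⟩ hne (G.Adj z x0) ?_
    intro x hx y hy
    have hzS : z ∈ S \ N := by rw [hz]; exact mem_singleton_self z
    rw [hz, mem_singleton] at hy
    subst hy
    rw [mem_sdiff] at hzS
    rw [G.adj_comm]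
    exact hN.2 y hzS.1 hzS.2 x hx x0 hx0
  · obtain ⟨z, w, hzw, hS2⟩ := card_eq_two.mp h2
    have hz : z ∈ S \ N := by rw [hS2]; simp
    have hw : w ∈ S \ N := by rw [hS2]; simp
    rw [mem_sdiff] at hz hw
    have hmem : ∀ y ∈ S, y ∈ N ∨ y = z ∨ y = w := by
      intro y hy
      by_cases h : y ∈ N
      · exact Or.inl h
      · right
        have : y ∈ S \ N := mem_sdiff.mpr ⟨hy, h⟩
        rw [hS2, mem_insert, mem_singleton] at this
        exact this
    have e1 : ¬ (G.Adj z w ↔ G.Adj z x0) := by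
      intro h
      refine hG.2 {z} (by simpa using hz.1) (singleton_nonempty z)
        ⟨x0, mem_sdiff.mpr ⟨hN.1 hx0, ?_⟩⟩ (G.Adj z x0) ?_
      · rw [mem_singleton]
        intro h'
        exact hz.2 (h' ▸ hx0)
      · intro x hx y hy
        rw [mem_singleton] at hx
        subst hx
        rw [mem_sdiff, mem_singleton] at hy
        rcases hmem y hy.1 with h3 | h3 | h3
        · exact hN.2 x hz.1 hz.2 y h3 x0 hx0
        · exact absurd h3 hy.2
        · rw [h3]; exact h
    have e2 : ¬ (G.Adj w z ↔ G.Adj w x0) := by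
      intro h
      refine hG.2 {w} (by simpa using hw.1) (singleton_nonempty w)
        ⟨x0, mem_sdiff.mpr ⟨hN.1 hx0, ?_⟩⟩ (G.Adj w x0) ?_
      · rw [mem_singleton]
        intro h'
        exact hw.2 (h' ▸ hx0)
      · intro x hx y hy
        rw [mem_singleton] at hx
        subst hx
        rw [mem_sdiff, mem_singleton] at hy
        rcases hmem y hy.1 with h3 | h3 | h3
        · exact hN.2 x hw.1 hw.2 y h3 x0 hx0
        · rw [h3]; exact h
        · exact absurd h3 hy.2
    rw [G.adj_comm w z] at e2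
    have e3 : G.Adj w x0 ↔ G.Adj z x0 := by tauto
    refine hG.2 N hN.1 ⟨x0, hx0⟩ hne (G.Adj z x0) ?_
    intro x hx y hy
    rw [hS2, mem_insert, mem_singleton] at hy
    rw [G.adj_comm]
    rcases hy with rfl | rfl
    · exact hN.2 y hz.1 hz.2 x hx x0 hx0
    · exact (hN.2 y hw.1 hw.2 x hx x0 hx0).trans e3

/-- The maximal proper module of the graph induced by `S` which contains `x`. -/
noncomputable def blk (G : SimpleGraph V) (S : Finset V) (x : V) : Finset V :=
  (S.powerset.filter (fun N => Mod G S N ∧ N ≠ S ∧ x ∈ N)).biUnion id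

theorem mem_blk : y ∈ blk G S x ↔ ∃ N, Mod G S N ∧ N ≠ S ∧ x ∈ N ∧ y ∈ N := by
  unfold blk
  rw [mem_biUnion]
  constructor
  · rintro ⟨N, hN, hy⟩
    rw [mem_filter] at hN
    exact ⟨N, hN.2.1, hN.2.2.1, hN.2.2.2, hy⟩
  · rintro ⟨N, h1, h2, h3, h4⟩
    exact ⟨N, mem_filter.mpr ⟨mem_powerset.mpr h1.1, h1, h2, h3⟩, h4⟩

theorem subset_blk (h1 : Mod G S N) (h2 : N ≠ S) (h3 : x ∈ N) : N ⊆ blk G S x :=
  fun _ hy => mem_blk.mpr ⟨N, h1, h2, h3, hy⟩

theorem blk_subset : blk G S x ⊆ S := by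
  intro y hy
  obtain ⟨N, h1, _, _, h4⟩ := mem_blk.mp hy
  exact h1.1 h4

theorem blk_spec (hG : Good G S) (hx : x ∈ S) :
    Mod G S (blk G S x) ∧ blk G S x ≠ S ∧ x ∈ blk G S x := by
  let F := S.powerset.filter (fun N => Mod G S N ∧ N ≠ S ∧ x ∈ N)
  have hF : ∀ N, N ∈ F ↔ Mod G S N ∧ N ≠ S ∧ x ∈ N := by
    intro N
    rw [mem_filter, mem_powerset]
    exact ⟨fun h => h.2, fun h => ⟨h.1.1, h⟩⟩
  have hne : F.Nonempty := by
    refine ⟨{x}, (hF _).mpr ⟨Mod.singleton hx, ?_, mem_singleton_self x⟩⟩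
    intro h
    have := hG.1
    rw [← h, card_singleton] at this
    omega
  obtain ⟨B, hB, hmax⟩ := exists_max_image F card hne
  have hB' := (hF B).mp hB
  have hle : ∀ N, Mod G S N → N ≠ S → x ∈ N → N ⊆ B := by
    intro N h1 h2 h3
    have hx2 : x ∈ B ∩ N := mem_inter.mpr ⟨hB'.2.2, h3⟩
    have h4 : B ∪ N ∈ F := (hF _).mpr ⟨hB'.1.union h1 ⟨x, hx2⟩,
      hG.union_ne hB'.1 h1 hB'.2.1 h2 ⟨x, hx2⟩, mem_union_left _ hB'.2.2⟩
    have h5 := hmax _ h4
    have h6 := eq_of_subset_of_card_le (subset_union_left (s₁ := B) (s₂ := N)) h5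
    rw [h6]
    exact subset_union_right
  have heq : blk G S x = B := by
    apply subset_antisymm
    · intro y hy
      obtain ⟨N, h1, h2, h3, h4⟩ := mem_blk.mp hy
      exact hle N h1 h2 h3 h4
    · exact subset_blk hB'.1 hB'.2.1 hB'.2.2
  rw [heq]
  exact hB'

theorem blk_mod (hG : Good G S) (hx : x ∈ S) : Mod G S (blk G S x) := (blk_spec hG hx).1
theorem blk_ne (hG : Good G S) (hx : x ∈ S) : blk G S x ≠ S := (blk_spec hG hx).2.1
theorem self_mem_blk (hG : Good G S) (hx : x ∈ S) : x ∈ blk G S x := (blk_spec hG hx).2.2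

theorem blk_eq (hG : Good G S) (hx : x ∈ S) (hy : y ∈ blk G S x) : blk G S y = blk G S x := by
  have hyS := blk_subset hy
  have h1 : blk G S x ⊆ blk G S y := subset_blk (blk_mod hG hx) (blk_ne hG hx) hy
  apply subset_antisymm _ h1
  exact subset_blk (blk_mod hG hyS) (blk_ne hG hyS) (h1 (self_mem_blk hG hx))

theorem mem_blk_iff (hG : Good G S) (hx : x ∈ S) (hy : y ∈ S) :
    y ∈ blk G S x ↔ blk G S y = blk G S x := by
  constructor
  · exact blk_eq hG hx
  · intro h
    rw [← h]
    exact self_mem_blk hG hy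

theorem blk_three (hG : Good G S) (hx : x ∈ S) : 3 ≤ (S \ blk G S x).card :=
  hG.three (blk_mod hG hx) ⟨x, self_mem_blk hG hx⟩ (blk_ne hG hx)

theorem blk_disj (hG : Good G S) (hx : x ∈ S) (hy : y ∈ S) (h : blk G S x ≠ blk G S y) :
    Disjoint (blk G S x) (blk G S y) := by
  rw [Finset.disjoint_left]
  intro z hz hz'
  exact h ((blk_eq hG hx hz).symm.trans (blk_eq hG hy hz'))

theorem good_erase (hG : Good G S) (hv : v ∈ S) (h2 : 2 ≤ (blk G S v).card) :
    Good G (S.erase v) := by
  have hM := blk_mod hG hv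
  have hMS := blk_ne hG hv
  have hvM := self_mem_blk hG hv
  have h3 := blk_three hG hv
  set M := blk G S v with hMdef
  obtain ⟨u, huM, huv⟩ : ∃ u ∈ M, u ≠ v := by
    obtain ⟨u, hu, hne⟩ := exists_mem_ne (by omega : 1 < M.card) v
    exact ⟨u, hu, hne⟩
  have hsub : S \ M ⊆ S.erase v := by
    intro z hz
    rw [mem_sdiff] at hz
    exact mem_erase.mpr ⟨fun h => hz.2 (h ▸ hvM), hz.1⟩
  have hcard := card_le_card hsub
  refine ⟨by omega, ?_⟩
  have core : ∀ A ⊆ S.erase v, u ∈ A → (S.erase v \ A).Nonempty → ∀ c : Prop,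
      (∀ x ∈ A, ∀ y ∈ S.erase v \ A, (G.Adj x y ↔ c)) → False := by
    intro A hA huA hB c hc
    by_cases hBM : S.erase v \ A ⊆ M
    · obtain ⟨b, hb⟩ := hB
      have hbM := hBM hb
      refine hG.2 M hM.1 ⟨u, huM⟩ (card_pos.mp (by omega)) c ?_
      intro x hx z hz
      rw [mem_sdiff] at hz
      have hzA : z ∈ A := by
        by_contra h
        exact hz.2 (hBM (mem_sdiff.mpr ⟨hsub (mem_sdiff.mpr hz), h⟩))
      rw [G.adj_comm, hM.2 z hz.1 hz.2 x hx b hbM]
      exact hc z hzA b hb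
    · rw [Finset.not_subset] at hBM
      obtain ⟨b, hb, hbM⟩ := hBM
      have hbS : b ∈ S := (mem_erase.mp (mem_sdiff.mp hb).1).2
      refine hG.2 ((S.erase v \ A) \ M) (fun z hz => ?_) ⟨b, mem_sdiff.mpr ⟨hb, hbM⟩⟩
        ⟨u, mem_sdiff.mpr ⟨hM.1 huM, fun h => (mem_sdiff.mp h).2 huM⟩⟩ c ?_
      · exact (mem_erase.mp (mem_sdiff.mp (mem_sdiff.mp hz).1).1).2
      · intro x hx y hy
        rw [mem_sdiff] at hx hy
        have hxS : x ∈ S := (mem_erase.mp (mem_sdiff.mp hx.1).1).2
        have hux : G.Adj x u ↔ c := by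
          rw [G.adj_comm]
          exact hc u huA x hx.1
        by_cases hyA : y ∈ A
        · rw [G.adj_comm]
          exact hc y hyA x hx.1
        · have hyM : y ∈ M := by
            by_contra hyM
            apply hy.2
            rw [mem_sdiff, mem_sdiff, mem_erase]
            exact ⟨⟨⟨fun h => hyM (h ▸ hvM), hy.1⟩, hyA⟩, hyM⟩
          rw [hM.2 x hxS hx.2 y hyM u huM]
          exact hux
  intro A hA hA1 hB c hc
  by_cases huA : u ∈ A
  · exact core A hA huA hB c hc
  · have huS : u ∈ S.erase v := mem_erase.mpr ⟨huv, hM.1 huM⟩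
    refine core (S.erase v \ A) sdiff_subset (mem_sdiff.mpr ⟨huS, huA⟩) ?_ c ?_
    · rw [Finset.sdiff_sdiff_eq_self hA]
      exact hA1
    · rw [Finset.sdiff_sdiff_eq_self hA]
      intro x hx y hy
      rw [G.adj_comm]
      exact hc y hy x hx

theorem blk_erase (hG : Good G S) (hv : v ∈ S) (h2 : 2 ≤ (blk G S v).card)
    (hx : x ∈ S.erase v) : blk G (S.erase v) x = (blk G S x).erase v := by
  have hG' := good_erase hG hv h2
  have hM := blk_mod hG hv
  have hMS := blk_ne hG hv
  have hvM := self_mem_blk hG hv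
  have hxS := (mem_erase.mp hx).2
  have hxv := (mem_erase.mp hx).1
  set M := blk G S v with hMdef
  obtain ⟨u, huM, huv⟩ : ∃ u ∈ M, u ≠ v := by
    obtain ⟨u, hu, hne⟩ := exists_mem_ne (by omega : 1 < M.card) v
    exact ⟨u, hu, hne⟩
  have huS : u ∈ S.erase v := mem_erase.mpr ⟨huv, hM.1 huM⟩
  apply subset_antisymm
  · have hN := blk_mod hG' hx
    have hNS := blk_ne hG' hx
    have hxN := self_mem_blk hG' hx
    set N := blk G (S.erase v) x with hNdef
    have hvN : v ∉ N := fun h => (mem_erase.mp (hN.1 h)).1 rfl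
    have hNsub : ∀ y ∈ N, y ∈ S := fun y hy => (mem_erase.mp (hN.1 hy)).2
    have key : N ⊆ blk G S x := by
      by_cases hNM : (N ∩ M).Nonempty
      · obtain ⟨t, ht⟩ := hNM
        rw [mem_inter] at ht
        have h1 : Mod G S (N ∪ M) := by
          refine ⟨union_subset hNsub hM.1, fun z hz hzn a ha b hb => ?_⟩
          rw [mem_union, not_or] at hzn
          have hzv : z ≠ v := fun h => hzn.2 (h ▸ hvM)
          have k : ∀ a ∈ N ∪ M, (G.Adj z a ↔ G.Adj z t) := by
            intro a ha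
            rcases mem_union.mp ha with h | h
            · exact hN.2 z (mem_erase.mpr ⟨hzv, hz⟩) hzn.1 a h t ht.1
            · exact hM.2 z hz hzn.2 a h t ht.2
          exact (k a ha).trans (k b hb).symm
        have h3 : N ∪ M ≠ S := by
          intro h
          refine hG'.union_ne hN (hM.erase v) hNS ?_ ?_ ?_
          · intro h4
            have h5 := blk_three hG hv
            rw [← hMdef] at h5
            have h6 : S \ M = ∅ := by
              rw [sdiff_eq_empty_iff_subset]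
              intro z hz
              by_cases hzv : z = v
              · rw [hzv]; exact hvM
              · have : z ∈ M.erase v := by rw [h4]; exact mem_erase.mpr ⟨hzv, hz⟩
                exact (mem_erase.mp this).2
            rw [h6, card_empty] at h5
            omega
          · exact ⟨t, mem_inter.mpr ⟨ht.1, mem_erase.mpr ⟨fun h => hvN (h ▸ ht.1), ht.2⟩⟩⟩
          · ext z
            rw [← h, mem_union, mem_erase, mem_erase, mem_union]
            constructor
            · rintro (h1 | h1)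
              · exact ⟨fun h => hvN (h ▸ h1), Or.inl h1⟩
              · exact ⟨h1.1, Or.inr h1.2⟩
            · rintro ⟨h1, h2 | h2⟩
              · exact Or.inl h2
              · exact Or.inr ⟨h1, h2⟩
        exact fun y hy => subset_blk h1 h3 (mem_union_left _ hxN) (mem_union_left _ hy)
      · have hNM' : ∀ y ∈ N, y ∉ M := by
          intro y hy hyM
          exact hNM ⟨y, mem_inter.mpr ⟨hy, hyM⟩⟩
        have h1 : Mod G S N := by
          refine ⟨hNsub, fun z hz hzn a ha b hb => ?_⟩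
          by_cases hzv : z = v
          · have k : ∀ a ∈ N, (G.Adj v a ↔ G.Adj u a) := by
              intro a ha
              rw [G.adj_comm, hM.2 a (hNsub a ha) (hNM' a ha) v hvM u huM, G.adj_comm]
            rw [hzv, k a ha, k b hb]
            exact hN.2 u huS (fun h => hNM' u h huM) a ha b hb
          · exact hN.2 z (mem_erase.mpr ⟨hzv, hz⟩) hzn a ha b hb
        have h3 : N ≠ S := fun h => hvN (h ▸ hv)
        exact subset_blk h1 h3 hxN
    intro y hy
    exact mem_erase.mpr ⟨fun h => hvN (h ▸ hy), key hy⟩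
  · apply subset_blk ((blk_mod hG hxS).erase v)
    · intro h
      have h5 := blk_three hG hxS
      have h6 : (S \ blk G S x) ⊆ {v} := by
        intro z hz
        rw [mem_sdiff] at hz
        rw [mem_singleton]
        by_contra hzv
        have : z ∈ (blk G S x).erase v := by rw [h]; exact mem_erase.mpr ⟨hzv, hz.1⟩
        exact hz.2 (mem_erase.mp this).2
      have := card_le_card h6
      rw [card_singleton] at this
      omega
    · exact mem_erase.mpr ⟨hxv, self_mem_blk hG hxS⟩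

theorem blk_sub_erase (hG : Good G S) (h1 : blk G S v = {v})
    (hx : x ∈ S.erase v) : blk G S x ⊆ blk G (S.erase v) x := by
  have hxS := (mem_erase.mp hx).2
  have hxv := (mem_erase.mp hx).1
  have hvx : v ∉ blk G S x := by
    intro h
    have h2 := blk_eq hG hxS h
    rw [h1] at h2
    have h3 := self_mem_blk hG hxS
    rw [← h2, mem_singleton] at h3
    exact hxv h3
  have h2 := (blk_mod hG hxS).erase v
  rw [erase_eq_of_notMem hvx] at h2
  apply subset_blk h2 _ (self_mem_blk hG hxS)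
  intro h
  have h5 := blk_three hG hxS
  have h6 : (S \ blk G S x) ⊆ {v} := by
    intro z hz
    rw [mem_sdiff] at hz
    rw [mem_singleton]
    by_contra hzv
    exact hz.2 (by rw [h]; exact mem_erase.mpr ⟨hzv, hz.1⟩)
  have := card_le_card h6
  rw [card_singleton] at this
  omega

/-- the number of the maximal proper modules -/
noncomputable def nb (G : SimpleGraph V) (S : Finset V) : ℕ := (S.image (blk G S)).card

theorem nb_erase (hG : Good G S) (hv : v ∈ S) (h2 : 2 ≤ (blk G S v).card) :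
    nb G (S.erase v) = nb G S := by
  have hvM := self_mem_blk hG hv
  obtain ⟨u, huM, huv⟩ : ∃ u ∈ blk G S v, u ≠ v := by
    obtain ⟨u, hu, hne⟩ := exists_mem_ne (by omega : 1 < (blk G S v).card) v
    exact ⟨u, hu, hne⟩
  have huS : u ∈ S.erase v := mem_erase.mpr ⟨huv, blk_subset huM⟩
  have e1 : (S.erase v).image (blk G (S.erase v)) =
      (S.image (blk G S)).image (fun B => B.erase v) := by
    ext B
    rw [mem_image, mem_image]
    constructor
    · rintro ⟨x, hx, rfl⟩
      exact ⟨blk G S x, mem_image_of_mem _ (mem_erase.mp hx).2, (blk_erase hG hv h2 hx).symm⟩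
    · rintro ⟨C, hC, rfl⟩
      obtain ⟨x, hx, rfl⟩ := mem_image.mp hC
      by_cases hxv : x = v
      · refine ⟨u, huS, ?_⟩
        rw [blk_erase hG hv h2 huS, hxv, blk_eq hG hv huM]
      · exact ⟨x, mem_erase.mpr ⟨hxv, hx⟩, blk_erase hG hv h2 (mem_erase.mpr ⟨hxv, hx⟩)⟩
  unfold nb
  rw [e1, card_image_of_injOn]
  intro B1 hB1 B2 hB2 h12
  obtain ⟨x1, hx1, rfl⟩ := mem_image.mp (mem_coe.mp hB1)
  obtain ⟨x2, hx2, rfl⟩ := mem_image.mp (mem_coe.mp hB2)
  have h12' : (blk G S x1).erase v = (blk G S x2).erase v := h12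
  obtain ⟨t, ht⟩ : ((blk G S x1).erase v).Nonempty := by
    by_cases h : x1 = v
    · exact ⟨u, mem_erase.mpr ⟨huv, by rw [h]; exact huM⟩⟩
    · exact ⟨x1, mem_erase.mpr ⟨h, self_mem_blk hG hx1⟩⟩
  have ht2 := ht
  rw [h12'] at ht2
  rw [← blk_eq hG hx1 (mem_erase.mp ht).2, blk_eq hG hx2 (mem_erase.mp ht2).2]

theorem nb_lt (hG : Good G S) (hv : v ∈ S) (h1 : blk G S v = {v}) (hG' : Good G (S.erase v)) :
    nb G (S.erase v) < nb G S := by
  have hfac : ∃ f : Finset V → Finset V, ∀ x ∈ S.erase v,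
      blk G (S.erase v) x = f (blk G S x) := by
    refine ⟨fun B => if h : ∃ y, y ∈ B then blk G (S.erase v) h.choose else ∅, ?_⟩
    intro x hx
    have hne : ∃ y, y ∈ blk G S x := ⟨x, self_mem_blk hG (mem_erase.mp hx).2⟩
    show blk G (S.erase v) x = if h : ∃ y, y ∈ blk G S x then blk G (S.erase v) h.choose else ∅
    rw [dif_pos hne]
    exact (blk_eq hG' hx (blk_sub_erase hG h1 hx hne.choose_spec)).symm
  obtain ⟨f, hf⟩ := hfac
  have e1 : (S.erase v).image (blk G (S.erase v)) =
      ((S.erase v).image (blk G S)).image f := by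
    rw [image_image]
    exact image_congr (fun x hx => hf x (mem_coe.mp hx))
  have e2 : ((S.erase v).image (blk G S)) ⊂ S.image (blk G S) := by
    rw [ssubset_iff_of_subset (image_subset_image (erase_subset v S))]
    refine ⟨blk G S v, mem_image_of_mem _ hv, fun h => ?_⟩
    obtain ⟨x, hx, hxv⟩ := mem_image.mp h
    have h3 := self_mem_blk hG (mem_erase.mp hx).2
    rw [hxv, h1, mem_singleton] at h3
    exact (mem_erase.mp hx).1 h3
  unfold nb
  rw [e1]
  exact lt_of_le_of_lt card_image_le (card_lt_card e2)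

end Pool.Agent.L7h41.MD
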