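import Pool.Agent.L7h41.MD.Skel

set_option autoImplicit false
set_option linter.unusedSectionVars false

/-!
# From the statements about modules to the blocks
-/

namespace Pool.Agent.L7h41.MD

open Finset Classical
open Pool.Agent.H234RC (Hypo NonIso Reconstructible)
open Pool.Agent.TH403.FLP (hypo_symm pi_ne pi_symm_ne ds dd mem_ds dd_comm)
open Pool.Agent.R694.RC (Tame inv_start fin2)
open Pool.Agent.TH87.RVE (rec_of)

variable {V : Type} [Fintype V] {G H K : SimpleGraph V} {π : V → Equiv.Perm V}

/-- `M` is a module of `G`. -/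
def IsModule (G : SimpleGraph V) (M : Finset V) : Prop :=
  ∀ z, z ∉ M → ∀ x ∈ M, ∀ y ∈ M, (G.Adj z x ↔ G.Adj z y)

/-- `M` is a maximal proper module of `G`. -/
def IsMaxModule (G : SimpleGraph V) (M : Finset V) : Prop :=
  M.Nonempty ∧ M ≠ univ ∧ IsModule G M ∧ ∀ N : Finset V, IsModule G N → M ⊂ N → N = univ

theorem isModule_iff {M : Finset V} : IsModule G M ↔ Mod G univ M :=
  ⟨fun h => ⟨subset_univ _, fun z _ hz => h z hz⟩, fun h z hz => h.2 z (mem_univ z) hz⟩

theorem max_iff (hG : Good G univ) (M : Finset V) :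
    IsMaxModule G M ↔ ∃ x, M = blk G univ x := by
  constructor
  · rintro ⟨⟨x, hx⟩, h1, h2, h3⟩
    refine ⟨x, ?_⟩
    have h4 := subset_blk (isModule_iff.mp h2) h1 hx
    by_contra hne
    exact blk_ne hG (mem_univ x) (h3 _ (isModule_iff.mpr (blk_mod hG (mem_univ x)))
      (h4.ssubset_of_ne hne))
  · rintro ⟨x, rfl⟩
    refine ⟨⟨x, self_mem_blk hG (mem_univ x)⟩, blk_ne hG (mem_univ x),
      isModule_iff.mpr (blk_mod hG (mem_univ x)), fun N h1 h2 => ?_⟩
    by_contra hne
    have h3 := subset_blk (isModule_iff.mp h1) hne (h2.1 (self_mem_blk hG (mem_univ x)))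
    exact h2.2 h3

theorem iso_iff (G H : SimpleGraph V) (A B : Finset V) :
    Nonempty (G.induce (A : Set V) ≃g H.induce (B : Set V)) ↔ SI G A H B := by
  constructor
  · rintro ⟨e⟩
    let e' : {x // x ∈ A} ≃ {x // x ∈ B} := e.toEquiv
    have hmem : ∀ x (hx : x ∈ A), e'.extendSubtype x = e' ⟨x, hx⟩ :=
      fun x hx => e'.extendSubtype_apply_of_mem x hx
    refine ⟨e'.extendSubtype, ?_, fun x hx y hy => ?_⟩
    · have h1 : mp e'.extendSubtype A ⊆ B := by
        intro y hy
        rw [mem_mp] at hy
        have h2 := hmem _ hy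
        rw [Equiv.apply_symm_apply] at h2
        rw [h2]
        exact (e' ⟨_, hy⟩).2
      apply eq_of_subset_of_card_le h1
      rw [card_mp]
      have := Fintype.card_congr e'
      rw [Fintype.card_coe, Fintype.card_coe] at this
      exact this.ge
    · rw [hmem x hx, hmem y hy]
      exact e.map_adj_iff (v := ⟨x, hx⟩) (w := ⟨y, hy⟩)
  · rintro ⟨σ, rfl, h⟩
    refine ⟨⟨(σ.subtypeEquiv (fun x => ?_)), ?_⟩⟩
    · rw [mem_coe, mem_coe, apply_mem_mp]
    · rintro ⟨x, hx⟩ ⟨y, hy⟩
      exact h x hx y hy

theorem nonIso_symm (h : NonIso G H) : NonIso H G := by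
  rintro ⟨σ, hσ⟩
  apply h
  refine ⟨σ.symm, fun x y => ?_⟩
  have := hσ (σ.symm x) (σ.symm y)
  rw [Equiv.apply_symm_apply, Equiv.apply_symm_apply] at this
  exact this.symm

theorem not_good (hn : 3 ≤ Fintype.card V) (hH : Hypo G H π) (h : ¬ Good G univ) :
    ¬ NonIso G H := by
  unfold Good at h
  rw [not_and] at h
  have h1 := h (by rw [card_univ]; omega)
  push Not at h1
  obtain ⟨A, hA, hA1, hA2, c, hc⟩ := h1
  exact fin2 hH (inv_start hn) A hA hA1 hA2
    (fun x hx y hy x' hx' y' hy' _ => (hc x hx y hy).trans (hc x' hx' y' hy').symm)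

theorem rec_ctx (G : SimpleGraph V) (hn : 8 ≤ Fintype.card V)
    (hex : Good G univ → ∃ x, 2 ≤ (blk G univ x).card)
    (h : ∀ (H : SimpleGraph V) (π : V → Equiv.Perm V), Ctx G H π → NonIso G H → False) :
    Reconstructible G ∧ Reconstructible Gᶜ := by
  refine rec_of G True (fun H π hH hN _ => ?_) trivial
  by_cases hG : Good G univ
  · by_cases hH' : Good H univ
    · exact h H π ⟨hn, hG, hH', hH, hex hG⟩ hN
    · exact not_good (by omega) (hypo_symm hH) hH' (nonIso_symm hN)
  · exact not_good (by omega) hH hG hN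

/-- the number of the maximal proper modules of the type `t` -/
noncomputable def nt (G : SimpleGraph V) (t : Ty V) : ℕ :=
  (univ.filter (fun B : Om G => ty G B.1 = t)).card

/-- for a vertex `v` of a nontrivial maximal proper module `M`, there are at most as many maximal
proper modules of the type of `M` as of the type of `M \ {v}` -/
theorem Ctx.le (c : Ctx G H π) (hN : NonIso G H) (v : V) (h2 : 2 ≤ (blk G univ v).card) :
    nt G (ty G (blk G univ v)) ≤ nt G (ty G ((blk G univ v).erase v)) := by
  set M := blk G univ v with hM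
  set p : Ty V → Prop := fun t => t = ty G M with hp0
  set z : Ty V := ty G (M.erase v) with hz
  have hp : Par p z := by
    intro K A hA
    have h3 : SI K A G M := ty_eq.mp hA
    refine ⟨by rw [h3.card]; exact h2, ?_⟩
    obtain ⟨w, hw, h4⟩ := h3.exists_erase (self_mem_blk c.gG (mem_univ v))
    exact ⟨w, hw, ty_eq.mpr h4⟩
  let j0 : Jt G p z := ⟨v, rfl, rfl⟩
  have hdk := dk c hN hp j0
  have hno := no_match c hN hp j0
  by_contra hlt
  rw [not_le] at hlt
  apply hno
  set ρ0 := rho c (Jt.two hp j0) with hρ0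
  have g0 := fun B => rho_gam c hN hp (Jt.two hp j0) j0.2.1 j0.2.2 B
  rw [← hρ0] at g0
  -- the cardinalities
  have hQG : (QG G p).card = nt G (ty G M) := by
    have h3 : (univ.filter (fun B : Om G => ty G B.1 = ty G M)).map
        ⟨fun B : Om G => (B, ty G M), fun B B' h => congrArg Prod.fst h⟩ = QG G p := by
      ext ⟨B, t⟩
      rw [mem_map, mem_QG]
      constructor
      · rintro ⟨B', hB', he⟩
        have h4 := (mem_filter.mp hB').2
        have h5 : B' = B := congrArg Prod.fst he
        have h6 : ty G M = t := congrArg Prod.snd he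
        subst h5
        exact ⟨h4, by rw [← h6]; exact h4.symm⟩
      · rintro ⟨h4, h5⟩
        have h4' : ty G B.1 = ty G M := h4
        refine ⟨B, mem_filter.mpr ⟨mem_univ _, h4'⟩, ?_⟩
        exact Prod.ext rfl (h4'.symm.trans h5.symm)
    unfold nt
    rw [← h3, card_map]
  have hQH : (QH ρ0 p).card = (univ.filter (fun B : Om G => ty H (ρ0 B).1 = ty G M)).card := by
    have h3 : (univ.filter (fun B : Om G => ty H (ρ0 B).1 = ty G M)).map
        ⟨fun B : Om G => (B, ty G M), fun B B' h => congrArg Prod.fst h⟩ = QH ρ0 p := by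
      ext ⟨B, t⟩
      rw [mem_map, mem_QH]
      constructor
      · rintro ⟨B', hB', he⟩
        have h4 := (mem_filter.mp hB').2
        have h5 : B' = B := congrArg Prod.fst he
        have h6 : ty G M = t := congrArg Prod.snd he
        subst h5
        exact ⟨h4, by rw [← h6]; exact h4.symm⟩
      · rintro ⟨h4, h5⟩
        have h4' : ty H (ρ0 B).1 = ty G M := h4
        refine ⟨B, mem_filter.mpr ⟨mem_univ _, h4'⟩, ?_⟩
        exact Prod.ext rfl (h4'.symm.trans h5.symm)
    rw [← h3, card_map]
  have hzM : z ≠ ty G M := fun h => hp.not h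
  have hY : (univ.filter (fun B : Om G => ty G B.1 = ty G M)).card +
      (univ.filter (fun B : Om G => ty G B.1 = z)).card =
      (univ.filter (fun B : Om G => ty H (ρ0 B).1 = ty G M)).card +
      (univ.filter (fun B : Om G => ty H (ρ0 B).1 = z)).card := by
    rw [← card_union_of_disjoint, ← card_union_of_disjoint]
    · congr 1
      ext B
      rw [mem_union, mem_union, mem_filter, mem_filter, mem_filter, mem_filter]
      have := (g0 B).1
      constructor
      · rintro (h | h)
        · rcases this.mp (Or.inl h.2) with h' | h'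
          · exact Or.inl ⟨mem_univ _, h'⟩
          · exact Or.inr ⟨mem_univ _, h'⟩
        · rcases this.mp (Or.inr h.2) with h' | h'
          · exact Or.inl ⟨mem_univ _, h'⟩
          · exact Or.inr ⟨mem_univ _, h'⟩
      · rintro (h | h)
        · rcases this.mpr (Or.inl h.2) with h' | h'
          · exact Or.inl ⟨mem_univ _, h'⟩
          · exact Or.inr ⟨mem_univ _, h'⟩
        · rcases this.mpr (Or.inr h.2) with h' | h'
          · exact Or.inl ⟨mem_univ _, h'⟩
          · exact Or.inr ⟨mem_univ _, h'⟩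
    · rw [Finset.disjoint_left]
      intro B h h'
      exact hzM ((mem_filter.mp h').2.symm.trans (mem_filter.mp h).2)
    · rw [Finset.disjoint_left]
      intro B h h'
      exact hzM ((mem_filter.mp h').2.symm.trans (mem_filter.mp h).2)
  have hcz : (univ.filter (fun B : Om G => ty H (ρ0 B).1 = z)).card = nt G z := by
    have h3 := hdk.card
    rw [hQG, hQH] at h3
    unfold nt at h3 ⊢
    omega
  apply hdk.lov
  · intro γ
    by_contra hcon
    push Not at hcon
    have h3 : ∀ B ∈ univ.filter (fun B : Om G => ty G B.1 = ty G M),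
        (γ : Equiv.Perm (Om G)) B ∈ univ.filter (fun B : Om G => ty G B.1 = z) := by
      intro B hB
      have hB' := (mem_filter.mp hB).2
      have h4 := hcon (B, ty G M) (mem_QG.mpr ⟨hB', hB'.symm⟩)
      rw [phi_apply, mem_QG] at h4
      rw [mem_filter]
      refine ⟨mem_univ _, ?_⟩
      rcases (γ.2.2.1 B).mp (Or.inl hB') with h5 | h5
      · exact absurd ⟨h5, (show ty G M = _ from h5.symm)⟩ h4
      · exact h5
    have h4 := card_le_card_of_injOn _ h3 (fun B _ B' _ h => γ.1.injective h)
    unfold nt at hlt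
    omega
  · intro γ
    by_contra hcon
    push Not at hcon
    have h3 : ∀ B ∈ univ.filter (fun B : Om G => ty G B.1 = ty G M),
        (γ : Equiv.Perm (Om G)) B ∈ univ.filter (fun B : Om G => ty H (ρ0 B).1 = z) := by
      intro B hB
      have hB' := (mem_filter.mp hB).2
      have h4 := hcon (B, ty G M) (mem_QG.mpr ⟨hB', hB'.symm⟩)
      rw [phi_apply, mem_QH] at h4
      rw [mem_filter]
      refine ⟨mem_univ _, ?_⟩
      rcases (g0 _).1.mp ((γ.2.2.1 B).mp (Or.inl hB')) with h5 | h5
      · exact absurd ⟨h5, (show ty G M = _ from h5.symm)⟩ h4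
      · exact h5
    have h4 := card_le_card_of_injOn _ h3 (fun B _ B' _ h => γ.1.injective h)
    unfold nt at hlt hcz
    omega

end Pool.Agent.L7h41.MD
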