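import Pool.Agent.L7h41.MD.Bridge

set_option autoImplicit false
set_option linter.unusedSectionVars false

/-!
# Numbers and sizes of maximal proper modules
-/

namespace Pool.Agent.L7h41.MD

open Finset Classical
open Pool.Agent.H234RC (Hypo NonIso Reconstructible)

variable {V : Type} [Fintype V] {G H K : SimpleGraph V} {π : V → Equiv.Perm V} {v x y : V}

theorem nt_pos (B : Om G) : 0 < nt G (ty G B.1) :=
  card_pos.mpr ⟨B, mem_filter.mpr ⟨mem_univ _, rfl⟩⟩

/-- for a vertex `v` of a nontrivial maximal proper module `M` there is a maximal proper module of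
the type of `M \ {v}` -/
theorem Ctx.down (c : Ctx G H π) (hN : NonIso G H) (h2 : 2 ≤ (blk G univ v).card) :
    ∃ x, SI G (blk G univ x) G ((blk G univ v).erase v) := by
  have h1 := c.le hN v h2
  have h3 := nt_pos (bk G v)
  have h4 : 0 < nt G (ty G ((blk G univ v).erase v)) := lt_of_lt_of_le h3 h1
  obtain ⟨⟨B, hB⟩, hB'⟩ := card_pos.mp h4
  obtain ⟨x, _, rfl⟩ := mem_image.mp hB
  exact ⟨x, ty_eq.mp (mem_filter.mp hB').2⟩

theorem Ctx.sizes (c : Ctx G H π) (hN : NonIso G H) (x : V) (j : ℕ) :
    j < (blk G univ x).card → ∃ y, (blk G univ y).card = (blk G univ x).card - j := by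
  induction j with
  | zero => intro _; exact ⟨x, rfl⟩
  | succ j ih =>
    intro hj
    obtain ⟨y, hy⟩ := ih (by omega)
    obtain ⟨w, hw⟩ := c.down hN (v := y) (by omega)
    refine ⟨w, ?_⟩
    rw [hw.card]
    have := card_er c.gG y
    omega

theorem Ctx.big (c : Ctx G H π) (hN : NonIso G H) (x : V) :
    (blk G univ x).card * ((blk G univ x).card + 1) ≤ 2 * Fintype.card V := by
  set m := (blk G univ x).card with hm
  have h1 : ∀ j ∈ range (m + 1), j ≤ (univ.filter (fun y => (blk G univ y).card = j)).card := by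
    intro j hj
    rw [mem_range] at hj
    rcases Nat.eq_zero_or_pos j with h0 | h0
    · rw [h0]; exact Nat.zero_le _
    · obtain ⟨y, hy⟩ := c.sizes hN x (m - j) (by omega)
      have hy' : (blk G univ y).card = j := by omega
      calc j = (blk G univ y).card := hy'.symm
        _ ≤ _ := by
          apply card_le_card
          intro w hw
          rw [mem_filter, blk_eq c.gG (mem_univ y) hw]
          exact ⟨mem_univ _, hy'⟩
  have h2 := sum_le_sum h1
  have h3 : ∑ j ∈ range (m + 1), (univ.filter (fun y => (blk G univ y).card = j)).card ≤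
      Fintype.card V := by
    rw [← card_biUnion]
    · exact card_le_univ _
    · intro i _ j _ hij
      show Disjoint (univ.filter (fun y => (blk G univ y).card = i))
        (univ.filter (fun y => (blk G univ y).card = j))
      rw [Finset.disjoint_left]
      intro w hw hw'
      exact hij ((mem_filter.mp hw).2.symm.trans (mem_filter.mp hw').2)
  have h4 := Finset.sum_range_id_mul_two (m + 1)
  rw [Nat.add_sub_cancel] at h4
  nlinarith

theorem card_max (hG : Good G univ) (t : Finset V) :
    Nat.card {N : Finset V // IsMaxModule G N ∧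
      Nonempty (G.induce (N : Set V) ≃g G.induce (t : Set V))} = nt G (ty G t) := by
  unfold nt
  rw [Nat.card_eq_fintype_card, Fintype.card_subtype, ← card_map ⟨Subtype.val,
    Subtype.val_injective⟩]
  congr 1
  ext N
  rw [mem_filter, mem_map]
  constructor
  · rintro ⟨_, h1, h2⟩
    obtain ⟨x, rfl⟩ := (max_iff hG N).mp h1
    exact ⟨bk G x, mem_filter.mpr ⟨mem_univ _, ty_eq.mpr ((iso_iff G G _ _).mp h2)⟩, rfl⟩
  · rintro ⟨⟨B, hB⟩, hB', rfl⟩
    obtain ⟨x, _, rfl⟩ := mem_image.mp hB
    exact ⟨mem_univ _, (max_iff hG _).mpr ⟨x, rfl⟩,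
      (iso_iff G G _ _).mpr (ty_eq.mp (mem_filter.mp hB').2)⟩

/-- the first theorem -/
theorem thm_copies (G : SimpleGraph V) (hn : 8 ≤ Fintype.card V) (M : Finset V) (v : V)
    (hM : IsMaxModule G M) (hv : v ∈ M) (hMv : M ≠ {v})
    (hlt : Nat.card {N : Finset V // IsMaxModule G N ∧
        Nonempty (G.induce (N : Set V) ≃g G.induce ((M.erase v : Finset V) : Set V))} <
      Nat.card {N : Finset V // IsMaxModule G N ∧
        Nonempty (G.induce (N : Set V) ≃g G.induce (M : Set V))}) :
    Reconstructible G ∧ Reconstructible Gᶜ := by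
  have h2 : 2 ≤ M.card := by
    by_contra hcon
    have h1 := card_pos.mpr ⟨v, hv⟩
    obtain ⟨a, ha⟩ := card_eq_one.mp (by omega : M.card = 1)
    rw [ha, mem_singleton] at hv
    exact hMv (by rw [ha, hv])
  refine rec_ctx G hn (fun hG => ?_) (fun H π c hN => ?_)
  · obtain ⟨x, rfl⟩ := (max_iff hG M).mp hM
    exact ⟨x, h2⟩
  · obtain ⟨x, rfl⟩ := (max_iff c.gG M).mp hM
    have e := blk_eq c.gG (mem_univ x) hv
    have h3 := c.le hN v (by rw [e]; exact h2)
    rw [e] at h3
    rw [card_max c.gG, card_max c.gG] at hlt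
    omega

/-- large modules -/
theorem thm_big (G : SimpleGraph V) (hn : 8 ≤ Fintype.card V) (M : Finset V)
    (hM : IsModule G M) (hM1 : M ≠ univ) (hM2 : 2 ≤ M.card)
    (hlt : 2 * Fintype.card V < M.card * (M.card + 1)) :
    Reconstructible G ∧ Reconstructible Gᶜ := by
  obtain ⟨x, hx⟩ := card_pos.mp (by omega : 0 < M.card)
  have hsub := card_le_card (subset_blk (isModule_iff.mp hM) hM1 hx)
  refine rec_ctx G hn (fun hG => ?_) (fun H π c hN => ?_)
  · exact ⟨x, by omega⟩
  · have := c.big hN x
    nlinarith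

end Pool.Agent.L7h41.MD
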