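import Pool.Agent.L7h41.MD.Cor

set_option autoImplicit false
set_option linter.unusedSectionVars false

/-!
# Deleting a maximal proper module
-/

namespace Pool.Agent.L7h41.MD

open Finset Classical
open Pool.Agent.H234RC (Hypo NonIso Reconstructible)
open Pool.Agent.TH403.FLP (hypo_symm pi_ne pi_symm_ne)

variable {V : Type} [Fintype V] {G H K : SimpleGraph V} {π : V → Equiv.Perm V} {v x y : V}
  {A B S : Finset V}

theorem sumT (hH : Hypo G H π) (T : Finset V) (pG pH : V → Finset V → Prop)
    (h : ∀ v ∈ T, ∀ A, v ∉ A → (pH v (mp (π v) A) ↔ pG v A)) :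
    ∑ v ∈ T, ∑ A : Finset V, ind (v ∉ A ∧ pG v A) =
      ∑ v ∈ T, ∑ A : Finset V, ind (v ∉ A ∧ pH v A) := by
  apply sum_congr rfl
  intro v hv
  apply Fintype.sum_equiv (mpE (π v))
  intro A
  apply ind_congr
  show _ ↔ (v ∉ mp (π v) A ∧ pH v (mp (π v) A))
  have e1 : v ∉ mp (π v) A ↔ v ∉ A := by
    rw [mem_mp]
    have : (π v).symm v = v := by rw [Equiv.symm_apply_eq, hH.fix]
    rw [this]
  rw [e1]
  constructor
  · rintro ⟨h1, h2⟩; exact ⟨h1, (h v hv A h1).mpr h2⟩
  · rintro ⟨h1, h2⟩; exact ⟨h1, (h v hv A h1).mp h2⟩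

theorem restrict_mod (h : Mod K univ B) (A : Finset V) : Mod K A (A ∩ B) := by
  refine ⟨inter_subset_left, fun z hz hzn x hx y hy => ?_⟩
  rw [mem_inter] at hx hy
  exact h.2 z (mem_univ _) (fun h' => hzn (mem_inter.mpr ⟨hz, h'⟩)) x hx.2 y hy.2

theorem blk_factor (hK : Good K univ) (hA : Good K A)
    (hsz : ∀ x, (blk K univ x).card < A.card) (hy : y ∈ A) (hx : x ∈ A)
    (h : blk K univ x = blk K univ y) : blk K A x = blk K A y := by
  have h1 : A ∩ blk K univ y ⊆ blk K A y := by
    apply subset_blk (restrict_mod (blk_mod hK (mem_univ y)) A)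
    · intro h2
      have h3 : A ⊆ blk K univ y := by rw [← h2]; exact inter_subset_right
      have := card_le_card h3
      have := hsz y
      omega
    · exact mem_inter.mpr ⟨hy, self_mem_blk hK (mem_univ y)⟩
  apply blk_eq hA hy
  apply h1
  rw [← h]
  exact mem_inter.mpr ⟨hx, self_mem_blk hK (mem_univ x)⟩

/-- a choice of the block of the induced subgraph -/
theorem exists_factor (hK : Good K univ) (hA : Good K A)
    (hsz : ∀ x, (blk K univ x).card < A.card) :
    ∃ f : Finset V → Finset V, ∀ x ∈ A, blk K A x = f (blk K univ x) := by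
  refine ⟨fun C => if h : ∃ y, y ∈ A ∧ blk K univ y = C then blk K A h.choose else ∅, ?_⟩
  intro x hx
  have hne : ∃ y, y ∈ A ∧ blk K univ y = blk K univ x := ⟨x, hx, rfl⟩
  show blk K A x = if h : ∃ y, y ∈ A ∧ blk K univ y = blk K univ x then blk K A h.choose else ∅
  rw [dif_pos hne]
  exact blk_factor hK hA hsz hne.choose_spec.1 hx hne.choose_spec.2.symm

theorem nb_le (hK : Good K univ) (hA : Good K A) (hsz : ∀ x, (blk K univ x).card < A.card) :
    nb K A ≤ (A.image (blk K univ)).card := by
  obtain ⟨f, hf⟩ := exists_factor hK hA hsz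
  unfold nb
  have : A.image (blk K A) = (A.image (blk K univ)).image f := by
    rw [image_image]
    exact image_congr (fun x hx => hf x (mem_coe.mp hx))
  rw [this]
  exact card_image_le

/-- the deleted module and what is known about the two graphs -/
structure DCtx (G H : SimpleGraph V) (π : V → Equiv.Perm V) (x0 : V) : Prop where
  c : Ctx G H π
  non : NonIso G H
  g0 : Good G (univ \ blk G univ x0)
  b0 : ∀ x ∈ univ \ blk G univ x0, blk G (univ \ blk G univ x0) x = blk G univ x

variable {x0 : V}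

/-- the facts used for both graphs -/
structure Kx (G K : SimpleGraph V) (x0 : V) : Prop where
  good : Good K univ
  nbe : nb K univ = nb G univ
  sz : ∀ x, (blk K univ x).card + (blk G univ x0).card < Fintype.card V
  U : ∀ x, 2 ≤ (blk G univ x).card ↔ 2 ≤ (blk K univ x).card

theorem Ctx.small (c : Ctx G H π) (hN : NonIso G H) (x y : V) :
    (blk G univ x).card + (blk G univ y).card < Fintype.card V := by
  have h1 := c.big hN x
  have h2 := c.big hN y
  have h3 := c.n8
  set a := (blk G univ x).card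
  set b := (blk G univ y).card
  set n := Fintype.card V
  by_contra hcon
  rw [not_lt] at hcon
  rcases le_total a b with h | h
  · have h4 : n ≤ 2 * b := by omega
    have h5 : b * (b + 1) ≤ 4 * b := by omega
    have h6 : b ≤ 3 := by
      by_contra h7
      nlinarith
    omega
  · have h4 : n ≤ 2 * a := by omega
    have h5 : a * (a + 1) ≤ 4 * a := by omega
    have h6 : a ≤ 3 := by
      by_contra h7
      nlinarith
    omega

theorem DCtx.kG (d : DCtx G H π x0) : Kx G G x0 :=
  ⟨d.c.gG, rfl, fun x => d.c.small d.non x x0, fun _ => Iff.rfl⟩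

theorem DCtx.kH (d : DCtx G H π x0) : Kx G H x0 := by
  refine ⟨d.c.gH, ?_, fun x => ?_, d.c.U⟩
  · obtain ⟨x, hx⟩ := d.c.ex
    exact (nb_both d.c.gG d.c.gH d.c.hyp hx ((d.c.U x).mp hx)).symm
  · rw [← d.c.card x]
    exact d.c.small d.non x x0

/-- the sets which induce the graph without the module -/
def FF (G : SimpleGraph V) (x0 : V) (K : SimpleGraph V) (A : Finset V) : Prop :=
  SI K A G (univ \ blk G univ x0)

theorem FF_card (h : FF G x0 K A) : A.card + (blk G univ x0).card = Fintype.card V := by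
  have h1 := h.card
  rw [← compl_eq_univ_sdiff, card_compl] at h1
  have := card_le_univ (blk G univ x0)
  omega

theorem FF_good (hg : Good G (univ \ blk G univ x0)) (h : FF G x0 K A) : Good K A := by
  obtain ⟨σ, h1, h2⟩ := h.symm
  rw [← h1]
  exact h2.good hg

theorem FF_nb (h : FF G x0 K A) : nb K A = nb G (univ \ blk G univ x0) := by
  obtain ⟨σ, h1, h2⟩ := h.symm
  rw [← h1]
  exact h2.nb

theorem DCtx.nb (d : DCtx G H π x0) : nb G (univ \ blk G univ x0) + 1 = nb G univ := by
  have e : (univ \ blk G univ x0).image (blk G (univ \ blk G univ x0)) =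
      (univ.image (blk G univ)).erase (blk G univ x0) := by
    ext B
    rw [mem_image, mem_erase, mem_image]
    constructor
    · rintro ⟨x, hx, rfl⟩
      rw [d.b0 x hx]
      refine ⟨fun h => ?_, x, mem_univ _, rfl⟩
      apply (mem_sdiff.mp hx).2
      rw [← h]
      exact self_mem_blk d.c.gG (mem_univ x)
    · rintro ⟨h, x, _, rfl⟩
      have hx : x ∈ univ \ blk G univ x0 := by
        rw [mem_sdiff]
        exact ⟨mem_univ _, fun h' => h (blk_eq d.c.gG (mem_univ x0) h')⟩
      exact ⟨x, hx, d.b0 x hx⟩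
  unfold MD.nb
  rw [e, card_erase_of_mem (mem_image_of_mem _ (mem_univ x0))]
  have := card_pos.mpr ⟨_, mem_image_of_mem (blk G univ) (mem_univ x0)⟩
  omega

theorem DCtx.uniq (d : DCtx G H π x0) (k : Kx G K x0) (h : FF G x0 K A)
    (hx : Disjoint A (blk K univ x)) (hy : Disjoint A (blk K univ y)) :
    blk K univ x = blk K univ y := by
  by_contra hne
  have h1 := nb_le k.good (FF_good d.g0 h) (fun z => by
    have := FF_card h
    have := k.sz z
    omega)
  rw [FF_nb h] at h1
  have h2 := d.nb
  have h3 := k.nbe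
  have h4 : A.image (blk K univ) ⊆
      ((univ.image (blk K univ)).erase (blk K univ x)).erase (blk K univ y) := by
    intro B hB
    obtain ⟨z, hz, rfl⟩ := mem_image.mp hB
    have hzz := self_mem_blk k.good (mem_univ z)
    refine mem_erase.mpr ⟨fun h => ?_, mem_erase.mpr ⟨fun h => ?_,
      mem_image_of_mem _ (mem_univ z)⟩⟩
    · rw [h] at hzz
      exact Finset.disjoint_left.mp hy hz hzz
    · rw [h] at hzz
      exact Finset.disjoint_left.mp hx hz hzz
  have h5 := card_le_card h4
  have hxm := mem_image_of_mem (blk K univ) (mem_univ x)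
  have hym := mem_image_of_mem (blk K univ) (mem_univ y)
  rw [card_erase_of_mem (mem_erase.mpr ⟨fun h => hne h.symm, hym⟩), card_erase_of_mem hxm] at h5
  have h6 : 2 ≤ (univ.image (blk K univ)).card := by
    have : ({blk K univ x, blk K univ y} : Finset (Finset V)) ⊆ univ.image (blk K univ) := by
      intro C hC
      rw [mem_insert, mem_singleton] at hC
      rcases hC with rfl | rfl
      · exact hxm
      · exact hym
    have := card_le_card this
    rwa [card_pair hne] at this
  unfold MD.nb at h1 h2 h3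
  omega

/-- the number of the sets inducing the graph without the module and meeting all modules -/
noncomputable def aK (G : SimpleGraph V) (x0 : V) (K : SimpleGraph V) : ℤ :=
  ∑ A : Finset V, ind (FF G x0 K A ∧ ∀ x, ¬ Disjoint A (blk K univ x))

/-- the number of these sets missing a module with `β` elements -/
noncomputable def uK (G : SimpleGraph V) (x0 : V) (K : SimpleGraph V) (β : ℕ) : ℤ :=
  ∑ A : Finset V, ind (FF G x0 K A ∧ ∃ x, Disjoint A (blk K univ x) ∧ (blk K univ x).card = β)

theorem DCtx.total (d : DCtx G H π x0) (k : Kx G K x0) :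
    ∑ A : Finset V, ind (FF G x0 K A) =
      aK G x0 K + ∑ i ∈ range (blk G univ x0).card, uK G x0 K (i + 1) := by
  unfold aK uK
  rw [sum_comm, ← sum_add_distrib]
  apply sum_congr rfl
  intro A _
  by_cases hF : FF G x0 K A
  · rw [ind_true hF]
    by_cases hm : ∀ x, ¬ Disjoint A (blk K univ x)
    · rw [ind_true ⟨hF, hm⟩, sum_eq_zero, add_zero]
      intro i _
      apply ind_false
      rintro ⟨_, x, hx, _⟩
      exact hm x hx
    · rw [ind_false (fun h => hm h.2), zero_add]
      push Not at hm
      obtain ⟨x, hx⟩ := hm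
      have h1 := card_blk_pos k.good x
      have h2 : (blk K univ x).card ≤ (blk G univ x0).card := by
        have h3 := FF_card hF
        have h4 := card_le_univ (A ∪ blk K univ x)
        rw [card_union_of_disjoint hx] at h4
        omega
      rw [sum_eq_single_of_mem ((blk K univ x).card - 1) (mem_range.mpr (by omega)),
        ind_true ⟨hF, x, hx, by omega⟩]
      intro i _ hi
      apply ind_false
      rintro ⟨_, y, hy, hy'⟩
      rw [← d.uniq k hF hx hy] at hy'
      omega
  · rw [ind_false hF, ind_false (fun h => hF h.1), sum_eq_zero (fun i _ => ind_false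
      (fun h => hF h.1)), add_zero]

theorem mem_U {U : Finset V} (hU : U = univ.filter (fun x => 2 ≤ (blk G univ x).card))
    (k : Kx G K x0) (x : V) : x ∈ U ↔ 2 ≤ (blk K univ x).card := by
  rw [hU, mem_filter, ← k.U]
  exact ⟨fun h => h.2, fun h => ⟨mem_univ _, h⟩⟩

theorem sum_ind_sub (U D : Finset V) (h : D ⊆ U) : ∑ v ∈ U, ind (v ∈ D) = (D.card : ℤ) := by
  rw [sum_congr rfl (fun v _ => ind_eq (v ∈ D)), Finset.sum_boole, filter_mem_eq_inter,
    inter_eq_right.mpr h]

theorem meet_two (k : Kx G K x0) (hv : v ∉ A) (h : ¬ Disjoint A (blk K univ v)) :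
    2 ≤ (blk K univ v).card := by
  rw [Finset.not_disjoint_iff] at h
  obtain ⟨t, ht, ht'⟩ := h
  have : ({v, t} : Finset V) ⊆ blk K univ v := by
    intro s hs
    rw [mem_insert, mem_singleton] at hs
    rcases hs with rfl | rfl
    · exact self_mem_blk k.good (mem_univ s)
    · exact ht'
  have h2 := card_le_card this
  rwa [card_pair (show v ≠ t from fun h => hv (h ▸ ht))] at h2

theorem DCtx.eqA (_ : DCtx G H π x0) (k : Kx G K x0) {U : Finset V}
    (hU : U = univ.filter (fun x => 2 ≤ (blk G univ x).card)) :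
    ∑ v ∈ U, ∑ A : Finset V, ind (v ∉ A ∧ FF G x0 K A ∧ ∀ x, ¬ Disjoint A (blk K univ x)) =
      (blk G univ x0).card * aK G x0 K := by
  unfold aK
  rw [sum_comm, mul_sum]
  apply sum_congr rfl
  intro A _
  by_cases h : FF G x0 K A ∧ ∀ x, ¬ Disjoint A (blk K univ x)
  · rw [ind_true h, mul_one]
    have e1 : ∀ v ∈ U, ind (v ∉ A ∧ FF G x0 K A ∧ ∀ x, ¬ Disjoint A (blk K univ x)) =
        ind (v ∈ Aᶜ) := by
      intro v _
      apply ind_congr
      rw [mem_compl]
      exact ⟨fun h' => h'.1, fun h' => ⟨h', h⟩⟩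
    rw [sum_congr rfl e1, sum_ind_sub U]
    · have := FF_card h.1
      rw [card_compl]
      omega
    · intro v hv
      rw [mem_U hU k]
      exact meet_two k (mem_compl.mp hv) (h.2 v)
  · rw [ind_false h, mul_zero]
    exact sum_eq_zero (fun v _ => ind_false (fun h' => h h'.2))

theorem DCtx.eqU (d : DCtx G H π x0) (k : Kx G K x0) {U : Finset V}
    (hU : U = univ.filter (fun x => 2 ≤ (blk G univ x).card)) (β : ℕ) (hβ : 1 ≤ β) :
    ∑ v ∈ U, ∑ A : Finset V, ind (v ∉ A ∧ FF G x0 K A ∧ ∃ x, x ≠ v ∧
      Disjoint A (blk K univ x) ∧ ((blk K univ x).erase v).card = β) =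
      ((blk G univ x0).card - (β : ℤ)) * uK G x0 K β + (β + 1) * uK G x0 K (β + 1) := by
  unfold uK
  rw [sum_comm, mul_sum, mul_sum, ← sum_add_distrib]
  apply sum_congr rfl
  intro A _
  by_cases hF : FF G x0 K A
  swap
  · rw [ind_false (fun h => hF h.1), ind_false (fun h => hF h.1), mul_zero, mul_zero, add_zero]
    exact sum_eq_zero (fun v _ => ind_false (fun h' => hF h'.2.1))
  by_cases hm : ∃ x, Disjoint A (blk K univ x)
  swap
  · rw [ind_false (fun h => hm ⟨_, h.2.choose_spec.1⟩),
      ind_false (fun h => hm ⟨_, h.2.choose_spec.1⟩), mul_zero, mul_zero, add_zero]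
    exact sum_eq_zero (fun v _ => ind_false (fun h' => by
      obtain ⟨_, _, x, _, hx, _⟩ := h'
      exact hm ⟨x, hx⟩))
  obtain ⟨x1, hx1⟩ := hm
  set B := blk K univ x1 with hB
  have hun : ∀ x, Disjoint A (blk K univ x) → blk K univ x = B := fun x hx =>
    d.uniq k hF hx hx1
  have i1 : ∀ j : ℕ, ind (FF G x0 K A ∧ ∃ x, Disjoint A (blk K univ x) ∧
      (blk K univ x).card = j) = ind (B.card = j) := by
    intro j
    apply ind_congr
    constructor
    · rintro ⟨_, x, h1, h2⟩
      rw [← hun x h1]
      exact h2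
    · intro h
      exact ⟨hF, x1, hx1, h⟩
  rw [i1, i1]
  have hxB : x1 ∈ B := self_mem_blk k.good (mem_univ x1)
  have hBs : ∀ v ∈ B, blk K univ v = B := fun v hv => blk_eq k.good (mem_univ x1) hv
  have e1 : ∀ v ∈ U, ind (v ∉ A ∧ FF G x0 K A ∧ ∃ x, x ≠ v ∧
      Disjoint A (blk K univ x) ∧ ((blk K univ x).erase v).card = β) =
      ind (v ∈ Aᶜ \ B) * ind (B.card = β) + ind (v ∈ B) * ind (B.card = β + 1) := by
    intro v hv
    rw [mem_U hU k] at hv
    by_cases hvB : v ∈ B
    · have h3 : v ∉ Aᶜ \ B := fun h => (mem_sdiff.mp h).2 hvB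
      rw [ind_false h3, zero_mul, zero_add, ind_true hvB, one_mul]
      apply ind_congr
      rw [hBs v hvB] at hv
      constructor
      · rintro ⟨_, _, x, _, h4, h5⟩
        rw [hun x h4, card_erase_of_mem hvB] at h5
        omega
      · intro h
        obtain ⟨t, ht, htv⟩ := exists_mem_ne (by omega : 1 < B.card) v
        refine ⟨fun h' => Finset.disjoint_left.mp hx1 h' hvB, hF, t, htv, ?_, ?_⟩
        · rw [hBs t ht]; exact hx1
        · rw [hBs t ht, card_erase_of_mem hvB, h]
          rfl
    · rw [ind_false hvB, zero_mul, add_zero]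
      by_cases hvA : v ∈ A
      · have h3 : v ∉ Aᶜ \ B := fun h => (mem_compl.mp (mem_sdiff.mp h).1) hvA
        rw [ind_false h3, zero_mul]
        exact ind_false (fun h => h.1 hvA)
      · have h3 : v ∈ Aᶜ \ B := mem_sdiff.mpr ⟨mem_compl.mpr hvA, hvB⟩
        rw [ind_true h3, one_mul]
        apply ind_congr
        constructor
        · rintro ⟨_, _, x, _, h4, h5⟩
          rw [hun x h4, erase_eq_of_notMem hvB] at h5
          exact h5
        · intro h
          refine ⟨hvA, hF, x1, fun h' => hvB (h' ▸ hxB), hx1, ?_⟩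
          rw [← hB, erase_eq_of_notMem hvB]
          exact h
  rw [sum_congr rfl e1, sum_add_distrib, ← sum_mul, ← sum_mul]
  have hcA : B.card + (Aᶜ \ B).card = (blk G univ x0).card := by
    have h3 : B ⊆ Aᶜ := by
      intro t ht
      rw [mem_compl]
      exact fun h => Finset.disjoint_left.mp hx1 h ht
    have h4 := card_sdiff_add_card_eq_card h3
    have h5 := FF_card hF
    rw [card_compl] at h4
    omega
  rw [sum_ind_sub U (Aᶜ \ B)]
  · congr 1
    · by_cases h : B.card = β
      · rw [ind_true h, mul_one, mul_one]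
        omega
      · rw [ind_false h, mul_zero, mul_zero]
    · by_cases h : B.card = β + 1
      · rw [sum_ind_sub U B]
        · rw [ind_true h, h]
          push_cast
          ring
        · intro t ht
          rw [mem_U hU k, hBs t ht]
          omega
      · rw [ind_false h, mul_zero, mul_zero]
  · intro t ht
    rw [mem_sdiff, mem_compl] at ht
    rw [mem_U hU k]
    apply meet_two k ht.1
    intro h
    apply ht.2
    rw [← hun t h]
    exact self_mem_blk k.good (mem_univ t)

theorem Ctx.disj (c : Ctx G H π) (h2 : 2 ≤ (blk G univ v).card) (hv : v ∉ A) (hx : x ≠ v) :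
    Disjoint (mp (π v) A) (blk H univ (π v x)) ↔ Disjoint A (blk G univ x) := by
  have h1 := mp_blk c h2 hx
  have h3 : v ∉ mp (π v) A := by
    rw [mem_mp]
    have : (π v).symm v = v := by rw [Equiv.symm_apply_eq, c.hyp.fix]
    rwa [this]
  have e1 : Disjoint A (blk G univ x) ↔ Disjoint A ((blk G univ x).erase v) := by
    rw [Finset.disjoint_left, Finset.disjoint_left]
    constructor
    · intro h a ha ha'
      exact h ha (mem_erase.mp ha').2
    · intro h a ha ha'
      exact h ha (mem_erase.mpr ⟨fun h' => hv (h' ▸ ha), ha'⟩)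
  have e2 : Disjoint (mp (π v) A) (blk H univ (π v x)) ↔
      Disjoint (mp (π v) A) ((blk H univ (π v x)).erase v) := by
    rw [Finset.disjoint_left, Finset.disjoint_left]
    constructor
    · intro h a ha ha'
      exact h ha (mem_erase.mp ha').2
    · intro h a ha ha'
      exact h ha (mem_erase.mpr ⟨fun h' => h3 (h' ▸ ha), ha'⟩)
  rw [e1, e2, ← h1, mp_disj]

theorem FF_iff (hH : Hypo G H π) (hv : v ∉ A) : FF G x0 H (mp (π v) A) ↔ FF G x0 G A := by
  have h := ((hyp_iso hH v).mono
    (fun x hx => mem_W.mpr (fun h => hv (h ▸ hx)) : A ⊆ univ.erase v)).si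
  exact ⟨fun h' => h.trans h', fun h' => h.symm.trans h'⟩

theorem DCtx.same_last (d : DCtx G H π x0) :
    uK G x0 G (blk G univ x0).card = uK G x0 H (blk G univ x0).card := by
  have c := d.c
  set b := (blk G univ x0).card with hb
  have hb1 : 1 ≤ b := card_blk_pos c.gG x0
  obtain ⟨U, hU⟩ : ∃ U : Finset V, U = univ.filter (fun x => 2 ≤ (blk G univ x).card) := ⟨_, rfl⟩
  have hU2 : ∀ v ∈ U, 2 ≤ (blk G univ v).card := fun v hv => (mem_U hU d.kG v).mp hv
  -- sets meeting all modules
  have hA : aK G x0 G = aK G x0 H := by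
    have h1 := sumT c.hyp U (fun _ A => FF G x0 G A ∧ ∀ x, ¬ Disjoint A (blk G univ x))
      (fun _ A => FF G x0 H A ∧ ∀ x, ¬ Disjoint A (blk H univ x)) (by
        intro v hv A hvA
        have h2 := hU2 v hv
        show (FF G x0 H (mp (π v) A) ∧ ∀ x, ¬ Disjoint (mp (π v) A) (blk H univ x)) ↔ _
        rw [FF_iff c.hyp hvA]
        apply and_congr_right
        intro _
        constructor
        · intro h x hx
          obtain ⟨y, hy, hyx⟩ := exists_rep c.gG h2 (bk G x)
          have e : blk G univ x = blk G univ y := congrArg Subtype.val hyx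
          rw [e] at hx
          exact h (π v y) ((c.disj h2 hvA hy).mpr hx)
        · intro h x hx
          obtain ⟨y, hy, hyx⟩ := exists_rep c.gH ((c.U v).mp h2) (bk H x)
          have e : blk H univ x = blk H univ y := congrArg Subtype.val hyx
          rw [e] at hx
          have hy' := (pi_symm_ne c.hyp v y).mpr hy
          have h3 := c.disj (A := A) h2 hvA hy'
          rw [Equiv.apply_symm_apply] at h3
          exact h _ (h3.mp hx))
    rw [d.eqA d.kG hU, d.eqA d.kH hU] at h1
    have h2 : ((blk G univ x0).card : ℤ) ≠ 0 := by omega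
    exact mul_left_cancel₀ h2 h1
  have hE : ∀ β : ℕ, 1 ≤ β → ((b : ℤ) - β) * uK G x0 G β + (β + 1) * uK G x0 G (β + 1) =
      ((b : ℤ) - β) * uK G x0 H β + (β + 1) * uK G x0 H (β + 1) := by
    intro β hβ
    rw [← d.eqU d.kG hU β hβ, ← d.eqU d.kH hU β hβ]
    refine sumT c.hyp U (fun v A => FF G x0 G A ∧ ∃ x, x ≠ v ∧
      Disjoint A (blk G univ x) ∧ ((blk G univ x).erase v).card = β)
      (fun v A => FF G x0 H A ∧ ∃ x, x ≠ v ∧
      Disjoint A (blk H univ x) ∧ ((blk H univ x).erase v).card = β) (fun v hv A hvA => ?_)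
    have h2 := hU2 v hv
    show (FF G x0 H (mp (π v) A) ∧ ∃ x, x ≠ v ∧ Disjoint (mp (π v) A) (blk H univ x) ∧
      ((blk H univ x).erase v).card = β) ↔ _
    rw [FF_iff c.hyp hvA]
    apply and_congr_right
    intro _
    constructor
    · rintro ⟨y, hy, h3, h4⟩
      have hy' := (pi_symm_ne c.hyp v y).mpr hy
      have h5 := c.disj (A := A) h2 hvA hy'
      have h6 := mp_blk c h2 hy'
      rw [Equiv.apply_symm_apply] at h5 h6
      refine ⟨_, hy', h5.mp h3, ?_⟩
      rw [← h4, ← h6, card_mp]
    · rintro ⟨x, hx, h3, h4⟩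
      refine ⟨π v x, (pi_ne c.hyp v x).mpr hx, (c.disj h2 hvA hx).mpr h3, ?_⟩
      rw [← mp_blk c h2 hx, card_mp]
      exact h4
  have hT : ∑ A : Finset V, ind (FF G x0 G A) = ∑ A : Finset V, ind (FF G x0 H A) := by
    have k : ∀ K : SimpleGraph V, ∑ w, ∑ A : Finset V, ind (w ∉ A ∧ FF G x0 K A) =
        (b : ℤ) * ∑ A : Finset V, ind (FF G x0 K A) := by
      intro K
      rw [sum_kelly univ (fun A => FF G x0 K A), mul_sum]
      apply sum_congr rfl
      intro A _
      by_cases hA : FF G x0 K A
      · have := FF_card hA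
        rw [inter_univ, card_univ]
        congr 1
        omega
      · rw [ind_false hA, mul_zero, mul_zero]
    have h1 := sumT c.hyp univ (fun _ A => FF G x0 G A) (fun _ A => FF G x0 H A)
      (fun v _ A hvA => FF_iff c.hyp hvA)
    rw [k, k] at h1
    have h2 : (b : ℤ) ≠ 0 := by omega
    exact mul_left_cancel₀ h2 h1
  rw [d.total d.kG, d.total d.kH, hA, ← hb] at hT
  let δ : ℕ → ℤ := fun i => uK G x0 G (i + 1) - uK G x0 H (i + 1)
  have hrec : ∀ i : ℕ, ((b : ℤ) - (i + 1)) * δ i + (i + 2) * δ (i + 1) = 0 := by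
    intro i
    have h1 := hE (i + 1) (by omega)
    simp only [δ]
    push_cast at h1
    have e1 : ((i : ℤ) + 1 + 1) = i + 2 := by ring
    rw [e1] at h1
    linarith
  have hsum : ∑ i ∈ range b, δ i = 0 := by
    simp only [δ]
    rw [sum_sub_distrib]
    linarith
  have hval : ∀ i : ℕ, i < b → (b : ℤ) * δ i = (-1) ^ i * (b.choose (i + 1) : ℤ) * δ 0 := by
    intro i
    induction i with
    | zero =>
      intro _
      rw [zero_add, Nat.choose_one_right]
      ring
    | succ i ih =>
      intro hi
      have h1 := hrec i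
      have h2 := ih (by omega)
      have h3 : (b.choose (i + 2) : ℤ) * (i + 2) = (b.choose (i + 1) : ℤ) * ((b : ℤ) - (i + 1)) := by
        have h4 := Nat.choose_succ_right_eq b (i + 1)
        have h5 : ((b - (i + 1) : ℕ) : ℤ) = (b : ℤ) - (i + 1) := by omega
        rw [← h5]
        exact_mod_cast h4
      have h4 : ((i : ℤ) + 2) ≠ 0 := by omega
      apply mul_left_cancel₀ h4
      have e1 : ((i : ℤ) + 2) * (b * δ (i + 1)) = - (((b : ℤ) - (i + 1)) * (b * δ i)) := by
        linear_combination (b : ℤ) * h1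
      have e2 : i + 1 + 1 = i + 2 := rfl
      rw [e1, h2, e2, pow_succ]
      linear_combination ((-1 : ℤ) ^ i * δ 0) * h3
  have h0 : δ 0 = 0 := by
    have h1 : ∑ i ∈ range b, (b : ℤ) * δ i = 0 := by rw [← mul_sum, hsum, mul_zero]
    rw [sum_congr rfl (fun i hi => hval i (mem_range.mp hi)), ← sum_mul] at h1
    have h2 := Int.alternating_sum_range_choose (n := b)
    rw [if_neg (by omega), sum_range_succ'] at h2
    have h3 : ∑ i ∈ range b, (-1 : ℤ) ^ i * (b.choose (i + 1) : ℤ) = 1 := by
      have h4 : ∑ i ∈ range b, (-1 : ℤ) ^ (i + 1) * (b.choose (i + 1) : ℤ) =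
          - ∑ i ∈ range b, (-1 : ℤ) ^ i * (b.choose (i + 1) : ℤ) := by
        rw [← sum_neg_distrib]
        apply sum_congr rfl
        intro i _
        rw [pow_succ]
        ring
      rw [h4] at h2
      simp at h2
      linarith
    rw [h3, one_mul] at h1
    exact h1
  have h1 := hval (b - 1) (by omega)
  rw [h0, mul_zero] at h1
  rcases mul_eq_zero.mp h1 with h2 | h2
  · omega
  · simp only [δ] at h2
    have e : b - 1 + 1 = b := by omega
    rw [e] at h2
    linarith

/-- **The module-deleted deck.** Some maximal proper module of `H` has the same size, and its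
deletion gives an isomorphic graph. -/
theorem DCtx.exists_del (d : DCtx G H π x0) :
    ∃ y0, (blk H univ y0).card = (blk G univ x0).card ∧ FF G x0 H (univ \ blk H univ y0) := by
  have h1 := d.same_last
  have h2 : 0 < uK G x0 G (blk G univ x0).card := by
    apply sum_pos' (fun _ _ => ind_nonneg _)
    refine ⟨univ \ blk G univ x0, mem_univ _, ?_⟩
    rw [ind_true]
    · exact one_pos
    · exact ⟨SI.refl _ _, x0, sdiff_disjoint, rfl⟩
  rw [h1] at h2
  have hex : ∃ A : Finset V, FF G x0 H A ∧ ∃ x, Disjoint A (blk H univ x) ∧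
      (blk H univ x).card = (blk G univ x0).card := by
    by_contra hcon
    push Not at hcon
    have : uK G x0 H (blk G univ x0).card = 0 := by
      apply sum_eq_zero
      intro A _
      apply ind_false
      rintro ⟨h3, x, h4, h5⟩
      exact hcon A h3 x h4 h5
    omega
  obtain ⟨A, hA, x, hx, hc⟩ := hex
  refine ⟨x, hc, ?_⟩
  have h3 : A = univ \ blk H univ x := by
    apply eq_of_subset_of_card_le
    · intro t ht
      rw [mem_sdiff]
      exact ⟨mem_univ _, fun h => Finset.disjoint_left.mp hx ht h⟩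
    · have h4 := FF_card hA
      rw [← compl_eq_univ_sdiff, card_compl]
      omega
  rw [← h3]
  exact hA

end Pool.Agent.L7h41.MD
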