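import Pool.Agent.L7h41.MD.Del

set_option autoImplicit false
set_option linter.unusedSectionVars false

/-!
# Extending isomorphisms of quotient graphs without a vertex
-/

namespace Pool.Agent.L7h41.MD

open Finset Classical
open Pool.Agent.H234RC (Hypo NonIso Reconstructible)
open Pool.Agent.TH403.FLP (hypo_symm pi_ne pi_symm_ne)

section matching

variable {V : Type} [Fintype V] {G H K : SimpleGraph V} {π : V → Equiv.Perm V} {v x y x0 : V}
  {A B S : Finset V}

theorem adjB_comm (K : SimpleGraph V) (A B : Finset V) : adjB K A B ↔ adjB K B A := by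
  constructor
  · rintro ⟨a, ha, b, hb, h⟩
    exact ⟨b, hb, a, ha, h.symm⟩
  · rintro ⟨a, ha, b, hb, h⟩
    exact ⟨b, hb, a, ha, h.symm⟩

theorem notMem_blk (hK : Good K univ) (h : x ∉ blk K univ y) : blk K univ x ≠ blk K univ y := by
  intro h'
  apply h
  rw [← h']
  exact self_mem_blk hK (mem_univ x)

/-- the modules of the graph without the deleted module are known -/
theorem DCtx.blk_del (d : DCtx G H π x0) {y0 : V}
    (hF : FF G x0 H (univ \ blk H univ y0)) (hy : y ∈ univ \ blk H univ y0) :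
    blk H (univ \ blk H univ y0) y = blk H univ y := by
  have hH := d.c.gH
  have hgA := FF_good d.g0 hF
  have hsz : ∀ z, (blk H univ z).card < (univ \ blk H univ y0).card := fun z => by
    have := FF_card hF
    have := d.kH.sz z
    omega
  set A := univ \ blk H univ y0 with hA
  have hmemA : ∀ z, z ∈ A ↔ z ∉ blk H univ y0 := by
    intro z
    rw [hA, mem_sdiff]
    exact ⟨fun h => h.2, fun h => ⟨mem_univ _, h⟩⟩
  obtain ⟨f, hf⟩ := exists_factor hH hgA hsz
  have h1 : A.image (blk H A) = (A.image (blk H univ)).image f := by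
    rw [image_image]
    exact image_congr (fun x hx => hf x (mem_coe.mp hx))
  have h2 : A.image (blk H univ) = (univ.image (blk H univ)).erase (blk H univ y0) := by
    ext B
    rw [mem_image, mem_erase, mem_image]
    constructor
    · rintro ⟨x, hx, rfl⟩
      exact ⟨notMem_blk hH ((hmemA x).mp hx), x, mem_univ _, rfl⟩
    · rintro ⟨h, x, _, rfl⟩
      exact ⟨x, (hmemA x).mpr (fun h' => h (blk_eq hH (mem_univ y0) h')), rfl⟩
  have h3 : (A.image (blk H A)).card = (A.image (blk H univ)).card := by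
    have e1 := FF_nb hF
    have e2 := d.nb
    have e3 := d.kH.nbe
    rw [h2, card_erase_of_mem (mem_image_of_mem _ (mem_univ y0))]
    unfold MD.nb at e1 e2 e3
    omega
  rw [h1] at h3
  have hinj := card_image_iff.mp h3
  have key : ∀ a ∈ A, ∀ b ∈ A, blk H A a = blk H A b → blk H univ a = blk H univ b := by
    intro a ha b hb hab
    rw [hf a ha, hf b hb] at hab
    exact hinj (mem_coe.mpr (mem_image_of_mem _ ha)) (mem_coe.mpr (mem_image_of_mem _ hb)) hab
  ext z
  constructor
  · intro hz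
    have hzA := blk_subset hz
    have := key z hzA y hy (blk_eq hgA hy hz)
    rw [← this]
    exact self_mem_blk hH (mem_univ z)
  · intro hz
    have hzy := blk_eq hH (mem_univ y) hz
    have hzA : z ∈ A := by
      rw [hmemA]
      intro h
      apply (hmemA y).mp hy
      rw [← blk_eq hH (mem_univ y0) h, hzy]
      exact self_mem_blk hH (mem_univ y)
    rw [← blk_factor hH hgA hsz hy hzA hzy]
    exact self_mem_blk hgA hzA

theorem DCtx.exists_match (d : DCtx G H π x0) :
    ∃ (y0 : V) (μ : Om G ≃ Om H), μ (bk G x0) = bk H y0 ∧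
      (∀ B, ty G B.1 = ty H (μ B).1) ∧
      ∀ B B', B ≠ bk G x0 → B' ≠ bk G x0 → B ≠ B' →
        (adjB G B.1 B'.1 ↔ adjB H (μ B).1 (μ B').1) := by
  have hG := d.c.gG
  have hH := d.c.gH
  obtain ⟨y0, hc, hF⟩ := d.exists_del
  obtain ⟨σ, hσ1, hσ2⟩ := hF.symm
  have hS : ∀ x, x ∈ univ \ blk G univ x0 ↔ x ∉ blk G univ x0 := fun x => by
    rw [mem_sdiff]; exact ⟨fun h => h.2, fun h => ⟨mem_univ _, h⟩⟩
  have hA : ∀ x, x ∈ univ \ blk H univ y0 ↔ x ∉ blk H univ y0 := fun x => by
    rw [mem_sdiff]; exact ⟨fun h => h.2, fun h => ⟨mem_univ _, h⟩⟩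
  have hmem : ∀ x, x ∉ blk G univ x0 → σ x ∉ blk H univ y0 := by
    intro x hx
    rw [← hA, ← hσ1]
    exact apply_mem_mp.mpr ((hS x).mpr hx)
  have hblk : ∀ x, x ∉ blk G univ x0 → mp σ (blk G univ x) = blk H univ (σ x) := by
    intro x hx
    rw [← d.blk_del hF ((hA _).mpr (hmem x hx)), ← hσ1, hσ2.blk, d.b0 x ((hS x).mpr hx)]
  have hne0 : ∀ x, bk G x ≠ bk G x0 ↔ x ∉ blk G univ x0 := by
    intro x
    constructor
    · intro h h'
      exact h (Subtype.ext (blk_eq hG (mem_univ x0) h'))
    · intro h h'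
      apply h
      have : blk G univ x = blk G univ x0 := congrArg Subtype.val h'
      rw [← this]
      exact self_mem_blk hG (mem_univ x)
  have hrep : ∀ B : Om G, ∃ x, bk G x = B := by
    rintro ⟨B, hB⟩
    obtain ⟨x, _, rfl⟩ := mem_image.mp hB
    exact ⟨x, rfl⟩
  choose r hr using hrep
  let μ0 : Om G → Om H := fun B => if B = bk G x0 then bk H y0 else bk H (σ (r B))
  have m0 : μ0 (bk G x0) = bk H y0 := by simp [μ0]
  have m1 : ∀ x, x ∉ blk G univ x0 → μ0 (bk G x) = bk H (σ x) := by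
    intro x hx
    have h1 : bk G x ≠ bk G x0 := (hne0 x).mpr hx
    have h2 : μ0 (bk G x) = bk H (σ (r (bk G x))) := by simp [μ0, h1]
    rw [h2]
    have h3 : blk G univ (r (bk G x)) = blk G univ x := congrArg Subtype.val (hr (bk G x))
    have h4 : r (bk G x) ∉ blk G univ x0 := by
      rw [← hne0, hr]
      exact h1
    apply Subtype.ext
    show blk H univ (σ (r (bk G x))) = blk H univ (σ x)
    rw [← hblk _ h4, ← hblk x hx, h3]
  have hcase : ∀ B : Om G, B = bk G x0 ∨ ∃ x, x ∉ blk G univ x0 ∧ B = bk G x := by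
    intro B
    by_cases h : B = bk G x0
    · exact Or.inl h
    · right
      refine ⟨r B, ?_, (hr B).symm⟩
      rw [← hne0, hr]
      exact h
  have hinj : Function.Injective μ0 := by
    intro B B' h
    rcases hcase B with rfl | ⟨x, hx, rfl⟩ <;> rcases hcase B' with rfl | ⟨y, hy, rfl⟩
    · rfl
    · rw [m0, m1 y hy] at h
      exfalso
      apply hmem y hy
      have : blk H univ y0 = blk H univ (σ y) := congrArg Subtype.val h
      rw [this]
      exact self_mem_blk hH (mem_univ _)
    · rw [m0, m1 x hx] at h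
      exfalso
      apply hmem x hx
      have : blk H univ (σ x) = blk H univ y0 := congrArg Subtype.val h
      rw [← this]
      exact self_mem_blk hH (mem_univ _)
    · rw [m1 x hx, m1 y hy] at h
      have h1 : blk H univ (σ x) = blk H univ (σ y) := congrArg Subtype.val h
      rw [← hblk x hx, ← hblk y hy, mp_inj] at h1
      exact Subtype.ext h1
  obtain ⟨u, hu⟩ := d.c.ex
  have hbij : Function.Bijective μ0 :=
    (Fintype.bijective_iff_injective_and_card μ0).mpr ⟨hinj, Fintype.card_congr (rho d.c hu)⟩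
  have hty1 : ∀ x, x ∉ blk G univ x0 → SI G (blk G univ x) H (blk H univ (σ x)) := by
    intro x hx
    refine ⟨σ, hblk x hx, hσ2.mono (fun z hz => (hS z).mpr (fun h => hx ?_))⟩
    rw [← blk_eq hG (mem_univ x0) h, blk_eq hG (mem_univ x) hz]
    exact self_mem_blk hG (mem_univ x)
  have hty0 : SI G (blk G univ x0) H (blk H univ y0) := by
    have h1 := d.c.cnt G (blk G univ x0)
    unfold MD.cnt at h1
    have e1 : ∑ x, ind (SI G (blk G univ x) G (blk G univ x0)) =
        (blk G univ x0).card + ∑ x ∈ univ \ blk G univ x0,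
          ind (SI G (blk G univ x) G (blk G univ x0)) := by
      rw [← compl_eq_univ_sdiff, ← sum_add_sum_compl (blk G univ x0)]
      congr 1
      rw [sum_congr rfl (fun x hx => by
        rw [blk_eq hG (mem_univ x0) hx, ind_true (SI.refl _ _)]), sum_const, nsmul_eq_mul, mul_one]
    have e2 : ∑ x, ind (SI H (blk H univ x) G (blk G univ x0)) =
        (blk G univ x0).card * ind (SI H (blk H univ y0) G (blk G univ x0)) +
        ∑ x ∈ univ \ blk H univ y0, ind (SI H (blk H univ x) G (blk G univ x0)) := by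
      rw [← compl_eq_univ_sdiff, ← sum_add_sum_compl (blk H univ y0)]
      congr 1
      rw [sum_congr rfl (fun x hx => by
        rw [blk_eq hH (mem_univ y0) hx]), sum_const, nsmul_eq_mul, hc]
    have e3 : ∑ x ∈ univ \ blk H univ y0, ind (SI H (blk H univ x) G (blk G univ x0)) =
        ∑ x ∈ univ \ blk G univ x0, ind (SI G (blk G univ x) G (blk G univ x0)) := by
      symm
      apply Finset.sum_equiv σ
      · intro x
        rw [← hσ1, apply_mem_mp]
      · intro x hx
        apply ind_congr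
        have h3 := hty1 x ((hS x).mp hx)
        exact ⟨fun h => h3.symm.trans h, fun h => h3.trans h⟩
    rw [e1, e2, e3] at h1
    have hb : (1 : ℤ) ≤ (blk G univ x0).card := by
      exact_mod_cast card_blk_pos hG x0
    by_contra hcon
    rw [ind_false (fun h => hcon (SI.symm h)), mul_zero, zero_add] at h1
    omega
  refine ⟨y0, Equiv.ofBijective μ0 hbij, m0, ?_, ?_⟩
  · intro B
    rw [Equiv.ofBijective_apply]
    rcases hcase B with rfl | ⟨x, hx, rfl⟩
    · rw [m0]
      exact ty_eq.mpr hty0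
    · rw [m1 x hx]
      exact ty_eq.mpr (hty1 x hx)
  · intro B B' hB hB' hBB'
    rw [Equiv.ofBijective_apply, Equiv.ofBijective_apply]
    rcases hcase B with rfl | ⟨x, hx, rfl⟩
    · exact absurd rfl hB
    · rcases hcase B' with rfl | ⟨y, hy, rfl⟩
      · exact absurd rfl hB'
      · rw [m1 x hx, m1 y hy]
        have h1 : blk G univ x ≠ blk G univ y := fun h => hBB' (Subtype.ext h)
        have h2 : blk H univ (σ x) ≠ blk H univ (σ y) := by
          rw [← hblk x hx, ← hblk y hy]
          intro h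
          exact h1 (mp_inj.mp h)
        show adjB G (blk G univ x) (blk G univ y) ↔ adjB H (blk H univ (σ x)) (blk H univ (σ y))
        rw [adjB_iff hG h1, adjB_iff hH h2]
        exact (hσ2 x ((hS x).mpr hx) y ((hS y).mpr hy)).symm

/-- the quotient graph -/
def qg (G : SimpleGraph V) : SimpleGraph (Om G) where
  Adj B B' := B ≠ B' ∧ adjB G B.1 B'.1
  symm := ⟨fun B B' h => ⟨h.1.symm, (adjB_comm G _ _).mp h.2⟩⟩
  loopless := ⟨fun _ h => h.1 rfl⟩

theorem DCtx.final (d : DCtx G H π x0)
    (hE : ∀ ψ : Equiv.Perm (Om G), (∀ B B', B ≠ bk G x0 → B' ≠ bk G x0 →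
      ((qg G).Adj (ψ B) (ψ B') ↔ (qg G).Adj B B')) →
      ∀ B, B ≠ bk G x0 → ((qg G).Adj (ψ B) (ψ (bk G x0)) ↔ (qg G).Adj B (bk G x0))) : False := by
  obtain ⟨y0, μ, m0, m1, m2⟩ := d.exists_match
  obtain ⟨u, hu⟩ := d.c.ex
  set ρ := rho d.c hu with hρ
  have hρa := rho_adj d.c hu
  rw [← hρ] at hρa
  have hq : ∀ B B' : Om H, B ≠ B' → ((qg G).Adj (ρ.symm B) (ρ.symm B') ↔ adjB H B.1 B'.1) := by
    intro B B' h
    have h1 : ρ.symm B ≠ ρ.symm B' := fun h' => h (ρ.symm.injective h')
    have h2 := hρa _ _ h1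
    rw [Equiv.apply_symm_apply, Equiv.apply_symm_apply] at h2
    rw [← h2]
    exact ⟨fun h3 => h3.2, fun h3 => ⟨h1, h3⟩⟩
  have hψ := hE (μ.trans ρ.symm) (by
    intro B B' hB hB'
    by_cases h : B = B'
    · rw [h]
      exact ⟨fun h => absurd rfl h.1, fun h => absurd rfl h.1⟩
    · rw [Equiv.trans_apply, Equiv.trans_apply, hq _ _ (fun h' => h (μ.injective h')),
        ← m2 B B' hB hB' h]
      exact ⟨fun h3 => ⟨h, h3⟩, fun h3 => h3.2⟩)
  have hall : ∀ B, B ≠ bk G x0 → (adjB G B.1 (bk G x0).1 ↔ adjB H (μ B).1 (μ (bk G x0)).1) := by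
    intro B hB
    have h1 := hψ B hB
    rw [Equiv.trans_apply, Equiv.trans_apply, hq _ _ (fun h' => hB (μ.injective h'))] at h1
    rw [h1]
    exact ⟨fun h => ⟨hB, h⟩, fun h => h.2⟩
  refine glue d.c.gG d.c.gH μ ?_ m1 d.non
  intro B B' h
  by_cases hB : B = bk G x0
  · rw [hB] at h ⊢
    rw [adjB_comm, hall B' (Ne.symm h), adjB_comm]
  · by_cases hB' : B' = bk G x0
    · rw [hB'] at h ⊢
      exact hall B hB
    · exact m2 B B' hB hB' h

theorem bk_ne_iff (hG : Good G univ) : bk G x ≠ bk G y ↔ x ∉ blk G univ y := by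
  constructor
  · intro h h'
    exact h (Subtype.ext (blk_eq hG (mem_univ y) h'))
  · intro h h'
    apply h
    have : blk G univ x = blk G univ y := congrArg Subtype.val h'
    rw [← this]
    exact self_mem_blk hG (mem_univ x)

theorem qg_adj (hG : Good G univ) (h : bk G x ≠ bk G y) :
    (qg G).Adj (bk G x) (bk G y) ↔ G.Adj x y := by
  have h1 : blk G univ x ≠ blk G univ y := fun h' => h (Subtype.ext h')
  rw [← adjB_iff hG h1]
  exact ⟨fun h2 => h2.2, fun h2 => ⟨h, h2⟩⟩

theorem exists_bk (B : Om G) : ∃ x, B = bk G x := by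
  obtain ⟨B, hB⟩ := B
  obtain ⟨x, _, rfl⟩ := mem_image.mp hB
  exact ⟨x, rfl⟩

theorem good_univ {W : Type} [Fintype W] {Q : SimpleGraph W} (h2 : 2 ≤ (univ : Finset W).card)
    (h : ∀ F : Finset W, (∃ C, C ∈ F) → (∃ C, C ∉ F) → ∀ c : Prop,
      ¬ ∀ x ∈ F, ∀ y, y ∉ F → (Q.Adj x y ↔ c)) : Good Q univ := by
  refine ⟨h2, fun F _ h1 h3 c hc => h F h1 ?_ c ?_⟩
  · obtain ⟨C, hC⟩ := h3
    exact ⟨C, (mem_sdiff.mp hC).2⟩
  · intro x hx y hy
    exact hc x hx y (mem_sdiff.mpr ⟨mem_univ _, hy⟩)

theorem four_univ {W : Type} [Fintype W] {Q : SimpleGraph W} (h : Good Q univ) :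
    4 ≤ Fintype.card W := by
  obtain ⟨B, _⟩ := card_pos.mp (lt_of_lt_of_le Nat.zero_lt_two h.1)
  have h1 := h.three (Mod.singleton (mem_univ B)) ⟨B, mem_singleton_self B⟩ (by
    intro h2
    have := h.1
    rw [← h2, card_singleton] at this
    omega)
  rw [card_univ_sdiff, card_singleton] at h1
  omega

theorem qg_good (hG : Good G univ) : Good (qg G) univ := by
  have hcard : 2 ≤ (univ : Finset (Om G)).card := by
    by_contra hcon
    have h1 : (univ : Finset (Om G)).card ≤ 1 := by omega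
    obtain ⟨x, _⟩ := card_pos.mp (lt_of_lt_of_le Nat.zero_lt_two hG.1)
    apply blk_ne hG (mem_univ x)
    ext y
    constructor
    · intro _; exact mem_univ _
    · intro _
      have := card_le_one.mp h1 (bk G y) (mem_univ _) (bk G x) (mem_univ _)
      by_contra hy
      exact (bk_ne_iff hG).mpr hy this
  refine good_univ hcard (fun F h1 h2 c hc => ?_)
  obtain ⟨B, hB⟩ := h1
  obtain ⟨C, hC⟩ := h2
  obtain ⟨x, rfl⟩ := exists_bk B
  obtain ⟨y, rfl⟩ := exists_bk C
  refine hG.2 (univ.filter (fun z => bk G z ∈ F)) (subset_univ _)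
    ⟨x, mem_filter.mpr ⟨mem_univ _, hB⟩⟩ ⟨y, ?_⟩ c ?_
  · rw [mem_sdiff, mem_filter]
    exact ⟨mem_univ _, fun h => hC h.2⟩
  · intro a ha b hb
    rw [mem_filter] at ha
    rw [mem_sdiff, mem_filter] at hb
    have hb' : bk G b ∉ F := fun h => hb.2 ⟨mem_univ _, h⟩
    have hne : bk G a ≠ bk G b := fun h => hb' (h ▸ ha.2)
    rw [← qg_adj hG hne]
    exact hc _ ha.2 _ hb'

theorem qg_four (hG : Good G univ) : 4 ≤ Fintype.card (Om G) := four_univ (qg_good hG)

/-- the quotient graph is prime -/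
theorem qg_prime (hG : Good G univ) (F : Finset (Om G)) (hF : Mod (qg G) univ F)
    (h2 : 2 ≤ F.card) : F = univ := by
  by_contra hne
  obtain ⟨C, D, hC, hD, hCD⟩ := one_lt_card_iff.mp (by omega : 1 < F.card)
  obtain ⟨x, rfl⟩ := exists_bk C
  obtain ⟨y, rfl⟩ := exists_bk D
  have hm : Mod G univ (univ.filter (fun z => bk G z ∈ F)) := by
    refine ⟨subset_univ _, fun z _ hz a ha b hb => ?_⟩
    rw [mem_filter] at hz ha hb
    have hz' : bk G z ∉ F := fun h => hz ⟨mem_univ _, h⟩
    have ha' : bk G z ≠ bk G a := fun h => hz' (h ▸ ha.2)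
    have hb' : bk G z ≠ bk G b := fun h => hz' (h ▸ hb.2)
    rw [← qg_adj hG ha', ← qg_adj hG hb']
    exact hF.2 _ (mem_univ _) hz' _ ha.2 _ hb.2
  have hne' : univ.filter (fun z => bk G z ∈ F) ≠ univ := by
    intro h
    apply hne
    ext B
    obtain ⟨z, rfl⟩ := exists_bk B
    constructor
    · intro _; exact mem_univ _
    · intro _
      have : z ∈ univ.filter (fun z => bk G z ∈ F) := by rw [h]; exact mem_univ _
      exact (mem_filter.mp this).2
  have h3 := subset_blk hm hne' (mem_filter.mpr ⟨mem_univ _, hD⟩)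
  have h4 := h3 (mem_filter.mpr ⟨mem_univ x, hC⟩)
  exact (bk_ne_iff hG).mp hCD h4

/-- if the quotient graph without the module of `x0` is prime, then the modules of the graph
without this module are the other modules -/
theorem del_prime (hG : Good G univ)
    (hp : ∀ F, Mod (qg G) (univ.erase (bk G x0)) F → 2 ≤ F.card → F = univ.erase (bk G x0)) :
    Good G (univ \ blk G univ x0) ∧
      ∀ x ∈ univ \ blk G univ x0, blk G (univ \ blk G univ x0) x = blk G univ x := by
  have h4 := qg_four hG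
  set S := univ \ blk G univ x0 with hS
  have hS' : ∀ x, x ∈ S ↔ x ∉ blk G univ x0 := fun x => by
    rw [hS, mem_sdiff]; exact ⟨fun h => h.2, fun h => ⟨mem_univ _, h⟩⟩
  have hne : ∀ x, x ∈ S ↔ bk G x ≠ bk G x0 := fun x => (hS' x).trans (bk_ne_iff hG).symm
  have hce : (univ.erase (bk G x0)).card + 1 = Fintype.card (Om G) := by
    rw [card_erase_of_mem (mem_univ _), card_univ]
    omega
  have key : ∀ N, Mod G S N → N ≠ S → ∀ x ∈ N, N ⊆ blk G univ x := by
    intro N hN hNS x hx
    by_contra hsub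
    rw [Finset.not_subset] at hsub
    obtain ⟨y, hy, hyx⟩ := hsub
    let F : Finset (Om G) := univ.filter (fun B => ∃ t ∈ N, B = bk G t)
    have hFm : ∀ t ∈ N, bk G t ∈ F := fun t ht => mem_filter.mpr ⟨mem_univ _, t, ht, rfl⟩
    have hF2 : 2 ≤ F.card := by
      have h1 : ({bk G x, bk G y} : Finset (Om G)) ⊆ F := by
        intro B hB
        rw [mem_insert, mem_singleton] at hB
        rcases hB with rfl | rfl
        · exact hFm x hx
        · exact hFm y hy
      have h2 := card_le_card h1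
      rwa [card_pair ((bk_ne_iff hG).mpr hyx).symm] at h2
    have hFM : Mod (qg G) (univ.erase (bk G x0)) F := by
      refine ⟨fun B hB => ?_, fun C hC hCF B hB B' hB' => ?_⟩
      · obtain ⟨t, ht, rfl⟩ := (mem_filter.mp hB).2
        exact mem_erase.mpr ⟨(hne t).mp (hN.1 ht), mem_univ _⟩
      · obtain ⟨z, rfl⟩ := exists_bk C
        obtain ⟨t, ht, rfl⟩ := (mem_filter.mp hB).2
        obtain ⟨t', ht', rfl⟩ := (mem_filter.mp hB').2
        have hzS : z ∈ S := (hne z).mpr (mem_erase.mp hC).1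
        have hzN : z ∉ N := fun h => hCF (hFm z h)
        have e1 : bk G z ≠ bk G t := fun h => hCF (h ▸ hFm t ht)
        have e2 : bk G z ≠ bk G t' := fun h => hCF (h ▸ hFm t' ht')
        rw [qg_adj hG e1, qg_adj hG e2]
        exact hN.2 z hzS hzN t ht t' ht'
    have hFall := hp F hFM hF2
    obtain ⟨z, hzS, hzN⟩ : ∃ z ∈ S, z ∉ N := by
      by_contra hcon
      push Not at hcon
      exact hNS (subset_antisymm hN.1 hcon)
    have hF' : Mod (qg G) (univ.erase (bk G x0)) ((univ.erase (bk G x0)).erase (bk G z)) := by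
      refine ⟨erase_subset _ _, fun C hC hCF B hB B' hB' => ?_⟩
      have hCz : C = bk G z := by
        by_contra h
        exact hCF (mem_erase.mpr ⟨h, hC⟩)
      rw [mem_erase, ← hFall] at hB hB'
      obtain ⟨t, ht, rfl⟩ := (mem_filter.mp hB.2).2
      obtain ⟨t', ht', rfl⟩ := (mem_filter.mp hB'.2).2
      rw [hCz, qg_adj hG hB.1.symm, qg_adj hG hB'.1.symm]
      exact hN.2 z hzS hzN t ht t' ht'
    have hzm : bk G z ∈ (univ.erase (bk G x0) : Finset (Om G)) :=
      mem_erase.mpr ⟨(hne z).mp hzS, mem_univ _⟩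
    have h5 := hp _ hF' (by rw [card_erase_of_mem hzm]; omega)
    have h6 := hzm
    rw [← h5] at h6
    exact (mem_erase.mp h6).1 rfl
  have hthree : ∀ a b, ¬ S ⊆ blk G univ a ∪ blk G univ b := by
    intro a b hsub
    have h1 : (univ.erase (bk G x0) : Finset (Om G)) ⊆ {bk G a, bk G b} := by
      intro B hB
      obtain ⟨t, rfl⟩ := exists_bk B
      have ht := hsub ((hne t).mpr (mem_erase.mp hB).1)
      rw [mem_insert, mem_singleton]
      rcases mem_union.mp ht with h | h
      · exact Or.inl (Subtype.ext (blk_eq hG (mem_univ a) h))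
      · exact Or.inr (Subtype.ext (blk_eq hG (mem_univ b) h))
    have h2 := card_le_card h1
    have h3 := card_le_two (a := bk G a) (b := bk G b)
    omega
  have hgood : Good G S := by
    refine ⟨?_, fun A hA h1 h2 c hc => ?_⟩
    · have := blk_three hG (mem_univ x0)
      rw [← hS] at this
      omega
    · obtain ⟨a, ha⟩ := h1
      obtain ⟨b, hb⟩ := h2
      have m1 : Mod G S A := ⟨hA, fun z hz hzn s hs t ht => by
        rw [G.adj_comm z s, G.adj_comm z t, hc s hs z (mem_sdiff.mpr ⟨hz, hzn⟩),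
          hc t ht z (mem_sdiff.mpr ⟨hz, hzn⟩)]⟩
      have m2 : Mod G S (S \ A) := ⟨sdiff_subset, fun z hz hzn s hs t ht => by
        have hzA : z ∈ A := by
          by_contra h
          exact hzn (mem_sdiff.mpr ⟨hz, h⟩)
        rw [hc z hzA s hs, hc z hzA t ht]⟩
      have k1 := key A m1 (fun h => (mem_sdiff.mp hb).2 (h ▸ (mem_sdiff.mp hb).1)) a ha
      have k2 := key (S \ A) m2 (fun h => by
        have : a ∈ S \ A := by rw [h]; exact hA ha
        exact (mem_sdiff.mp this).2 ha) b hb
      apply hthree a b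
      intro t ht
      by_cases htA : t ∈ A
      · exact mem_union_left _ (k1 htA)
      · exact mem_union_right _ (k2 (mem_sdiff.mpr ⟨ht, htA⟩))
  refine ⟨hgood, fun x hx => ?_⟩
  apply subset_antisymm
  · exact key _ (blk_mod hgood hx) (blk_ne hgood hx) x (self_mem_blk hgood hx)
  · have h1 : S ∩ blk G univ x = blk G univ x := by
      rw [inter_eq_right]
      intro t ht
      rw [hS']
      intro h
      apply (hS' x).mp hx
      rw [← blk_eq hG (mem_univ x0) h, blk_eq hG (mem_univ x) ht]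
      exact self_mem_blk hG (mem_univ x)
    have h2 := restrict_mod (blk_mod hG (mem_univ x)) S
    rw [h1] at h2
    apply subset_blk h2 _ (self_mem_blk hG (mem_univ x))
    intro h3
    apply hthree x x
    rw [← h3]
    exact subset_union_left

end matching

section graphs

variable {W : Type} [Fintype W] {Q : SimpleGraph W}

/-- the degree -/
noncomputable def dg (Q : SimpleGraph W) (a : W) : ℤ := ∑ b, ind (Q.Adj a b)

theorem ext_of_deg (m : W)
    (h : ∀ a b, Q.Adj a m → ¬ Q.Adj b m → b ≠ m → dg Q a ≠ dg Q b + 1) (ψ : Equiv.Perm W)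
    (hψ : ∀ a b, a ≠ m → b ≠ m → (Q.Adj (ψ a) (ψ b) ↔ Q.Adj a b)) (a0 : W) (ha0 : a0 ≠ m) :
    Q.Adj (ψ a0) (ψ m) ↔ Q.Adj a0 m := by
  let α : W → ℤ := fun a => ∑ b ∈ univ.erase m, ind (Q.Adj a b)
  have e1 : ∀ a, dg Q a = α a + ind (Q.Adj a m) := by
    intro a
    simp only [α, dg]
    rw [sum_erase_add _ _ (mem_univ m)]
  have e2 : ∀ a, a ≠ m → dg Q (ψ a) = α a + ind (Q.Adj (ψ a) (ψ m)) := by
    intro a ha
    simp only [α, dg]
    have h1 : ∑ b, ind (Q.Adj (ψ a) b) = ∑ b, ind (Q.Adj (ψ a) (ψ b)) :=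
      (Equiv.sum_comp ψ (fun b => ind (Q.Adj (ψ a) b))).symm
    rw [h1, ← sum_erase_add _ _ (mem_univ m)]
    congr 1
    apply sum_congr rfl
    intro b hb
    exact ind_congr (hψ a b ha (mem_erase.mp hb).1)
  have hT : ∑ a, dg Q (ψ a) = ∑ a, dg Q a := Equiv.sum_comp ψ (dg Q)
  have hm : dg Q (ψ m) = dg Q m := by
    have h1 : ∑ a ∈ univ.erase m, dg Q a = ∑ a ∈ univ.erase m, α a + dg Q m := by
      rw [sum_congr rfl (fun a _ => e1 a), sum_add_distrib]
      congr 1
      have h2 : dg Q m = ∑ a ∈ univ.erase m, ind (Q.Adj m a) + ind (Q.Adj m m) := by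
        unfold dg
        rw [sum_erase_add _ _ (mem_univ m)]
      rw [h2, ind_false (Q.irrefl), add_zero]
      exact sum_congr rfl (fun a _ => ind_congr (Q.adj_comm a m))
    have h3 : ∑ a ∈ univ.erase m, dg Q (ψ a) = ∑ a ∈ univ.erase m, α a + dg Q (ψ m) := by
      rw [sum_congr rfl (fun a ha => e2 a (mem_erase.mp ha).1), sum_add_distrib]
      congr 1
      have h2 : dg Q (ψ m) = ∑ a ∈ univ.erase m, ind (Q.Adj (ψ m) (ψ a)) +
          ind (Q.Adj (ψ m) (ψ m)) := by
        unfold dg
        rw [sum_erase_add _ _ (mem_univ m)]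
        exact (Equiv.sum_comp ψ (fun b => ind (Q.Adj (ψ m) b))).symm
      rw [h2, ind_false (Q.irrefl), add_zero]
      exact sum_congr rfl (fun a _ => ind_congr (Q.adj_comm _ _))
    have h4 := sum_erase_add univ (dg Q) (mem_univ m)
    have h5 := sum_erase_add univ (fun a => dg Q (ψ a)) (mem_univ m)
    rw [hT] at h5
    linarith
  have hN : ∀ j : ℤ, ∑ a ∈ univ.erase m, ind (dg Q a = j) =
      ∑ a ∈ univ.erase m, ind (dg Q (ψ a) = j) := by
    intro j
    have h1 := sum_erase_add univ (fun a => ind (dg Q a = j)) (mem_univ m)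
    have h2 := sum_erase_add univ (fun a => ind (dg Q (ψ a) = j)) (mem_univ m)
    have h3 : ∑ a, ind (dg Q (ψ a) = j) = ∑ a, ind (dg Q a = j) :=
      Equiv.sum_comp ψ (fun a => ind (dg Q a = j))
    rw [h3, hm] at h2
    linarith
  have hα : ∀ a, 0 ≤ α a := fun a => sum_nonneg (fun _ _ => ind_nonneg _)
  have hx : ∀ j : ℕ, ∑ a ∈ univ.erase m, ind (Q.Adj a m ∧ α a = j) =
      ∑ a ∈ univ.erase m, ind (Q.Adj (ψ a) (ψ m) ∧ α a = j) := by
    have hsplit : ∀ (P : W → Prop) (D : W → ℤ) (_ : ∀ a ∈ univ.erase m, D a = α a + ind (P a))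
        (j : ℤ), ∑ a ∈ univ.erase m, ind (D a = j) =
        ∑ a ∈ univ.erase m, ind (P a ∧ α a = j - 1) + ∑ a ∈ univ.erase m, ind (α a = j) -
          ∑ a ∈ univ.erase m, ind (P a ∧ α a = j) := by
      intro P D hD j
      rw [← sum_add_distrib, ← sum_sub_distrib]
      apply sum_congr rfl
      intro a ha
      have h1 := hD a ha
      by_cases hP : P a
      · rw [ind_true hP] at h1
        rw [ind_congr (⟨fun h => h.2, fun h => ⟨hP, h⟩⟩ : (P a ∧ α a = j - 1) ↔ α a = j - 1),
          ind_congr (⟨fun h => h.2, fun h => ⟨hP, h⟩⟩ : (P a ∧ α a = j) ↔ α a = j),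
          ind_congr (⟨fun h => by linarith, fun h => by linarith⟩ : D a = j ↔ α a = j - 1)]
        ring
      · rw [ind_false hP, add_zero] at h1
        rw [ind_false (show ¬ (P a ∧ α a = j - 1) from fun h => hP h.1),
          ind_false (show ¬ (P a ∧ α a = j) from fun h => hP h.1), h1]
        ring
    intro j
    induction j with
    | zero =>
      have h1 := hN 0
      rw [hsplit (fun a => Q.Adj a m) (dg Q) (fun a _ => e1 a),
        hsplit (fun a => Q.Adj (ψ a) (ψ m)) (fun a => dg Q (ψ a))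
          (fun a ha => e2 a (mem_erase.mp ha).1)] at h1
      have z1 : ∀ P : W → Prop, ∑ a ∈ univ.erase m, ind (P a ∧ α a = 0 - 1) = 0 := by
        intro P
        apply sum_eq_zero
        intro a _
        apply ind_false
        rintro ⟨_, h2⟩
        have := hα a
        omega
      rw [z1, z1] at h1
      push_cast
      linarith
    | succ j ih =>
      have h1 := hN (j + 1)
      rw [hsplit (fun a => Q.Adj a m) (dg Q) (fun a _ => e1 a),
        hsplit (fun a => Q.Adj (ψ a) (ψ m)) (fun a => dg Q (ψ a))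
          (fun a ha => e2 a (mem_erase.mp ha).1)] at h1
      have e3 : (j : ℤ) + 1 - 1 = j := by ring
      rw [e3, ih] at h1
      push_cast
      linarith
  obtain ⟨j, hj⟩ := Int.eq_ofNat_of_zero_le (hα a0)
  have hxj := hx j
  have hmem0 : a0 ∈ univ.erase m := mem_erase.mpr ⟨ha0, mem_univ _⟩
  by_cases hX : Q.Adj a0 m
  · refine ⟨fun _ => hX, fun _ => ?_⟩
    by_contra hX'
    have h1 : ∀ b ∈ univ.erase m, ind (Q.Adj b m ∧ α b = j) = ind (α b = j) := by
      intro b hb
      apply ind_congr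
      refine ⟨fun h => h.2, fun h2 => ⟨?_, h2⟩⟩
      by_contra hb'
      apply h a0 b hX hb' (mem_erase.mp hb).1
      rw [e1 a0, e1 b, ind_true hX, ind_false hb', hj, h2, add_zero]
    rw [sum_congr rfl h1] at hxj
    have h2 : ∑ a ∈ univ.erase m, (ind (α a = j) - ind (Q.Adj (ψ a) (ψ m) ∧ α a = j)) = 0 := by
      rw [sum_sub_distrib]
      linarith
    have h3 := (sum_eq_zero_iff_of_nonneg (fun a _ => by
      have : ind (Q.Adj (ψ a) (ψ m) ∧ α a = j) ≤ ind (α a = j) := by
        by_cases h4 : Q.Adj (ψ a) (ψ m) ∧ α a = j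
        · rw [ind_true h4, ind_true h4.2]
        · rw [ind_false h4]
          exact ind_nonneg _
      linarith)).mp h2 a0 hmem0
    rw [ind_true hj, ind_false (fun h4 => hX' h4.1)] at h3
    omega
  · refine ⟨fun hX' => ?_, fun h' => absurd h' hX⟩
    exfalso
    have h1 : ∀ b ∈ univ.erase m, ind (Q.Adj b m ∧ α b = j) = 0 := by
      intro b hb
      apply ind_false
      rintro ⟨h2, h3⟩
      apply h b a0 h2 hX ha0
      rw [e1 a0, e1 b, ind_true h2, ind_false hX, hj, h3, add_zero]
    rw [sum_congr rfl h1, sum_const_zero] at hxj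
    have h3 := (sum_eq_zero_iff_of_nonneg (fun a _ => ind_nonneg _)).mp hxj.symm a0 hmem0
    rw [ind_true ⟨hX', hj⟩] at h3
    omega

/-- the vertices joined to `x` in the other way than by `κ` -/
noncomputable def RR (Q : SimpleGraph W) (κ : Prop) (x : W) : Finset W :=
  univ.filter (fun z => z ≠ x ∧ ¬ (Q.Adj x z ↔ κ))

theorem mem_RR {κ : Prop} {x z : W} : z ∈ RR Q κ x ↔ z ≠ x ∧ ¬ (Q.Adj x z ↔ κ) := by
  unfold RR
  rw [mem_filter]
  exact ⟨fun h => h.2, fun h => ⟨mem_univ _, h⟩⟩

theorem dg_card (x : W) : dg Q x = ((univ.filter (fun z => Q.Adj x z)).card : ℤ) := by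
  unfold dg ind
  rw [sum_boole]

theorem dg_RR_true {κ : Prop} (h : κ) (x : W) :
    dg Q x + (RR Q κ x).card + 1 = Fintype.card W := by
  rw [dg_card]
  have h1 : univ.filter (fun z => Q.Adj x z) ∪ RR Q κ x = univ.erase x := by
    ext z
    rw [mem_union, mem_filter, mem_RR, mem_erase]
    constructor
    · rintro (h2 | h2)
      · exact ⟨fun h3 => Q.irrefl (h3 ▸ h2.2), mem_univ _⟩
      · exact ⟨h2.1, mem_univ _⟩
    · rintro ⟨h2, _⟩
      by_cases h3 : Q.Adj x z
      · exact Or.inl ⟨mem_univ _, h3⟩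
      · exact Or.inr ⟨h2, fun h4 => h3 (h4.mpr h)⟩
  have h2 : Disjoint (univ.filter (fun z => Q.Adj x z)) (RR Q κ x) := by
    rw [Finset.disjoint_left]
    intro z h3 h4
    exact (mem_RR.mp h4).2 ⟨fun _ => h, fun _ => (mem_filter.mp h3).2⟩
  have h3 := card_union_of_disjoint h2
  rw [h1, card_erase_of_mem (mem_univ _), card_univ] at h3
  have h4 : 0 < Fintype.card W := Fintype.card_pos_iff.mpr ⟨x⟩
  omega

theorem dg_RR_false {κ : Prop} (h : ¬ κ) (x : W) : dg Q x = (RR Q κ x).card := by
  rw [dg_card]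
  congr 2
  ext z
  rw [mem_filter, mem_RR]
  constructor
  · rintro ⟨_, h2⟩
    exact ⟨fun h3 => Q.irrefl (h3 ▸ h2), fun h3 => h (h3.mp h2)⟩
  · rintro ⟨_, h2⟩
    refine ⟨mem_univ _, ?_⟩
    by_contra h3
    exact h2 ⟨fun h4 => absurd h4 h3, fun h4 => absurd h4 h⟩

theorem dg_diff (hd : ∀ a b, dg Q a ≠ dg Q b + 1) {κ : Prop} {x y : W}
    (hx : (RR Q κ x).card = 1) (hy : (RR Q κ y).card = 2) : False := by
  by_cases h : κ
  · have h1 := dg_RR_true (Q := Q) h x
    have h2 := dg_RR_true (Q := Q) h y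
    apply hd x y
    omega
  · have h1 := dg_RR_false (Q := Q) h x
    have h2 := dg_RR_false (Q := Q) h y
    apply hd y x
    omega

/-- the two vertices of a module of a vertex-deleted subgraph have degrees which differ by one -/
theorem no_pair (h4 : 4 ≤ Fintype.card W)
    (hp : ∀ N, Mod Q univ N → 2 ≤ N.card → N = univ) (hd : ∀ a b, dg Q a ≠ dg Q b + 1)
    (v : W) (N : Finset W) (hN : Mod Q (univ.erase v) N) : N.card ≠ 2 := by
  have hpair : ∀ a b : W, a ≠ b → ¬ Mod Q univ {a, b} := by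
    intro a b hab hm
    have h5 := hp _ hm (by rw [card_pair hab])
    have h6 := congrArg Finset.card h5
    rw [card_pair hab, card_univ] at h6
    omega
  intro hc
  obtain ⟨a, b, hab, rfl⟩ := card_eq_two.mp hc
  have hav : a ≠ v := mem_W.mp (hN.1 (by simp))
  have hbv : b ≠ v := mem_W.mp (hN.1 (by simp))
  have hun : ∀ z, z ≠ v → z ≠ a → z ≠ b → (Q.Adj z a ↔ Q.Adj z b) := fun z hz hza hzb =>
    hN.2 z (mem_W.mpr hz) (by simp [hza, hzb]) a (by simp) b (by simp)
  have hvab : Q.Adj v a ↔ Q.Adj v b := by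
    have h6 : ∑ z, ind (Q.Adj a z) = ∑ z, ind (Q.Adj a (Equiv.swap a b z)) :=
      (Equiv.sum_comp (Equiv.swap a b) (fun z => ind (Q.Adj a z))).symm
    have h7 : dg Q a - dg Q b = ∑ z, (ind (Q.Adj a (Equiv.swap a b z)) - ind (Q.Adj b z)) := by
      rw [sum_sub_distrib, ← h6]
      rfl
    rw [sum_eq_single_of_mem v (mem_univ v)] at h7
    · rw [Equiv.swap_apply_of_ne_of_ne hav.symm hbv.symm] at h7
      rw [Q.adj_comm v a, Q.adj_comm v b]
      by_cases k1 : Q.Adj a v <;> by_cases k2 : Q.Adj b v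
      · exact ⟨fun _ => k2, fun _ => k1⟩
      · rw [ind_true k1, ind_false k2] at h7
        exact absurd (by linarith) (hd a b)
      · rw [ind_false k1, ind_true k2] at h7
        exact absurd (by linarith) (hd b a)
      · exact ⟨fun h => absurd h k1, fun h => absurd h k2⟩
    · intro z _ hzv
      rw [sub_eq_zero]
      apply ind_congr
      by_cases hza : z = a
      · rw [hza, Equiv.swap_apply_left, Q.adj_comm]
      · by_cases hzb : z = b
        · rw [hzb, Equiv.swap_apply_right]
          exact ⟨fun h => absurd h Q.irrefl, fun h => absurd h Q.irrefl⟩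
        · rw [Equiv.swap_apply_of_ne_of_ne hza hzb, Q.adj_comm a z, Q.adj_comm b z]
          exact hun z hzv hza hzb
  apply hpair a b hab
  refine ⟨subset_univ _, fun z _ hz s hs t ht => ?_⟩
  rw [mem_insert, mem_singleton, not_or] at hz
  have k : Q.Adj z a ↔ Q.Adj z b := by
    by_cases hzv : z = v
    · rw [hzv]; exact hvab
    · exact hun z hzv hz.1 hz.2
  rw [mem_insert, mem_singleton] at hs ht
  rcases hs with rfl | rfl <;> rcases ht with rfl | rfl
  · exact Iff.rfl
  · exact k
  · exact k.symm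
  · exact Iff.rfl

/-- a prime graph in which no two degrees differ by exactly one has a prime vertex-deleted
subgraph -/
theorem exists_prime (h4 : 4 ≤ Fintype.card W)
    (hp : ∀ N, Mod Q univ N → 2 ≤ N.card → N = univ) (hd : ∀ a b, dg Q a ≠ dg Q b + 1) :
    ∃ v, ∀ N, Mod Q (univ.erase v) N → 2 ≤ N.card → N = univ.erase v := by
  have h2 := no_pair h4 hp hd
  by_contra hcon
  push Not at hcon
  let P : Finset (W × Finset W) := univ.filter (fun q => Mod Q (univ.erase q.1) q.2 ∧
    2 ≤ q.2.card ∧ q.2 ≠ univ.erase q.1)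
  have hP : ∀ v N, (v, N) ∈ P ↔ Mod Q (univ.erase v) N ∧ 2 ≤ N.card ∧ N ≠ univ.erase v := by
    intro v N
    rw [mem_filter]
    exact ⟨fun h => h.2, fun h => ⟨mem_univ _, h⟩⟩
  have hWc : ∀ v : W, (univ.erase v).card + 1 = Fintype.card W := by
    intro v
    rw [card_erase_of_mem (mem_univ _), card_univ]
    omega
  have hsz : ∀ v N, (v, N) ∈ P → 3 ≤ N.card ∧ N.card + 2 ≤ Fintype.card W := by
    intro v N h
    obtain ⟨a, b, e⟩ := (hP v N).mp h
    have h5 := h2 v N a
    have h7 : N.card < (univ.erase v).card := card_lt_card (a.1.ssubset_of_ne e)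
    have h8 := hWc v
    omega
  obtain ⟨w0⟩ : Nonempty W := Fintype.card_pos_iff.mp (by omega)
  obtain ⟨N0, a0, b0, c0⟩ := hcon w0
  obtain ⟨⟨v, C⟩, hvC, hmin⟩ := exists_min_image P (fun q => q.2.card)
    ⟨(w0, N0), (hP _ _).mpr ⟨a0, b0, c0⟩⟩
  obtain ⟨hC, hC2, hCne⟩ := (hP v C).mp hvC
  obtain ⟨hC3, hC4⟩ := hsz v C hvC
  have hmin' : ∀ w N, (w, N) ∈ P → C.card ≤ N.card := fun w N h => hmin (w, N) h
  have hvC' : v ∉ C := fun h => mem_W.mp (hC.1 h) rfl
  obtain ⟨d0, hd0⟩ : ∃ d0, d0 ∉ insert v C := by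
    by_contra hc
    push Not at hc
    have h5 := card_le_card (fun z _ => hc z : (univ : Finset W) ⊆ insert v C)
    have h7 := card_insert_le v C
    rw [card_univ] at h5
    omega
  rw [mem_insert, not_or] at hd0
  obtain ⟨c0', hc0'⟩ : C.Nonempty := card_pos.mp (by omega)
  obtain ⟨κ, hκ0⟩ : ∃ κ : Prop, ∀ c ∈ C, (Q.Adj d0 c ↔ κ) :=
    ⟨Q.Adj d0 c0', fun c hc => hC.2 d0 (mem_W.mpr hd0.1) hd0.2 c hc c0' hc0'⟩
  have main : ∀ w ∈ C, (∃ N, Mod Q (univ.erase w) N ∧ 2 ≤ N.card ∧ v ∈ N ∧
      Disjoint (N.erase v) C) ∨ ∃ e ∈ C, e ≠ w ∧ ∀ z, z ≠ e → z ≠ w → (Q.Adj e z ↔ κ) := by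
    intro w hw
    obtain ⟨N1, a1, b1, c1⟩ := hcon w
    obtain ⟨⟨w', N⟩, hwN, hNmin⟩ := exists_min_image (P.filter (fun q => q.1 = w))
      (fun q => q.2.card) ⟨(w, N1), mem_filter.mpr ⟨(hP _ _).mpr ⟨a1, b1, c1⟩, rfl⟩⟩
    rw [mem_filter] at hwN
    obtain ⟨hwN, hww⟩ := hwN
    dsimp only at hww
    subst hww
    have hNmin' : ∀ N', (w', N') ∈ P → N.card ≤ N'.card := fun N' h =>
      hNmin (w', N') (mem_filter.mpr ⟨h, rfl⟩)
    obtain ⟨hN, hN2, hNne⟩ := (hP w' N).mp hwN
    obtain ⟨hN3, hN4⟩ := hsz w' N hwN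
    have hwN' : w' ∉ N := fun h => mem_W.mp (hN.1 h) rfl
    have hwv : w' ≠ v := mem_W.mp (hC.1 hw)
    by_cases hvN : v ∈ N
    · by_cases hdis : Disjoint (N.erase v) C
      · exact Or.inl ⟨N, hN, hN2, hvN, hdis⟩
      right
      rw [Finset.not_disjoint_iff] at hdis
      obtain ⟨t, htN, htC⟩ := hdis
      rw [mem_erase] at htN
      have hun : N ∪ C = univ := by
        apply hp
        · refine ⟨subset_univ _, fun z _ hz a ha b hb => ?_⟩
          rw [mem_union, not_or] at hz
          have hzw : z ≠ w' := fun h => hz.2 (h ▸ hw)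
          have hzv : z ≠ v := fun h => hz.1 (h ▸ hvN)
          have k : ∀ a ∈ N ∪ C, (Q.Adj z a ↔ Q.Adj z t) := by
            intro a ha
            rcases mem_union.mp ha with h | h
            · exact hN.2 z (mem_W.mpr hzw) hz.1 a h t htN.2
            · exact hC.2 z (mem_W.mpr hzv) hz.2 a h t htC
          exact (k a ha).trans (k b hb).symm
        · exact hN2.trans (card_le_card subset_union_left)
      obtain ⟨n0, hn0, hn0v, hn0C⟩ : ∃ n0 ∈ N, n0 ≠ v ∧ n0 ∉ C := by
        by_contra hc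
        push Not at hc
        have h5 : (univ : Finset W) ⊆ insert v C := by
          rw [← hun]
          intro z hz
          rcases mem_union.mp hz with h | h
          · by_cases hzv : z = v
            · rw [hzv]; exact mem_insert_self _ _
            · exact mem_insert_of_mem (hc z h hzv)
          · exact mem_insert_of_mem h
        have h6 := card_le_card h5
        have h7 := card_insert_le v C
        rw [card_univ] at h6
        omega
      let E := (C.erase w') \ N
      have hE : ∀ q, q ∈ E ↔ q ∈ C ∧ q ≠ w' ∧ q ∉ N := by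
        intro q
        show q ∈ (C.erase w') \ N ↔ _
        rw [mem_sdiff, mem_erase]
        tauto
      have hκ : ∀ q ∈ E, ∀ z ∈ N, (Q.Adj z q ↔ Q.Adj n0 t) := by
        intro q hq z hz
        rw [hE] at hq
        have h5 : Q.Adj q z ↔ Q.Adj q n0 := hN.2 q (mem_W.mpr hq.2.1) hq.2.2 z hz n0 hn0
        have h6 : Q.Adj n0 q ↔ Q.Adj n0 t := hC.2 n0 (mem_W.mpr hn0v) hn0C q hq.1 t htC
        rw [Q.adj_comm, h5, Q.adj_comm, h6]
      have hEm : Mod Q (univ.erase w') E := by
        refine ⟨fun q hq => mem_W.mpr ((hE q).mp hq).2.1, fun z hz hzE a ha b hb => ?_⟩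
        rw [mem_W] at hz
        have hzN : z ∈ N := by
          by_contra h
          apply hzE
          rw [hE]
          have : z ∈ N ∪ C := by rw [hun]; exact mem_univ _
          rcases mem_union.mp this with h' | h'
          · exact absurd h' h
          · exact ⟨h', hz, h⟩
        rw [hκ a ha z hzN, hκ b hb z hzN]
      have hcE : E.card + N.card + 1 = Fintype.card W := by
        have h5 : insert w' E = Nᶜ := by
          ext z
          rw [mem_insert, hE, mem_compl]
          constructor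
          · rintro (h | h)
            · rw [h]; exact hwN'
            · exact h.2.2
          · intro h
            by_cases hz : z = w'
            · exact Or.inl hz
            · right
              have : z ∈ N ∪ C := by rw [hun]; exact mem_univ _
              rcases mem_union.mp this with h' | h'
              · exact absurd h' h
              · exact ⟨h', hz, h⟩
        have h6 : (insert w' E).card = E.card + 1 :=
          card_insert_of_notMem (fun h => ((hE w').mp h).2.1 rfl)
        rw [h5, card_compl] at h6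
        have := card_le_univ N
        omega
      have hEC : E.card < C.card := by
        apply card_lt_card
        refine ⟨fun q hq => ((hE q).mp hq).1, fun h => ?_⟩
        exact ((hE w').mp (h hw)).2.1 rfl
      by_cases hE2 : 2 ≤ E.card
      · have h5 := hmin' w' E ((hP _ _).mpr ⟨hEm, hE2, fun h => by
          have := congrArg Finset.card h
          have := hWc w'
          omega⟩)
        omega
      · obtain ⟨e, he⟩ := card_eq_one.mp (by omega : E.card = 1)
        have heE : e ∈ E := by rw [he]; exact mem_singleton_self e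
        have heE' := (hE e).mp heE
        refine ⟨e, heE'.1, heE'.2.1, fun z hze hzw => ?_⟩
        have hzN : z ∈ N := by
          by_contra h
          have h5 : z ∈ N ∪ C := by rw [hun]; exact mem_univ _
          have h6 : z ∈ E := (hE z).mpr ⟨(mem_union.mp h5).resolve_left h, hzw, h⟩
          rw [he, mem_singleton] at h6
          exact hze h6
        have hdN : d0 ∈ N := by
          have h5 : d0 ∈ N ∪ C := by rw [hun]; exact mem_univ _
          exact (mem_union.mp h5).resolve_right hd0.2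
        rw [Q.adj_comm, hκ e heE z hzN, ← hκ e heE d0 hdN, hκ0 e heE'.1]
    · exfalso
      by_cases hdis : Disjoint N C
      · obtain ⟨e, heC, hew⟩ := exists_mem_ne (by omega : 1 < C.card) w'
        have hnC : ∀ n ∈ N, n ∉ C := fun n hn h => Finset.disjoint_left.mp hdis hn h
        have hm : Mod Q univ N := by
          refine ⟨subset_univ _, fun z _ hzn a ha b hb => ?_⟩
          by_cases hz : z = w'
          · have k : ∀ n ∈ N, (Q.Adj w' n ↔ Q.Adj e n) := by
              intro n hn
              have hnv : n ≠ v := fun h => hvN (h ▸ hn)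
              rw [Q.adj_comm, hC.2 n (mem_W.mpr hnv) (hnC n hn) w' hw e heC, Q.adj_comm]
            rw [hz, k a ha, k b hb]
            exact hN.2 e (mem_W.mpr hew) (fun h => hnC e h heC) a ha b hb
          · exact hN.2 z (mem_W.mpr hz) hzn a ha b hb
        have := hp N hm hN2
        exact hwN' (by rw [this]; exact mem_univ _)
      · rw [Finset.not_disjoint_iff] at hdis
        obtain ⟨t, htN, htC⟩ := hdis
        have htw : t ≠ w' := fun h => hwN' (h ▸ htN)
        have hI : Mod Q (univ.erase w') (N ∩ C) := by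
          refine ⟨fun q hq => hN.1 (mem_inter.mp hq).1, fun z hz hzI a ha b hb => ?_⟩
          rw [mem_inter] at ha hb
          by_cases hzN : z ∈ N
          · have hzC : z ∉ C := fun h => hzI (mem_inter.mpr ⟨hzN, h⟩)
            have hzv : z ≠ v := fun h => hvN (h ▸ hzN)
            exact hC.2 z (mem_W.mpr hzv) hzC a ha.2 b hb.2
          · exact hN.2 z hz hzN a ha.1 b hb.1
        have hIc : (N ∩ C).card < C.card := by
          apply card_lt_card
          refine ⟨inter_subset_right, fun h => ?_⟩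
          exact hwN' (mem_inter.mp (h hw)).1
        have hI1 : ∀ n ∈ N, n ∈ C → n = t := by
          intro n hn hnC
          by_contra hne
          have h5 : 2 ≤ (N ∩ C).card := by
            have h6 : ({n, t} : Finset W) ⊆ N ∩ C := by
              intro s hs
              rw [mem_insert, mem_singleton] at hs
              rcases hs with rfl | rfl
              · exact mem_inter.mpr ⟨hn, hnC⟩
              · exact mem_inter.mpr ⟨htN, htC⟩
            have h7 := card_le_card h6
            rwa [card_pair hne] at h7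
          have h6 := hmin' w' _ ((hP _ _).mpr ⟨hI, h5, fun h => by
            have := congrArg Finset.card h
            have := hWc w'
            omega⟩)
          omega
        obtain ⟨q, hq⟩ : ((C.erase w').erase t).Nonempty := by
          apply card_pos.mp
          rw [card_erase_of_mem (mem_erase.mpr ⟨htw, htC⟩), card_erase_of_mem hw]
          omega
        rw [mem_erase, mem_erase] at hq
        obtain ⟨hqt, hqw, hqC⟩ := hq
        have hqN : q ∉ N := fun h => hqt (hI1 q h hqC)
        have hNt : Mod Q (univ.erase w') (N.erase t) := by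
          refine ⟨fun s hs => hN.1 (mem_erase.mp hs).2, fun z hz hzn a ha b hb => ?_⟩
          rw [mem_erase] at ha hb
          by_cases hzN : z ∈ N
          · have hzt : z = t := by
              by_contra h
              exact hzn (mem_erase.mpr ⟨h, hzN⟩)
            have k : ∀ n ∈ N, n ≠ t → (Q.Adj t n ↔ Q.Adj q t) := by
              intro n hn hnt
              have hnC : n ∉ C := fun h => hnt (hI1 n hn h)
              have hnv : n ≠ v := fun h => hvN (h ▸ hn)
              rw [Q.adj_comm, hC.2 n (mem_W.mpr hnv) hnC t htC q hqC, Q.adj_comm]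
              exact hN.2 q (mem_W.mpr hqw) hqN n hn t htN
            rw [hzt, k a ha.2 ha.1, k b hb.2 hb.1]
          · exact hN.2 z hz hzN a ha.2 b hb.2
        have hNtc : (N.erase t).card + 1 = N.card := by
          rw [card_erase_of_mem htN]
          omega
        have h5 := hNmin' (N.erase t) ((hP _ _).mpr ⟨hNt, by omega, fun h => by
          have := congrArg Finset.card h
          have := hWc w'
          omega⟩)
        omega
  have hpair : ∀ a b : W, a ≠ b → ¬ Mod Q univ {a, b} := by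
    intro a b hab hm
    have h5 := hp _ hm (by rw [card_pair hab])
    have h6 := congrArg Finset.card h5
    rw [card_pair hab, card_univ] at h6
    omega
  have leaf : ∀ w e, e ≠ w → (∀ z, z ≠ e → z ≠ w → (Q.Adj e z ↔ κ)) → ¬ (Q.Adj e w ↔ κ) := by
    intro w e hew h h5
    have h6 : Mod Q univ (univ.erase e) := by
      refine ⟨subset_univ _, fun z _ hz a ha b hb => ?_⟩
      have hze : z = e := by
        by_contra h
        exact hz (mem_W.mpr h)
      rw [mem_W] at ha hb
      have k : ∀ a, a ≠ e → (Q.Adj e a ↔ κ) := by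
        intro a ha
        by_cases haw : a = w
        · rw [haw]; exact h5
        · exact h a ha haw
      rw [hze, k a ha, k b hb]
    have h7 := hp _ h6 (by have := hWc e; omega)
    have h8 : e ∈ univ.erase e := by rw [h7]; exact mem_univ _
    exact mem_W.mp h8 rfl
  have two : ∀ w e, e ≠ w → (∀ z, z ≠ e → z ≠ w → (Q.Adj e z ↔ κ)) →
      (∀ z, z ≠ w → z ≠ e → (Q.Adj w z ↔ κ)) → False := by
    intro w e hew h h5
    apply hpair e w hew
    refine ⟨subset_univ _, fun z _ hz s hs t ht => ?_⟩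
    rw [mem_insert, mem_singleton, not_or] at hz
    have k1 : Q.Adj z e ↔ κ := by rw [Q.adj_comm]; exact h z hz.1 hz.2
    have k2 : Q.Adj z w ↔ κ := by rw [Q.adj_comm]; exact h5 z hz.2 hz.1
    rw [mem_insert, mem_singleton] at hs ht
    rcases hs with rfl | rfl <;> rcases ht with rfl | rfl
    · exact Iff.rfl
    · rw [k1, k2]
    · rw [k1, k2]
    · exact Iff.rfl
  -- the leaves are good
  have good_leaf : ∀ w e, e ∈ C → e ≠ w → (∀ z, z ≠ e → z ≠ w → (Q.Adj e z ↔ κ)) →
      ∃ N, Mod Q (univ.erase e) N ∧ 2 ≤ N.card ∧ v ∈ N ∧ Disjoint (N.erase v) C := by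
    intro w e heC hew h
    rcases main e heC with h5 | ⟨f, hfC, hfe, hf⟩
    · exact h5
    · exfalso
      have h6 := leaf e f hfe hf
      have hfw : f = w := by
        by_contra h7
        apply h6
        rw [Q.adj_comm]
        exact h f hfe h7
      subst hfw
      exact two f e hew h hf
  have hlem : ∀ w1 w2, w1 ∈ C → w2 ∈ C → w1 ≠ w2 →
      (∃ N, Mod Q (univ.erase w1) N ∧ 2 ≤ N.card ∧ v ∈ N ∧ Disjoint (N.erase v) C) →
      (∃ N, Mod Q (univ.erase w2) N ∧ 2 ≤ N.card ∧ v ∈ N ∧ Disjoint (N.erase v) C) →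
      ¬ (Q.Adj w1 v ↔ Q.Adj w2 v) := by
    rintro w1 w2 hw1 hw2 h12 ⟨N1, a1, b1, c1, d1⟩ ⟨N2, a2, b2, c2, d2⟩
    exact (lemG hp hC hw1 hw2 h12 a1 a2 c1 c2 b1 d1 d2).1
  have three : ∀ w1 w2 w3, w1 ∈ C → w2 ∈ C → w3 ∈ C → w1 ≠ w2 → w1 ≠ w3 → w2 ≠ w3 →
      (∃ N, Mod Q (univ.erase w1) N ∧ 2 ≤ N.card ∧ v ∈ N ∧ Disjoint (N.erase v) C) →
      (∃ N, Mod Q (univ.erase w2) N ∧ 2 ≤ N.card ∧ v ∈ N ∧ Disjoint (N.erase v) C) →
      (∃ N, Mod Q (univ.erase w3) N ∧ 2 ≤ N.card ∧ v ∈ N ∧ Disjoint (N.erase v) C) → False := by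
    intro w1 w2 w3 hw1 hw2 hw3 h12 h13 h23 g1 g2 g3
    have e1 := hlem w1 w2 hw1 hw2 h12 g1 g2
    have e2 := hlem w1 w3 hw1 hw3 h13 g1 g3
    have e3 := hlem w2 w3 hw2 hw3 h23 g2 g3
    tauto
  have onebad : ∀ w1 w2, w1 ∈ C → w2 ∈ C → w1 ≠ w2 →
      (∃ e ∈ C, e ≠ w1 ∧ ∀ z, z ≠ e → z ≠ w1 → (Q.Adj e z ↔ κ)) →
      (∃ e ∈ C, e ≠ w2 ∧ ∀ z, z ≠ e → z ≠ w2 → (Q.Adj e z ↔ κ)) → False := by
    rintro w1 w2 hw1 hw2 h12 ⟨e1, he1, hn1, hk1⟩ ⟨e2, he2, hn2, hk2⟩
    have hne : e1 ≠ e2 := by
      intro h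
      subst h
      exact leaf w2 e1 hn2 hk2 (hk1 w2 hn2.symm h12.symm)
    apply hlem e1 e2 he1 he2 hne (good_leaf w1 e1 he1 hn1 hk1) (good_leaf w2 e2 he2 hn2 hk2)
    rw [hk1 v (fun h => hvC' (h ▸ he1)) (fun h => hvC' (h ▸ hw1)),
      hk2 v (fun h => hvC' (h ▸ he2)) (fun h => hvC' (h ▸ hw2))]
  obtain ⟨w1, w2, w3, hw1, hw2, hw3, h12, h13, h23⟩ := two_lt_card_iff.mp
    (by omega : 2 < C.card)
  by_cases hall : ∀ w ∈ C, ∃ N, Mod Q (univ.erase w) N ∧ 2 ≤ N.card ∧ v ∈ N ∧
      Disjoint (N.erase v) C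
  · exact three w1 w2 w3 hw1 hw2 hw3 h12 h13 h23 (hall w1 hw1) (hall w2 hw2) (hall w3 hw3)
  push Not at hall
  obtain ⟨w, hw, hbad⟩ := hall
  have hbw : ∃ e ∈ C, e ≠ w ∧ ∀ z, z ≠ e → z ≠ w → (Q.Adj e z ↔ κ) := by
    rcases main w hw with ⟨N, a, b, c, d⟩ | h
    · exact absurd d (hbad N a b c)
    · exact h
  have hgood : ∀ u ∈ C, u ≠ w → ∃ N, Mod Q (univ.erase u) N ∧ 2 ≤ N.card ∧ v ∈ N ∧
      Disjoint (N.erase v) C := by
    intro u hu huw
    rcases main u hu with h | h
    · exact h
    · exact absurd (onebad u w hu hw huw h hbw) id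
  by_cases hC4' : 4 ≤ C.card
  · obtain ⟨u1, u2, u3, k1, k2, k3, l12, l13, l23⟩ := two_lt_card_iff.mp
      (by rw [card_erase_of_mem hw]; omega : 2 < (C.erase w).card)
    rw [mem_erase] at k1 k2 k3
    exact three u1 u2 u3 k1.2 k2.2 k3.2 l12 l13 l23 (hgood u1 k1.2 k1.1) (hgood u2 k2.2 k2.1)
      (hgood u3 k3.2 k3.1)
  obtain ⟨e, heC, hew, hke⟩ := hbw
  obtain ⟨x, hx⟩ : ((C.erase w).erase e).Nonempty := by
    apply card_pos.mp
    rw [card_erase_of_mem (mem_erase.mpr ⟨hew, heC⟩), card_erase_of_mem hw]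
    omega
  rw [mem_erase, mem_erase] at hx
  obtain ⟨hxe, hxw, hxC⟩ := hx
  have hC3' : ∀ z ∈ C, z = w ∨ z = e ∨ z = x := by
    intro z hz
    by_contra hcon
    push Not at hcon
    have h5 : ({w, e, x} : Finset W) ⊆ C.erase z := by
      intro s hs
      rw [mem_insert, mem_insert, mem_singleton] at hs
      rw [mem_erase]
      rcases hs with rfl | rfl | rfl
      · exact ⟨fun h => hcon.1 h.symm, hw⟩
      · exact ⟨fun h => hcon.2.1 h.symm, heC⟩
      · exact ⟨fun h => hcon.2.2 h.symm, hxC⟩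
    have h6 := card_le_card h5
    rw [card_erase_of_mem hz, card_eq_three.mpr ⟨w, e, x, hew.symm, hxw.symm, hxe.symm, rfl⟩] at h6
    omega
  have hev : e ≠ v := fun h => hvC' (h ▸ heC)
  have hwv : w ≠ v := fun h => hvC' (h ▸ hw)
  have hxv : x ≠ v := fun h => hvC' (h ▸ hxC)
  -- from outside of `C` only `v` is joined to `C` in the other way
  have hout : ∀ z, z ∉ C → z ≠ v → ∀ c ∈ C, (Q.Adj c z ↔ κ) := by
    intro z hz hzv c hc
    rw [Q.adj_comm, hC.2 z (mem_W.mpr hzv) hz c hc e heC, Q.adj_comm]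
    exact hke z (fun h => hz (h ▸ heC)) (fun h => hz (h ▸ hw))
  have hRe : (RR Q κ e).card = 1 := by
    rw [card_eq_one]
    refine ⟨w, ?_⟩
    ext z
    rw [mem_RR, mem_singleton]
    constructor
    · rintro ⟨h5, h6⟩
      by_contra h7
      exact h6 (hke z h5 h7)
    · rintro rfl
      exact ⟨hew.symm, leaf z e hew hke⟩
  by_cases hxw' : Q.Adj x w ↔ κ
  · -- `w` is joined to `e` and `v` only
    have hwv' : ¬ (Q.Adj w v ↔ κ) := by
      intro h
      apply two w e hew hke
      intro z hzw hze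
      by_cases hzC : z ∈ C
      · rcases hC3' z hzC with h5 | h5 | h5
        · exact absurd h5 hzw
        · exact absurd h5 hze
        · rw [h5, Q.adj_comm]; exact hxw'
      · by_cases hzv : z = v
        · rw [hzv]; exact h
        · exact hout z hzC hzv w hw
    apply dg_diff hd hRe (y := w)
    rw [card_eq_two]
    refine ⟨e, v, hev, ?_⟩
    ext z
    rw [mem_RR, mem_insert, mem_singleton]
    constructor
    · rintro ⟨h5, h6⟩
      by_contra h7
      rw [not_or] at h7
      apply h6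
      by_cases hzC : z ∈ C
      · rcases hC3' z hzC with h8 | h8 | h8
        · exact absurd h8 h5
        · exact absurd h8 h7.1
        · rw [h8, Q.adj_comm]; exact hxw'
      · exact hout z hzC h7.2 w hw
    · rintro (rfl | rfl)
      · exact ⟨hew, fun h => leaf w z hew hke ((Q.adj_comm z w).trans h)⟩
      · exact ⟨hwv.symm, hwv'⟩
  · -- `x` is joined to `w` and `v` only
    have hxe' : Q.Adj x e ↔ κ := by
      rw [Q.adj_comm]
      exact hke x hxe hxw
    have hxv' : ¬ (Q.Adj x v ↔ κ) := by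
      intro h
      apply hpair e x hxe.symm
      have kx : ∀ z, z ≠ e → z ≠ x → z ≠ w → (Q.Adj x z ↔ κ) := by
        intro z hze hzx hzw
        by_cases hzC : z ∈ C
        · rcases hC3' z hzC with h5 | h5 | h5
          · exact absurd h5 hzw
          · exact absurd h5 hze
          · exact absurd h5 hzx
        · by_cases hzv : z = v
          · rw [hzv]; exact h
          · exact hout z hzC hzv x hxC
      have hwe := leaf w e hew hke
      refine ⟨subset_univ _, fun z _ hz s hs t ht => ?_⟩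
      rw [mem_insert, mem_singleton, not_or] at hz
      have k : Q.Adj z e ↔ Q.Adj z x := by
        rw [Q.adj_comm z e, Q.adj_comm z x]
        by_cases hzw : z = w
        · subst hzw
          tauto
        · rw [hke z hz.1 hzw, kx z hz.1 hz.2 hzw]
      rw [mem_insert, mem_singleton] at hs ht
      rcases hs with rfl | rfl <;> rcases ht with rfl | rfl
      · exact Iff.rfl
      · exact k
      · exact k.symm
      · exact Iff.rfl
    apply dg_diff hd hRe (y := x)
    rw [card_eq_two]
    refine ⟨w, v, hwv, ?_⟩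
    ext z
    rw [mem_RR, mem_insert, mem_singleton]
    constructor
    · rintro ⟨h5, h6⟩
      by_contra h7
      rw [not_or] at h7
      apply h6
      by_cases hzC : z ∈ C
      · rcases hC3' z hzC with h8 | h8 | h8
        · exact absurd h8 h7.1
        · rw [h8]; exact hxe'
        · exact absurd h8 h5
      · exact hout z hzC h7.2 x hxC
    · rintro (rfl | rfl)
      · exact ⟨hxw.symm, hxw'⟩
      · exact ⟨hxv.symm, hxv'⟩

end graphs

end Pool.Agent.L7h41.MD
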