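import Pool.Agent.L7h41.MD.Types

set_option autoImplicit false
set_option linter.unusedSectionVars false

/-!
# Sets with the same decks under a group action
-/

namespace Pool.Agent.L7h41.MD

open Finset Classical

section

variable {Γ X J : Type} [Group Γ] [Fintype Γ] [Fintype X] [DecidableEq X] [Fintype J]

/-- the number of the group elements which map `C` into `D` -/
noncomputable def NN (φ : Γ →* Equiv.Perm X) (C D : Finset X) : ℤ :=
  ∑ γ : Γ, ind (∀ x ∈ C, φ γ x ∈ D)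

theorem NN_nonneg (φ : Γ →* Equiv.Perm X) (C D : Finset X) : 0 ≤ NN φ C D :=
  sum_nonneg (fun _ _ => ind_nonneg _)

theorem NN_inv (φ : Γ →* Equiv.Perm X) (C D D' : Finset X) (δ : Γ)
    (h : ∀ x, φ δ x ∈ D' ↔ x ∈ D) : NN φ C D = NN φ C D' := by
  unfold NN
  apply Fintype.sum_equiv (Equiv.mulLeft δ)
  intro γ
  apply ind_congr
  rw [Equiv.coe_mulLeft, map_mul]
  constructor
  · intro h1 x hx
    rw [Equiv.Perm.mul_apply, h]
    exact h1 x hx
  · intro h1 x hx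
    rw [← h, ← Equiv.Perm.mul_apply]
    exact h1 x hx

theorem NN_erase (φ : Γ →* Equiv.Perm X) (C D : Finset X) :
    ∑ s ∈ D, NN φ C (D.erase s) = ((D.card : ℤ) - C.card) * NN φ C D := by
  unfold NN
  rw [sum_comm, mul_sum]
  apply sum_congr rfl
  intro γ _
  by_cases h : ∀ x ∈ C, φ γ x ∈ D
  · rw [ind_true h, mul_one]
    have hsub : C.image (φ γ) ⊆ D := by
      intro y hy
      obtain ⟨x, hx, rfl⟩ := mem_image.mp hy
      exact h x hx
    have e1 : ∀ s ∈ D, ind (∀ x ∈ C, φ γ x ∈ D.erase s) = if s ∉ C.image (φ γ) then 1 else 0 := by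
      intro s hs
      rw [ind_eq]
      congr 1
      apply propext
      constructor
      · intro h1 h2
        obtain ⟨x, hx, hxs⟩ := mem_image.mp h2
        exact (mem_erase.mp (h1 x hx)).1 hxs
      · intro h1 x hx
        refine mem_erase.mpr ⟨fun h2 => h1 (mem_image.mpr ⟨x, hx, h2⟩), h x hx⟩
    rw [sum_congr rfl e1, Finset.sum_boole]
    have e2 : D.filter (fun s => s ∉ C.image (φ γ)) = D \ C.image (φ γ) := by
      ext s
      rw [mem_filter, mem_sdiff]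
    rw [e2]
    have e3 := card_sdiff_add_card_eq_card hsub
    rw [card_image_of_injective _ (φ γ).injective] at e3
    omega
  · rw [ind_false h, mul_zero]
    apply sum_eq_zero
    intro s _
    apply ind_false
    intro h1
    exact h (fun x hx => (mem_erase.mp (h1 x hx)).2)

/-- the data of two sets with the same decks -/
structure Dk (φ : Γ →* Equiv.Perm X) (Q Q' : Finset X) (s s' : J → X) (w : J → ℚ) : Prop where
  hs : ∀ j, s j ∈ Q
  hs' : ∀ j, s' j ∈ Q'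
  hw : ∀ x ∈ Q, ∑ j with s j = x, w j = 1
  hw' : ∀ x ∈ Q', ∑ j with s' j = x, w j = 1
  hg : ∀ j, ∃ γ : Γ, ∀ x, φ γ x ∈ Q'.erase (s' j) ↔ x ∈ Q.erase (s j)

variable {φ : Γ →* Equiv.Perm X} {Q Q' : Finset X} {s s' : J → X} {w : J → ℚ}

theorem Dk.card (h : Dk φ Q Q' s s' w) : Q.card = Q'.card := by
  have h1 : ∑ x ∈ Q, ∑ j with s j = x, w j = ∑ j, w j :=
    sum_fiberwise_of_maps_to (fun j _ => h.hs j) _
  have h2 : ∑ x ∈ Q', ∑ j with s' j = x, w j = ∑ j, w j :=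
    sum_fiberwise_of_maps_to (fun j _ => h.hs' j) _
  rw [sum_congr rfl h.hw, sum_const, nsmul_eq_mul, mul_one] at h1
  rw [sum_congr rfl h.hw', sum_const, nsmul_eq_mul, mul_one] at h2
  exact_mod_cast h1.trans h2.symm

theorem Dk.NN (h : Dk φ Q Q' s s' w) (C : Finset X) (hC : C.card ≠ Q.card) :
    NN φ C Q = NN φ C Q' := by
  have e1 : ∑ x ∈ Q, (MD.NN φ C (Q.erase x) : ℚ) = ∑ j, w j * (MD.NN φ C (Q.erase (s j)) : ℚ) := by
    rw [← sum_fiberwise_of_maps_to (fun j _ => h.hs j)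
      (fun j => w j * (MD.NN φ C (Q.erase (s j)) : ℚ))]
    apply sum_congr rfl
    intro x hx
    have : ∀ j ∈ univ.filter (fun j => s j = x), w j * (MD.NN φ C (Q.erase (s j)) : ℚ) =
        w j * (MD.NN φ C (Q.erase x) : ℚ) := by
      intro j hj
      rw [(mem_filter.mp hj).2]
    rw [sum_congr rfl this, ← sum_mul, h.hw x hx, one_mul]
  have e2 : ∑ x ∈ Q', (MD.NN φ C (Q'.erase x) : ℚ) =
      ∑ j, w j * (MD.NN φ C (Q'.erase (s' j)) : ℚ) := by
    rw [← sum_fiberwise_of_maps_to (fun j _ => h.hs' j)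
      (fun j => w j * (MD.NN φ C (Q'.erase (s' j)) : ℚ))]
    apply sum_congr rfl
    intro x hx
    have : ∀ j ∈ univ.filter (fun j => s' j = x), w j * (MD.NN φ C (Q'.erase (s' j)) : ℚ) =
        w j * (MD.NN φ C (Q'.erase x) : ℚ) := by
      intro j hj
      rw [(mem_filter.mp hj).2]
    rw [sum_congr rfl this, ← sum_mul, h.hw' x hx, one_mul]
  have e3 : ∑ j, w j * (MD.NN φ C (Q.erase (s j)) : ℚ) =
      ∑ j, w j * (MD.NN φ C (Q'.erase (s' j)) : ℚ) := by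
    apply sum_congr rfl
    intro j _
    obtain ⟨γ, hγ⟩ := h.hg j
    rw [NN_inv φ C _ _ γ hγ]
  have e4 := NN_erase φ C Q
  have e5 := NN_erase φ C Q'
  rw [← h.card] at e5
  have e6 : (((Q.card : ℤ) - C.card) * MD.NN φ C Q : ℤ) = ((Q.card : ℤ) - C.card) * MD.NN φ C Q' := by
    rw [← e4, ← e5]
    have : (((∑ x ∈ Q, MD.NN φ C (Q.erase x) : ℤ)) : ℚ) =
        ((∑ x ∈ Q', MD.NN φ C (Q'.erase x) : ℤ) : ℚ) := by
      push_cast
      rw [e1, e2, e3]
    exact_mod_cast this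
  have hne : (Q.card : ℤ) - C.card ≠ 0 := by omega
  exact mul_left_cancel₀ hne e6

theorem NN_sieve (φ : Γ →* Equiv.Perm X) (T R D : Finset X) :
    ∑ E ∈ R.powerset, (-1 : ℤ) ^ E.card * NN φ (T ∪ E) D =
      ∑ γ : Γ, ind ((∀ x ∈ T, φ γ x ∈ D) ∧ ∀ x ∈ R, φ γ x ∉ D) := by
  unfold NN
  have e0 : ∀ E ∈ R.powerset, (-1 : ℤ) ^ E.card * ∑ γ : Γ, ind (∀ x ∈ T ∪ E, φ γ x ∈ D) =
      ∑ γ : Γ, (-1 : ℤ) ^ E.card * ind (∀ x ∈ T ∪ E, φ γ x ∈ D) := by
    intro E _
    rw [mul_sum]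
  rw [sum_congr rfl e0, sum_comm]
  apply sum_congr rfl
  intro γ _
  by_cases hT : ∀ x ∈ T, φ γ x ∈ D
  · set B := R.filter (fun x => φ γ x ∈ D) with hB
    have e1 : ∀ E ∈ R.powerset, (-1 : ℤ) ^ E.card * ind (∀ x ∈ T ∪ E, φ γ x ∈ D) =
        if E ⊆ B then (-1 : ℤ) ^ E.card else 0 := by
      intro E hE
      rw [mem_powerset] at hE
      by_cases h : E ⊆ B
      · rw [if_pos h, ind_true, mul_one]
        intro x hx
        rcases mem_union.mp hx with h1 | h1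
        · exact hT x h1
        · exact (mem_filter.mp (h h1)).2
      · rw [if_neg h, ind_false, mul_zero]
        intro h1
        apply h
        intro x hx
        exact mem_filter.mpr ⟨hE hx, h1 x (mem_union_right _ hx)⟩
    rw [sum_congr rfl e1, ← sum_filter]
    have e2 : R.powerset.filter (fun E => E ⊆ B) = B.powerset := by
      ext E
      rw [mem_filter, mem_powerset, mem_powerset]
      exact ⟨fun h => h.2, fun h => ⟨h.trans (filter_subset _ _), h⟩⟩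
    rw [e2, sum_powerset_neg_one_pow_card]
    by_cases hBe : B = ∅
    · rw [if_pos hBe, ind_true]
      refine ⟨hT, fun x hx h => ?_⟩
      have : x ∈ B := mem_filter.mpr ⟨hx, h⟩
      rw [hBe] at this
      exact notMem_empty _ this
    · rw [if_neg hBe, ind_false]
      rintro ⟨_, h⟩
      apply hBe
      rw [← not_nonempty_iff_eq_empty]
      rintro ⟨x, hx⟩
      have := mem_filter.mp hx
      exact h x this.1 this.2
  · rw [ind_false (fun h => hT h.1)]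
    apply sum_eq_zero
    intro E _
    rw [ind_false, mul_zero]
    intro h
    exact hT (fun x hx => h x (mem_union_left _ hx))

theorem NN_self_pos (φ : Γ →* Equiv.Perm X) (Q : Finset X) : 0 < NN φ Q Q := by
  unfold NN
  apply sum_pos' (fun _ _ => ind_nonneg _)
  refine ⟨1, mem_univ _, ?_⟩
  rw [map_one, ind_true (show ∀ x ∈ Q, (1 : Equiv.Perm X) x ∈ Q from fun x hx => hx)]
  exact one_pos

theorem exists_of_NN {C D : Finset X} (h : 0 < MD.NN φ C D) : ∃ γ : Γ, ∀ x ∈ C, φ γ x ∈ D := by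
  by_contra hcon
  push Not at hcon
  have : MD.NN φ C D = 0 := by
    apply sum_eq_zero
    intro γ _
    apply ind_false
    intro h
    obtain ⟨x, hx, hx'⟩ := hcon γ
    exact hx' (h x hx)
  omega

/-- difference of the exact counts -/
theorem Dk.diff (h : Dk φ Q Q' s s' w) (T : Finset X) (hT : T ⊆ Q) :
    ∑ γ : Γ, ind ((∀ x ∈ T, φ γ x ∈ Q) ∧ ∀ x ∈ Q \ T, φ γ x ∉ Q) -
      ∑ γ : Γ, ind ((∀ x ∈ T, φ γ x ∈ Q') ∧ ∀ x ∈ Q \ T, φ γ x ∉ Q') =
      (-1 : ℤ) ^ (Q \ T).card * (MD.NN φ Q Q - MD.NN φ Q Q') := by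
  rw [← NN_sieve, ← NN_sieve, ← sum_sub_distrib]
  rw [sum_eq_single_of_mem (Q \ T) (mem_powerset.mpr subset_rfl)]
  · rw [union_sdiff_of_subset hT]
    ring
  · intro E hE hne
    rw [mem_powerset] at hE
    have hdis : Disjoint T E := by
      rw [Finset.disjoint_left]
      intro x hx hx'
      exact (mem_sdiff.mp (hE hx')).2 hx
    have hlt : E.card < (Q \ T).card := by
      rcases lt_or_eq_of_le (card_le_card hE) with h1 | h1
      · exact h1
      · exact absurd (eq_of_subset_of_card_le hE h1.ge) hne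
    have hc : (T ∪ E).card ≠ Q.card := by
      rw [card_union_of_disjoint hdis]
      have := card_sdiff_add_card_eq_card hT
      omega
    rw [h.NN _ hc]
    ring

/-- Lovász -/
theorem Dk.lov (h : Dk φ Q Q' s s' w) (h1 : ∀ γ : Γ, ∃ x ∈ Q, φ γ x ∈ Q)
    (h2 : ∀ γ : Γ, ∃ x ∈ Q, φ γ x ∈ Q') : ∃ γ : Γ, ∀ x ∈ Q, φ γ x ∈ Q' := by
  have hd := h.diff ∅ (empty_subset _)
  have e1 : ∑ γ : Γ, ind ((∀ x ∈ (∅ : Finset X), φ γ x ∈ Q) ∧ ∀ x ∈ Q \ ∅, φ γ x ∉ Q) = 0 := by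
    apply sum_eq_zero
    intro γ _
    apply ind_false
    rintro ⟨_, h3⟩
    obtain ⟨x, hx, hx'⟩ := h1 γ
    rw [sdiff_empty] at h3
    exact h3 x hx hx'
  have e2 : ∑ γ : Γ, ind ((∀ x ∈ (∅ : Finset X), φ γ x ∈ Q') ∧ ∀ x ∈ Q \ ∅, φ γ x ∉ Q') = 0 := by
    apply sum_eq_zero
    intro γ _
    apply ind_false
    rintro ⟨_, h3⟩
    obtain ⟨x, hx, hx'⟩ := h2 γ
    rw [sdiff_empty] at h3
    exact h3 x hx hx'
  rw [e1, e2, sub_zero] at hd
  have e3 : MD.NN φ Q Q - MD.NN φ Q Q' = 0 := by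
    rcases mul_eq_zero.mp hd.symm with h3 | h3
    · exact absurd h3 (pow_ne_zero _ (by norm_num))
    · exact h3
  apply exists_of_NN
  have := NN_self_pos φ Q
  omega

/-- Nash-Williams -/
theorem Dk.nw (h : Dk φ Q Q' s s' w)
    (hlt : 2 * (Fintype.card Γ : ℤ) < 2 ^ Q.card * MD.NN φ Q Q) :
    ∃ γ : Γ, ∀ x ∈ Q, φ γ x ∈ Q' := by
  by_contra hcon
  have h0 : MD.NN φ Q Q' = 0 := by
    by_contra hne
    have := NN_nonneg φ Q Q'
    exact hcon (exists_of_NN (by omega))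
  have htot : ∀ D : Finset X, ∑ T ∈ Q.powerset, ∑ γ : Γ,
      ind ((∀ x ∈ T, φ γ x ∈ D) ∧ ∀ x ∈ Q \ T, φ γ x ∉ D) = (Fintype.card Γ : ℤ) := by
    intro D
    rw [sum_comm]
    have : ∀ γ ∈ (univ : Finset Γ), ∑ T ∈ Q.powerset,
        ind ((∀ x ∈ T, φ γ x ∈ D) ∧ ∀ x ∈ Q \ T, φ γ x ∉ D) = 1 := by
      intro γ _
      rw [sum_eq_single_of_mem (Q.filter (fun x => φ γ x ∈ D))
        (mem_powerset.mpr (filter_subset _ _))]
      · apply ind_true
        refine ⟨fun x hx => (mem_filter.mp hx).2, fun x hx hx' => ?_⟩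
        rw [mem_sdiff, mem_filter] at hx
        exact hx.2 ⟨hx.1, hx'⟩
      · intro T hT hne
        rw [mem_powerset] at hT
        apply ind_false
        rintro ⟨h1, h2⟩
        apply hne
        ext x
        rw [mem_filter]
        constructor
        · intro hx
          exact ⟨hT hx, h1 x hx⟩
        · rintro ⟨hx, hx'⟩
          by_contra hxT
          exact h2 x (mem_sdiff.mpr ⟨hx, hxT⟩) hx'
    rw [sum_congr rfl this, sum_const, card_univ, nsmul_eq_mul, mul_one]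
  have hle : ∀ T ∈ Q.powerset, MD.NN φ Q Q ≤
      ∑ γ : Γ, ind ((∀ x ∈ T, φ γ x ∈ Q) ∧ ∀ x ∈ Q \ T, φ γ x ∉ Q) +
      ∑ γ : Γ, ind ((∀ x ∈ T, φ γ x ∈ Q') ∧ ∀ x ∈ Q \ T, φ γ x ∉ Q') := by
    intro T hT
    rw [mem_powerset] at hT
    have hd := h.diff T hT
    rw [h0, sub_zero] at hd
    have n1 : 0 ≤ ∑ γ : Γ, ind ((∀ x ∈ T, φ γ x ∈ Q) ∧ ∀ x ∈ Q \ T, φ γ x ∉ Q) :=
      sum_nonneg (fun _ _ => ind_nonneg _)
    have n2 : 0 ≤ ∑ γ : Γ, ind ((∀ x ∈ T, φ γ x ∈ Q') ∧ ∀ x ∈ Q \ T, φ γ x ∉ Q') :=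
      sum_nonneg (fun _ _ => ind_nonneg _)
    rcases neg_one_pow_eq_or ℤ (Q \ T).card with h3 | h3 <;> rw [h3] at hd <;> linarith
  have hs := sum_le_sum hle
  rw [sum_add_distrib, htot, htot, sum_const, card_powerset, nsmul_eq_mul] at hs
  push_cast at hs
  linarith

end

end Pool.Agent.L7h41.MD
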