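import Pool.Agent.L7h41.MD.NW

set_option autoImplicit false
set_option linter.unusedSectionVars false

/-!
# Moving one vertex to another module
-/

namespace Pool.Agent.L7h41.MD

open Finset Classical
open Pool.Agent.H234RC (Hypo NonIso Reconstructible)
open Pool.Agent.TH403.FLP (hypo_symm pi_ne pi_symm_ne)

variable {V : Type} [Fintype V] {G H : SimpleGraph V} {π : V → Equiv.Perm V} {v : V}

theorem Ctx.move (c : Ctx G H π) (hN : NonIso G H) (h2 : 2 ≤ (blk G univ v).card) :
    ∃ y, v ∉ blk G univ y ∧ SI G (blk G univ y) G ((blk G univ v).erase v) ∧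
      mp (π v) (blk G univ y) = (blk H univ v).erase v := by
  have h2' := (c.U v).mp h2
  obtain ⟨r, hr, hrv⟩ := exists_mem_ne (by omega : 1 < (blk H univ v).card) v
  obtain ⟨y, hyr⟩ : ∃ y, π v y = r := ⟨(π v).symm r, Equiv.apply_symm_apply _ _⟩
  have hyv : y ≠ v := by
    intro h
    apply hrv
    rw [← hyr, h, c.hyp.fix]
  have e1 : blk H (univ.erase v) r = (blk H univ v).erase v := by
    rw [blk_erase c.gH (mem_univ v) h2' (mem_W.mpr hrv), blk_eq c.gH (mem_univ v) hr]
  have e2 : mp (π v) ((blk G univ y).erase v) = (blk H univ v).erase v := by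
    rw [← e1, ← hyr, hyp_blk c.hyp, blk_erase c.gG (mem_univ v) h2 (mem_W.mpr hyv)]
  have hv : v ∉ blk G univ y := by
    intro h
    have h3 : blk G univ y = blk G univ v := (blk_eq c.gG (mem_univ y) h).symm
    rw [h3] at e2
    exact c.swap hN h2 e2
  have e3 : (blk G univ y).erase v = blk G univ y := erase_eq_of_notMem hv
  rw [e3] at e2
  refine ⟨y, hv, ?_, e2⟩
  have h3 : SI G (blk G univ y) H (mp (π v) (blk G univ y)) := by
    apply IsoOn.si
    apply (hyp_iso c.hyp v).mono
    intro z hz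
    exact mem_W.mpr (fun h => hv (h ▸ hz))
  rw [e2] at h3
  exact h3.trans (c.type' h2).symm

/-- `G'` arises from `G` by moving the vertex `v` from the module `M` to the module `N`. -/
structure Moved (G G' : SimpleGraph V) (M N : Finset V) (v : V) : Prop where
  max : IsMaxModule G N
  out : v ∉ N
  similar : Sim G N {x | x ∈ M ∧ x ≠ v}
  rest : ∀ x y, x ≠ v → y ≠ v → (G'.Adj x y ↔ G.Adj x y)
  module : ∀ z, z ∉ N → z ≠ v → ∀ x ∈ N, (G'.Adj z v ↔ G'.Adj z x)
  copy : Nonempty (G'.induce {x | x ∈ N ∨ x = v} ≃g G.induce (M : Set V))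

/-- the vertex-deleted subgraphs are pairwise isomorphic -/
def Hypomorphic (G G' : SimpleGraph V) : Prop :=
  ∃ f : V ≃ V, ∀ x, Nonempty (G.induce {y | y ≠ x} ≃g G'.induce {y | y ≠ f x})

theorem thm_move (G : SimpleGraph V) (hn : 8 ≤ Fintype.card V) (M : Finset V) (v : V)
    (hM : IsMaxModule G M) (hv : v ∈ M) (hMv : M ≠ {v})
    (h : ∀ (G' : SimpleGraph V) (N : Finset V), Moved G G' M N v → Hypomorphic G G' →
      Nonempty (G ≃g G')) :
    Reconstructible G ∧ Reconstructible Gᶜ := by
  have h2 : 2 ≤ M.card := by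
    by_contra hcon
    have h1 := card_pos.mpr ⟨v, hv⟩
    obtain ⟨a, ha⟩ := card_eq_one.mp (by omega : M.card = 1)
    rw [ha, mem_singleton] at hv
    exact hMv (by rw [ha, hv])
  refine rec_ctx G hn (fun hG => ?_) (fun H π c hNI => ?_)
  · obtain ⟨x, rfl⟩ := (max_iff hG M).mp hM
    exact ⟨x, h2⟩
  · have hG := c.gG
    have e : blk G univ v = M := by
      obtain ⟨x, rfl⟩ := (max_iff hG M).mp hM
      exact blk_eq hG (mem_univ x) hv
    have h2v : 2 ≤ (blk G univ v).card := by rw [e]; exact h2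
    obtain ⟨y, hvy, hsi, hmp⟩ := c.move hNI h2v
    have hR := self_mem_blk c.gH (mem_univ v)
    have hRm := blk_mod c.gH (mem_univ v)
    -- the new module is mapped to the module of `H`
    have hmem : ∀ x, π v x ∈ blk H univ v ↔ x ∈ blk G univ y ∨ x = v := by
      intro x
      constructor
      · intro hx
        by_cases hxv : x = v
        · exact Or.inr hxv
        · left
          have h3 : π v x ∈ (blk H univ v).erase v :=
            mem_erase.mpr ⟨(pi_ne c.hyp v x).mpr hxv, hx⟩
          rw [← hmp, apply_mem_mp] at h3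
          exact h3
      · rintro (hx | hx)
        · have h3 : π v x ∈ mp (π v) (blk G univ y) := apply_mem_mp.mpr hx
          rw [hmp] at h3
          exact (mem_erase.mp h3).2
        · rw [hx, c.hyp.fix]
          exact hR
    let G' : SimpleGraph V := H.comap (π v)
    have hG' : ∀ x y, G'.Adj x y ↔ H.Adj (π v x) (π v y) := fun x y => Iff.rfl
    obtain ⟨e⟩ := h G' (blk G univ y) (by
      refine ⟨(max_iff hG _).mpr ⟨y, rfl⟩, hvy, ?_, ?_, ?_, ?_⟩
      · rw [er_set, ← e]
        exact sim_iff.mpr (ty_eq.mpr hsi)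
      · intro a b ha hb
        exact c.hyp.adj v a b ha hb
      · intro z hz hzv x hx
        rw [hG', hG']
        exact hRm.2 (π v z) (mem_univ _) (fun h => by
          rcases (hmem z).mp h with h | h
          · exact hz h
          · exact hzv h) _ ((hmem v).mpr (Or.inr rfl)) _ ((hmem x).mpr (Or.inl hx))
      · have h3 := (iso_iff G H _ _).mpr (c.type h2v)
        rw [e] at h3
        obtain ⟨f⟩ := h3
        refine ⟨?_⟩
        refine RelIso.trans ?_ f.symm
        refine ⟨(π v).subtypeEquiv (fun x => ?_), ?_⟩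
        · rw [mem_coe, hmem]
          rfl
        · rintro ⟨a, ha⟩ ⟨b, hb⟩
          exact Iff.rfl) (by
      refine ⟨(π v).symm, fun x => ⟨⟨((π x).trans (π v).symm).subtypeEquiv (fun y => ?_), ?_⟩⟩⟩
      · show y ≠ x ↔ (π v).symm (π x y) ≠ (π v).symm x
        rw [(π v).symm.injective.ne_iff]
        exact (pi_ne c.hyp x y).symm
      · rintro ⟨a, ha⟩ ⟨b, hb⟩
        show H.Adj (π v ((π v).symm (π x a))) (π v ((π v).symm (π x b))) ↔ G.Adj a b
        rw [Equiv.apply_symm_apply, Equiv.apply_symm_apply]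
        exact c.hyp.adj x a b ha hb)
    apply hNI
    refine ⟨e.toEquiv.trans (π v), fun a b => ?_⟩
    exact e.map_rel_iff (a := a) (b := b)

/-! ### Degrees -/

theorem sum_del (K : SimpleGraph V) (v : V) :
    ∑ x ∈ univ.erase v, ∑ y ∈ univ.erase v, ind (K.Adj x y) = ∑ x, dg K x - 2 * dg K v := by
  have h1 : ∀ x, ∑ y ∈ univ.erase v, ind (K.Adj x y) = dg K x - ind (K.Adj x v) := by
    intro x
    unfold dg
    rw [← sum_erase_add _ _ (mem_univ v)]
    ring
  rw [sum_congr rfl (fun x _ => h1 x), sum_sub_distrib]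
  have h2 := sum_erase_add univ (dg K) (mem_univ v)
  have h3 : ∑ x ∈ univ.erase v, ind (K.Adj x v) = dg K v := by
    unfold dg
    rw [← sum_erase_add _ _ (mem_univ v), ind_false (K.irrefl), add_zero]
    exact sum_congr rfl (fun x _ => ind_congr (K.adj_comm x v))
  rw [h3]
  linarith

theorem hypo_dg (hn : 3 ≤ Fintype.card V) (hH : Hypo G H π) (v : V) : dg G v = dg H v := by
  have h1 : ∀ v, ∑ x, dg G x - 2 * dg G v = ∑ x, dg H x - 2 * dg H v := by
    intro v
    rw [← sum_del, ← sum_del]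
    have hmem : ∀ x, x ∈ univ.erase v ↔ π v x ∈ univ.erase v := by
      intro x
      rw [mem_W, mem_W, pi_ne hH]
    apply sum_equiv (π v) hmem
    intro x hx
    apply sum_equiv (π v) hmem
    intro y hy
    exact ind_congr (hH.adj v x y (mem_W.mp hx) (mem_W.mp hy)).symm
  have h2 : ∑ v : V, (∑ x, dg G x - 2 * dg G v) = ∑ v : V, (∑ x, dg H x - 2 * dg H v) :=
    sum_congr rfl (fun v _ => h1 v)
  rw [sum_sub_distrib, sum_sub_distrib, sum_const, sum_const, ← mul_sum, ← mul_sum, card_univ,
    nsmul_eq_mul, nsmul_eq_mul] at h2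
  have h3 : ((Fintype.card V : ℤ) - 2) * (∑ x, dg G x - ∑ x, dg H x) = 0 := by linarith
  have h4 : ((Fintype.card V : ℤ) - 2) ≠ 0 := by omega
  have h5 : ∑ x, dg G x - ∑ x, dg H x = 0 := (mul_eq_zero.mp h3).resolve_left h4
  have h6 := h1 v
  omega

/-- twice the number of edges of an induced subgraph -/
noncomputable def ed (K : SimpleGraph V) (A : Finset V) : ℤ := ∑ x ∈ A, ∑ y ∈ A, ind (K.Adj x y)

theorem ed_si {A B : Finset V} (h : SI G A H B) : ed G A = ed H B := by
  obtain ⟨σ, rfl, h⟩ := h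
  unfold ed
  have hmem : ∀ x, x ∈ A ↔ σ x ∈ mp σ A := fun x => apply_mem_mp.symm
  apply sum_equiv σ hmem
  intro x hx
  apply sum_equiv σ hmem
  intro y hy
  exact ind_congr (h x hx y hy).symm

theorem ed_erase {K : SimpleGraph V} {A : Finset V} (hv : v ∈ A) :
    ed K A = ed K (A.erase v) + 2 * ∑ x ∈ A, ind (K.Adj v x) := by
  unfold ed
  have h1 : ∀ x, ∑ y ∈ A, ind (K.Adj x y) = ∑ y ∈ A.erase v, ind (K.Adj x y) + ind (K.Adj x v) :=
    fun x => (sum_erase_add _ _ hv).symm
  rw [← sum_erase_add _ _ hv, sum_congr rfl (fun x _ => h1 x), sum_add_distrib]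
  have h3 : ∑ x ∈ A.erase v, ind (K.Adj x v) = ∑ x ∈ A, ind (K.Adj v x) := by
    rw [← sum_erase_add _ _ hv, ind_false (K.irrefl), add_zero]
    exact sum_congr rfl (fun x _ => ind_congr (K.adj_comm x v))
  rw [h3]
  ring

/-- the number of the neighbours outside of a module -/
noncomputable def outs (K : SimpleGraph V) (A : Finset V) (a : V) : ℤ :=
  ∑ x ∈ univ \ A, ind (K.Adj a x)

theorem dg_split (K : SimpleGraph V) (A : Finset V) (a : V) :
    dg K a = ∑ x ∈ A, ind (K.Adj a x) + outs K A a := by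
  unfold dg outs
  rw [add_comm]
  exact (sum_sdiff (subset_univ A)).symm

theorem Ctx.outs (c : Ctx G H π) (h2 : 2 ≤ (blk G univ v).card) {y : V}
    (hvy : v ∉ blk G univ y) (hmp : mp (π v) (blk G univ y) = (blk H univ v).erase v) :
    MD.outs G (blk G univ v) v + ind (G.Adj v y) = MD.outs G (blk G univ y) y := by
  have hG := c.gG
  have hH := c.gH
  have hvG := self_mem_blk hG (mem_univ v)
  have hvH := self_mem_blk hH (mem_univ v)
  have hyG := self_mem_blk hG (mem_univ y)
  have hyv : y ≠ v := fun h => hvy (h ▸ hyG)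
  have h1 : MD.outs G (blk G univ v) v = MD.outs H (blk H univ v) v := by
    have e1 := dg_split G (blk G univ v) v
    have e2 := dg_split H (blk H univ v) v
    have e3 := hypo_dg (by have := c.n8; omega) c.hyp v
    have e4 := ed_erase (K := G) hvG
    have e5 := ed_erase (K := H) hvH
    have e6 := ed_si (c.type h2)
    have e7 := ed_si (c.type' h2)
    linarith
  rw [h1]
  have hr : π v y ∈ blk H univ v := by
    have h3 : π v y ∈ mp (π v) (blk G univ y) := apply_mem_mp.mpr hyG
    rw [hmp] at h3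
    exact (mem_erase.mp h3).2
  have h2 : MD.outs H (blk H univ v) v = MD.outs H (blk H univ v) (π v y) := by
    unfold MD.outs
    apply sum_congr rfl
    intro x hx
    rw [mem_sdiff] at hx
    apply ind_congr
    rw [H.adj_comm, H.adj_comm (π v y)]
    exact (blk_mod hH (mem_univ v)).2 x (mem_univ _) hx.2 v hvH _ hr
  have h3 : MD.outs H (blk H univ v) (π v y) =
      ∑ x ∈ (univ \ blk G univ y).erase v, ind (G.Adj y x) := by
    unfold MD.outs
    symm
    apply sum_equiv (π v)
    · intro x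
      rw [mem_erase, mem_sdiff, mem_sdiff]
      have h4 : x ∈ blk G univ y ↔ π v x ∈ blk H univ v ∧ π v x ≠ v := by
        rw [← apply_mem_mp (σ := π v), hmp, mem_erase]
        exact and_comm
      rw [h4, pi_ne c.hyp]
      constructor
      · rintro ⟨h5, _, h6⟩
        exact ⟨mem_univ _, fun h7 => h6 ⟨h7, h5⟩⟩
      · rintro ⟨_, h5⟩
        refine ⟨fun h6 => h5 ?_, mem_univ _, fun h6 => h5 h6.1⟩
        rw [h6, c.hyp.fix]
        exact hvH
    · intro x hx
      rw [mem_erase] at hx
      exact ind_congr (c.hyp.adj v y x hyv hx.1).symm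
  rw [h2, h3]
  have h4 : v ∈ univ \ blk G univ y := mem_sdiff.mpr ⟨mem_univ _, hvy⟩
  unfold MD.outs
  rw [← sum_erase_add _ _ h4, ind_congr (G.adj_comm v y)]

/-- the number of the vertices outside of `A` with a neighbour in `A` -/
noncomputable def around (G : SimpleGraph V) (A : Finset V) : ℕ :=
  Nat.card {z // z ∉ A ∧ ∃ x ∈ A, G.Adj z x}

theorem around_eq {A : Finset V} {a : V} (hA : Mod G univ A) (ha : a ∈ A) :
    (around G A : ℤ) = outs G A a := by
  unfold around outs ind
  rw [sum_boole, Nat.card_eq_fintype_card, Fintype.card_subtype]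
  congr 2
  ext z
  rw [mem_filter, mem_filter, mem_sdiff]
  constructor
  · rintro ⟨_, h1, x, hx, h2⟩
    exact ⟨⟨mem_univ _, h1⟩, ((hA.2 z (mem_univ _) h1 a ha x hx).mpr h2).symm⟩
  · rintro ⟨⟨_, h1⟩, h2⟩
    exact ⟨mem_univ _, h1, a, ha, h2.symm⟩

theorem thm_around (G : SimpleGraph V) (hn : 8 ≤ Fintype.card V) (M : Finset V) (v : V)
    (hM : IsMaxModule G M) (hv : v ∈ M) (hMv : M ≠ {v})
    (h : ∀ N : Finset V, IsMaxModule G N → v ∉ N → Sim G N {x | x ∈ M ∧ x ≠ v} →
      (around G N : ℤ) ≠ around G M + ind (∃ x ∈ N, G.Adj v x)) :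
    Reconstructible G ∧ Reconstructible Gᶜ := by
  have h2 : 2 ≤ M.card := by
    by_contra hcon
    have h1 := card_pos.mpr ⟨v, hv⟩
    obtain ⟨a, ha⟩ := card_eq_one.mp (by omega : M.card = 1)
    rw [ha, mem_singleton] at hv
    exact hMv (by rw [ha, hv])
  refine rec_ctx G hn (fun hG => ?_) (fun H π c hNI => ?_)
  · obtain ⟨x, rfl⟩ := (max_iff hG M).mp hM
    exact ⟨x, h2⟩
  · have hG := c.gG
    have e : blk G univ v = M := by
      obtain ⟨x, rfl⟩ := (max_iff hG M).mp hM
      exact blk_eq hG (mem_univ x) hv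
    have h2v : 2 ≤ (blk G univ v).card := by rw [e]; exact h2
    obtain ⟨y, hvy, hsi, hmp⟩ := c.move hNI h2v
    have hyG := self_mem_blk hG (mem_univ y)
    have hym := blk_mod hG (mem_univ y)
    apply h (blk G univ y) ((max_iff hG _).mpr ⟨y, rfl⟩) hvy
    · rw [er_set, ← e]
      exact sim_iff.mpr (ty_eq.mpr hsi)
    · have h3 := c.outs h2v hvy hmp
      rw [around_eq hym hyG, ← h3]
      congr 1
      · rw [← around_eq (blk_mod hG (mem_univ v)) (self_mem_blk hG (mem_univ v)), e]
      · apply ind_congr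
        constructor
        · intro h4
          exact ⟨y, hyG, h4⟩
        · rintro ⟨x, hx, h4⟩
          exact (hym.2 v (mem_univ _) hvy y hyG x hx).mpr h4

end Pool.Agent.L7h41.MD
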