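import Pool.Agent.L7h41.MD.Quot
import Pool.Agent.L7h41.MD.Cor

set_option autoImplicit false
set_option linter.unusedSectionVars false

/-!
# Few automorphisms of the quotient graph
-/

namespace Pool.Agent.L7h41.MD

open Finset Classical
open Pool.Agent.H234RC (Hypo NonIso Reconstructible)

variable {V : Type} [Fintype V] {G H : SimpleGraph V} {π : V → Equiv.Perm V} {x0 : V}

/-- the induced subgraphs of `G` on `A` and `B` are isomorphic -/
def Sim (G : SimpleGraph V) (A B : Set V) : Prop :=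
  Nonempty (G.induce A ≃g G.induce B)

/-- a vertex-deleted subgraph of the graph induced by `N` is isomorphic to the graph induced
by `Z` -/
def Ext1 (G : SimpleGraph V) (Z : Set V) (N : Finset V) : Prop :=
  ∃ w ∈ N, Sim G {x | x ∈ N ∧ x ≠ w} Z

/-- the automorphisms of the quotient graph which preserve the isomorphism types of the modules with
the property `P` -/
def AutP (G : SimpleGraph V) (P : Finset V → Prop) : Type :=
  {ψ : quo G ≃g quo G // ∀ N, P N.1 → Sim G (ψ N).1 N.1}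

theorem er_set (N : Finset V) (w : V) : {x | x ∈ N ∧ x ≠ w} = ((N.erase w : Finset V) : Set V) := by
  ext x
  rw [mem_coe, mem_erase]
  exact and_comm

theorem sim_iff {A B : Finset V} : Sim G (A : Set V) (B : Set V) ↔ ty G A = ty G B :=
  (iso_iff G G _ _).trans ty_eq.symm

theorem Ext1.iff {Z N : Finset V} : Ext1 G Z N ↔ ∃ w ∈ N, ty G (N.erase w) = ty G Z := by
  constructor
  · rintro ⟨w, hw, h⟩
    rw [er_set] at h
    exact ⟨w, hw, sim_iff.mp h⟩
  · rintro ⟨w, hw, h⟩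
    refine ⟨w, hw, ?_⟩
    rw [er_set]
    exact sim_iff.mpr h

/-- the considered types -/
def pp (G : SimpleGraph V) (Z : Finset V) (t : Ty V) : Prop :=
  ∃ (K : SimpleGraph V) (A : Finset V), t = ty K A ∧ 2 ≤ A.card ∧
    ∃ w ∈ A, ty K (A.erase w) = ty G Z

theorem pp_iff {Z A : Finset V} {K : SimpleGraph V} (hZ : 0 < Z.card) :
    pp G Z (ty K A) ↔ ∃ w ∈ A, ty K (A.erase w) = ty G Z := by
  constructor
  · rintro ⟨L, B, h1, h2, w, hw, h3⟩
    have h4 : SI K A L B := ty_eq.mp h1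
    obtain ⟨u, hu, h5⟩ := h4.exists_erase hw
    exact ⟨u, hu, (ty_eq.mpr h5).trans h3⟩
  · rintro ⟨w, hw, h⟩
    refine ⟨K, A, rfl, ?_, w, hw, h⟩
    have h1 : SI K (A.erase w) G Z := ty_eq.mp h
    have h2 := h1.card
    rw [card_erase_of_mem hw] at h2
    omega

theorem par_pp {Z : Finset V} : Par (pp G Z) (ty G Z) := by
  rintro K A ⟨L, B, h1, h2, w, hw, h3⟩
  have h4 : SI K A L B := ty_eq.mp h1
  obtain ⟨u, hu, h5⟩ := h4.exists_erase hw
  exact ⟨by rw [h4.card]; exact h2, u, hu, (ty_eq.mpr h5).trans h3⟩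

/-- the automorphisms of the quotient graph from permutations of the blocks -/
def mkIso (hG : Good G univ) (γ : Equiv.Perm (Om G))
    (h : ∀ B B', (qg G).Adj (γ B) (γ B') ↔ (qg G).Adj B B') : quo G ≃g quo G where
  toEquiv := (eqv hG).symm.trans (γ.trans (eqv hG))
  map_rel_iff' := by
    intro A B
    obtain ⟨A, rfl⟩ := (eqv hG).surjective A
    obtain ⟨B, rfl⟩ := (eqv hG).surjective B
    show (quo G).Adj (eqv hG (γ ((eqv hG).symm (eqv hG A))))
      (eqv hG (γ ((eqv hG).symm (eqv hG B)))) ↔ _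
    rw [Equiv.symm_apply_apply, Equiv.symm_apply_apply, eqv_adj, eqv_adj]
    exact h A B

theorem mkIso_apply (hG : Good G univ) (γ : Equiv.Perm (Om G))
    (h : ∀ B B', (qg G).Adj (γ B) (γ B') ↔ (qg G).Adj B B') (B : Om G) :
    mkIso hG γ h (eqv hG B) = eqv hG (γ B) := by
  show eqv hG (γ ((eqv hG).symm (eqv hG B))) = _
  rw [Equiv.symm_apply_apply]

theorem gam_adj {p : Ty V → Prop} {z : Ty V} (γ : Gam G p z) (B B' : Om G) :
    (qg G).Adj ((γ : Equiv.Perm (Om G)) B) ((γ : Equiv.Perm (Om G)) B') ↔ (qg G).Adj B B' := by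
  show ((γ : Equiv.Perm (Om G)) B ≠ (γ : Equiv.Perm (Om G)) B' ∧ _) ↔ (B ≠ B' ∧ _)
  rw [(γ : Equiv.Perm (Om G)).injective.ne_iff]
  constructor
  · rintro ⟨h1, h2⟩
    exact ⟨h1, (γ.2.1 B B' h1).mpr h2⟩
  · rintro ⟨h1, h2⟩
    exact ⟨h1, (γ.2.1 B B' h1).mp h2⟩

instance (P : Finset V → Prop) : Finite (AutP G P) := by
  have : Finite (quo G ≃g quo G) := by
    apply Finite.of_injective (fun ψ : quo G ≃g quo G => ψ.toEquiv)
    intro a b h
    exact RelIso.toEquiv_injective h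
  exact Subtype.finite

theorem card_gam_le (hG : Good G univ) {Z : Finset V} (hZ : 0 < Z.card) :
    Fintype.card (Gam G (pp G Z) (ty G Z)) ≤
      Nat.card (AutP G (fun N => ¬ Ext1 G Z N ∧ ¬ Sim G N Z)) := by
  rw [← Nat.card_eq_fintype_card]
  let f : Gam G (pp G Z) (ty G Z) → AutP G (fun N => ¬ Ext1 G Z N ∧ ¬ Sim G N Z) := fun γ =>
    ⟨mkIso hG γ (gam_adj γ), by
      rintro N ⟨h1, h2⟩
      obtain ⟨B, rfl⟩ := (eqv hG).surjective N
      rw [mkIso_apply]
      show Sim G ((((γ : Equiv.Perm (Om G)) B).1 : Finset V) : Set V) ((B.1 : Finset V) : Set V)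
      rw [sim_iff]
      apply γ.2.2.2 B
      rintro (h3 | h3)
      · exact h1 (Ext1.iff.mpr ((pp_iff hZ).mp h3))
      · exact h2 (sim_iff.mpr h3)⟩
  have hf : Function.Injective f := by
    intro a b h
    have h1 : mkIso hG a (gam_adj a) = mkIso hG b (gam_adj b) := congrArg Subtype.val h
    apply Subtype.ext
    apply Equiv.ext
    intro B
    have h2 := mkIso_apply hG a (gam_adj a) B
    rw [h1, mkIso_apply] at h2
    exact ((eqv hG).injective h2).symm
  exact Nat.card_le_card_of_injective f hf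

/-- the permutations of the blocks from automorphisms of the quotient graph -/
def unIso (hG : Good G univ) (ψ : quo G ≃g quo G) : Equiv.Perm (Om G) :=
  (eqv hG).trans (ψ.toEquiv.trans (eqv hG).symm)

theorem unIso_apply (hG : Good G univ) (ψ : quo G ≃g quo G) (B : Om G) :
    eqv hG (unIso hG ψ B) = ψ (eqv hG B) := by
  show eqv hG ((eqv hG).symm (ψ (eqv hG B))) = _
  rw [Equiv.apply_symm_apply]

theorem unIso_adj (hG : Good G univ) (ψ : quo G ≃g quo G) (B B' : Om G) :
    (qg G).Adj (unIso hG ψ B) (unIso hG ψ B') ↔ (qg G).Adj B B' := by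
  rw [← eqv_adj hG, ← eqv_adj hG, unIso_apply, unIso_apply]
  exact ψ.map_rel_iff

theorem unIso_ty (hG : Good G univ) (ψ : AutP G (fun _ => True)) (B : Om G) :
    ty G (unIso hG ψ.1 B).1 = ty G B.1 := by
  have h := ψ.2 (eqv hG B) trivial
  rw [← unIso_apply] at h
  exact sim_iff.mp h

theorem card_ind {α : Type} [Fintype α] (P : α → Prop) :
    (Nat.card {a // P a} : ℤ) = ∑ a, ind (P a) := by
  unfold ind
  rw [sum_boole, Nat.card_eq_fintype_card, Fintype.card_subtype]

theorem card_le_NN (hG : Good G univ) (p : Ty V → Prop) (z : Ty V) :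
    (Nat.card (AutP G (fun _ => True)) : ℤ) ≤ NN (phi G p z) (QG G p) (QG G p) := by
  have h1 : NN (phi G p z) (QG G p) (QG G p) =
      (Nat.card {γ : Gam G p z // ∀ x ∈ QG G p, phi G p z γ x ∈ QG G p} : ℤ) := by
    exact (card_ind (fun γ : Gam G p z => ∀ x ∈ QG G p, phi G p z γ x ∈ QG G p)).symm
  rw [h1, Nat.cast_le]
  have h2 : ∀ ψ : AutP G (fun _ => True), unIso hG ψ.1 ∈ Gam G p z := by
    intro ψ
    refine ⟨fun B B' h => ?_, fun B => ?_, fun B _ => ?_⟩
    · have h3 := unIso_adj hG ψ.1 B B'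
      constructor
      · intro h4
        exact (h3.mpr ⟨h, h4⟩).2
      · intro h4
        exact (h3.mp ⟨(unIso hG ψ.1).injective.ne h, h4⟩).2
    · rw [unIso_ty]
    · exact unIso_ty hG ψ B
  apply Nat.card_le_card_of_injective (fun ψ : AutP G (fun _ => True) =>
    (⟨⟨unIso hG ψ.1, h2 ψ⟩, by
      rintro ⟨B, t⟩ hx
      rw [mem_QG] at hx
      rw [phi_apply, mem_QG]
      dsimp only at hx ⊢
      rw [unIso_ty]
      exact hx⟩ : {γ : Gam G p z // ∀ x ∈ QG G p, phi G p z γ x ∈ QG G p}))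
  intro a b h
  have h3 : unIso hG a.1 = unIso hG b.1 := congrArg (fun q => (q.1.1 : Equiv.Perm (Om G))) h
  apply Subtype.ext
  apply RelIso.toEquiv_injective
  ext1 N
  obtain ⟨B, rfl⟩ := (eqv hG).surjective N
  show a.1 (eqv hG B) = b.1 (eqv hG B)
  rw [← unIso_apply, ← unIso_apply, h3]

theorem card_QG (hG : Good G univ) {Z : Finset V} (hZ : 0 < Z.card) :
    (QG G (pp G Z)).card = Nat.card {N : Finset V // IsMaxModule G N ∧ Ext1 G Z N} := by
  rw [Nat.card_eq_fintype_card, Fintype.card_subtype]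
  have h1 : (QG G (pp G Z)).image (fun q => q.1.1) =
      univ.filter (fun N : Finset V => IsMaxModule G N ∧ Ext1 G Z N) := by
    ext N
    rw [mem_image, mem_filter]
    constructor
    · rintro ⟨⟨⟨B, hB⟩, t⟩, hq, rfl⟩
      have h2 := (mem_QG.mp hq).1
      exact ⟨mem_univ _, (mem_om hG _).mp hB, Ext1.iff.mpr ((pp_iff hZ).mp h2)⟩
    · rintro ⟨_, h2, h3⟩
      refine ⟨(⟨N, (mem_om hG _).mpr h2⟩, ty G N), mem_QG.mpr ⟨?_, rfl⟩, rfl⟩
      exact (pp_iff hZ).mpr (Ext1.iff.mp h3)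
  rw [← h1, card_image_of_injOn]
  rintro ⟨B, t⟩ hq ⟨B', t'⟩ hq' h
  have e1 := (mem_QG.mp (mem_coe.mp hq)).2
  have e2 := (mem_QG.mp (mem_coe.mp hq')).2
  have h' : B = B' := Subtype.ext h
  subst h'
  dsimp only at e1 e2
  rw [e1, e2]

/-- **Theorem.** -/
theorem thm_nw (G : SimpleGraph V) (hn : 8 ≤ Fintype.card V) (M : Finset V) (v : V)
    (hM : IsMaxModule G M) (hv : v ∈ M) (hMv : M ≠ {v})
    (hlt : 2 * Nat.card (AutP G (fun N => ¬ Ext1 G {x | x ∈ M ∧ x ≠ v} N ∧
        ¬ Sim G N {x | x ∈ M ∧ x ≠ v})) <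
      2 ^ Nat.card {N : Finset V // IsMaxModule G N ∧ Ext1 G {x | x ∈ M ∧ x ≠ v} N} *
        Nat.card (AutP G (fun _ => True))) :
    Reconstructible G ∧ Reconstructible Gᶜ := by
  have h2 : 2 ≤ M.card := by
    by_contra hcon
    have h1 := card_pos.mpr ⟨v, hv⟩
    obtain ⟨a, ha⟩ := card_eq_one.mp (by omega : M.card = 1)
    rw [ha, mem_singleton] at hv
    exact hMv (by rw [ha, hv])
  rw [er_set] at hlt
  have hZ : 0 < (M.erase v).card := by
    rw [card_erase_of_mem hv]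
    omega
  refine rec_ctx G hn (fun hG => ?_) (fun H π c hN => ?_)
  · obtain ⟨x, rfl⟩ := (max_iff hG M).mp hM
    exact ⟨x, h2⟩
  · have hG := c.gG
    have e : blk G univ v = M := by
      obtain ⟨x, rfl⟩ := (max_iff hG M).mp hM
      exact blk_eq hG (mem_univ x) hv
    let j0 : Jt G (pp G (M.erase v)) (ty G (M.erase v)) :=
      ⟨v, by rw [e]; exact (pp_iff hZ).mpr ⟨v, hv, rfl⟩, by rw [e]⟩
    have hdk := dk c hN par_pp j0
    have hno := no_match c hN par_pp j0
    apply hno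
    apply hdk.nw
    have k1 := card_gam_le hG hZ
    have k2 := card_le_NN hG (pp G (M.erase v)) (ty G (M.erase v))
    rw [card_QG hG hZ]
    set a := Fintype.card (Gam G (pp G (M.erase v)) (ty G (M.erase v)))
    set q := Nat.card {N : Finset V // IsMaxModule G N ∧ Ext1 G (M.erase v : Finset V) N}
    set b := Nat.card (AutP G (fun _ => True))
    have k3 : 2 * a < 2 ^ q * b := lt_of_le_of_lt (Nat.mul_le_mul_left 2 k1) hlt
    have k4 : (2 * (a : ℤ)) < 2 ^ q * (b : ℤ) := by exact_mod_cast k3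
    calc 2 * (a : ℤ) < 2 ^ q * (b : ℤ) := k4
      _ ≤ _ := mul_le_mul_of_nonneg_left k2 (by positivity)

theorem ty_single (a b : V) : ty G {a} = ty G {b} := by
  rw [ty_eq]
  refine ⟨Equiv.swap a b, ?_, fun x hx y hy => ?_⟩
  · ext y
    rw [mem_mp, mem_singleton, mem_singleton, Equiv.symm_apply_eq, Equiv.swap_apply_left]
  · rw [mem_singleton] at hx hy
    rw [hx, hy]
    exact ⟨fun h => absurd h G.irrefl, fun h => absurd h G.irrefl⟩

/-- many modules with two vertices -/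
theorem thm_pairs (G : SimpleGraph V) (hn : 8 ≤ Fintype.card V)
    (hlt : 2 * Nat.card (quo G ≃g quo G) <
      2 ^ Nat.card {N : Finset V // IsMaxModule G N ∧ N.card = 2}) :
    Reconstructible G ∧ Reconstructible Gᶜ := by
  have hfin : Finite (quo G ≃g quo G) := by
    apply Finite.of_injective (fun ψ : quo G ≃g quo G => ψ.toEquiv)
    intro a b h
    exact RelIso.toEquiv_injective h
  have h1 : 0 < Nat.card (quo G ≃g quo G) := Nat.card_pos_iff.mpr ⟨⟨RelIso.refl _⟩, hfin⟩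
  have h2 : Nat.card {N : Finset V // IsMaxModule G N ∧ N.card = 2} ≠ 0 := by
    intro h
    rw [h] at hlt
    omega
  obtain ⟨⟨M, hM, hM2⟩⟩ : Nonempty {N : Finset V // IsMaxModule G N ∧ N.card = 2} :=
    (Nat.card_ne_zero.mp h2).1
  obtain ⟨v, hv⟩ := hM.1
  obtain ⟨u, hu⟩ := card_eq_one.mp (by rw [card_erase_of_mem hv, hM2] : (M.erase v).card = 1)
  apply thm_nw G hn M v hM hv (fun h => by rw [h, card_singleton] at hM2; omega)
  rw [er_set]
  have h3 : ∀ N : Finset V, Ext1 G (M.erase v : Finset V) N ↔ N.card = 2 := by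
    intro N
    rw [Ext1.iff]
    constructor
    · rintro ⟨w, hw, h⟩
      have h4 := (ty_eq.mp h).card
      rw [card_erase_of_mem hw, card_erase_of_mem hv] at h4
      have := card_pos.mpr ⟨w, hw⟩
      omega
    · intro h
      obtain ⟨w, hw⟩ := card_pos.mp (by omega : 0 < N.card)
      obtain ⟨t, ht⟩ := card_eq_one.mp (by rw [card_erase_of_mem hw, h] : (N.erase w).card = 1)
      refine ⟨w, hw, ?_⟩
      rw [hu, ht]
      exact ty_single t u
  have h4 : {N : Finset V // IsMaxModule G N ∧ Ext1 G (M.erase v : Finset V) N} =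
      {N : Finset V // IsMaxModule G N ∧ N.card = 2} := by
    congr 1
    funext N
    rw [h3]
  rw [h4]
  have h5 : Nat.card (AutP G (fun N => ¬ Ext1 G (M.erase v : Finset V) N ∧
      ¬ Sim G N (M.erase v : Finset V))) ≤ Nat.card (quo G ≃g quo G) :=
    Nat.card_le_card_of_injective (fun ψ => ψ.1) (fun _ _ h => Subtype.ext h)
  have h6 : 0 < Nat.card (AutP G (fun _ => True)) :=
    Nat.card_pos_iff.mpr ⟨⟨⟨RelIso.refl _, fun N _ => ⟨RelIso.refl _⟩⟩⟩, inferInstance⟩
  set k := Nat.card {N : Finset V // IsMaxModule G N ∧ N.card = 2}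
  have h7 : 2 ^ k ≤ 2 ^ k * Nat.card (AutP G (fun _ => True)) := Nat.le_mul_of_pos_right _ h6
  omega

end Pool.Agent.L7h41.MD
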