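import Pool.Agent.L7h41.MD.Twin

set_option autoImplicit false
set_option linter.unusedSectionVars false

/-!
# A graph hypomorphic to a graph with a nontrivial module has a nontrivial module
-/

namespace Pool.Agent.L7h41.MD

open Finset Classical
open Pool.Agent.H234RC (Hypo NonIso)
open Pool.Agent.TH403.FLP (hypo_symm pi_ne pi_symm_ne ds dd mem_ds dd_comm)

variable {V : Type} [Fintype V] {G H K : SimpleGraph V} {π : V → Equiv.Perm V}
  {v w x y z d : V} {N : Finset V}

theorem exists_out (hN : N.card + 3 ≤ Fintype.card V) (a b : V) : ∃ q, q ∉ N ∧ q ≠ a ∧ q ≠ b := by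
  have h : (N ∪ {a, b}).card < (univ : Finset V).card := by
    rw [card_univ]
    have h1 := card_union_le N {a, b}
    have h2 : ({a, b} : Finset V).card ≤ 2 := card_le_two
    omega
  obtain ⟨q, _, hq⟩ := exists_mem_notMem_of_card_lt_card h
  rw [mem_union, mem_insert, mem_singleton, not_or, not_or] at hq
  exact ⟨q, hq.1, hq.2.1, hq.2.2⟩

theorem mem_W : x ∈ (univ.erase v : Finset V) ↔ x ≠ v := by
  rw [mem_erase]
  exact ⟨fun h => h.1, fun h => ⟨h, mem_univ _⟩⟩

theorem exists_W {D : Finset V} (h1 : D ⊆ univ.erase v) (h2 : D ≠ univ.erase v) :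
    ∃ p, p ≠ v ∧ p ∉ D := by
  by_contra hcon
  push Not at hcon
  apply h2
  apply subset_antisymm h1
  intro x hx
  exact hcon x (mem_W.mp hx)

theorem factF (hp : ∀ N, Mod H univ N → 2 ≤ N.card → N = univ)
    (hG : Good H (univ.erase v)) (hd : d ≠ v) (hD2 : 2 ≤ (blk H (univ.erase v) d).card)
    (hy : y ∈ blk H (univ.erase v) d) (hN : Mod H (univ.erase y) N) (hN2 : 2 ≤ N.card)
    (hN3 : N.card + 3 ≤ Fintype.card V) :
    N ⊆ (blk H (univ.erase v) d).erase y ∨ (v ∈ N ∧
      Disjoint (N.erase v) (blk H (univ.erase v) d) ∧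
      Mod H (univ.erase v) (N.erase v) ∧ N.erase v ≠ univ.erase v) := by
  have hdW : d ∈ (univ.erase v : Finset V) := mem_W.mpr hd
  have hD := blk_mod hG hdW
  have hDne := blk_ne hG hdW
  have hdD := self_mem_blk hG hdW
  have hsubD : ∀ {N'}, Mod H (univ.erase v) N' → N' ≠ univ.erase v → d ∈ N' →
    N' ⊆ blk H (univ.erase v) d := fun h1 h2 h3 => subset_blk h1 h2 h3
  set D := blk H (univ.erase v) d with hDdef
  obtain ⟨e, heD, hey⟩ := exists_mem_ne (by omega : 1 < D.card) y
  have hyv : y ≠ v := mem_W.mp (hD.1 hy)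
  have hev : e ≠ v := mem_W.mp (hD.1 heD)
  have hyN : y ∉ N := fun h => (mem_W.mp (hN.1 h)) rfl
  obtain ⟨p, hpv, hpD⟩ := exists_W hD.1 hDne
  -- the constant adjacency
  have cst : ∀ q, q ∈ D → q ∉ N → q ≠ y → (∀ n, n ≠ v → n ∉ D → n ∈ N) → False := by
    intro q hqD hqN hqy hall
    refine hG.2 (univ.erase v \ D) sdiff_subset ⟨p, mem_sdiff.mpr ⟨mem_W.mpr hpv, hpD⟩⟩ ?_
      (H.Adj p q) ?_
    · rw [Finset.sdiff_sdiff_eq_self hD.1]
      exact ⟨d, hdD⟩
    · rw [Finset.sdiff_sdiff_eq_self hD.1]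
      intro n hn m hm
      rw [mem_sdiff, mem_W] at hn
      have h1 : H.Adj n m ↔ H.Adj n q := hD.2 n (mem_W.mpr hn.1) hn.2 m hm q hqD
      have h2 : H.Adj q n ↔ H.Adj q p := hN.2 q (mem_W.mpr hqy) hqN n (hall n hn.1 hn.2) p
        (hall p hpv hpD)
      rw [h1, H.adj_comm, h2, H.adj_comm]
  by_cases hvN : v ∈ N
  · right
    by_cases hdis : Disjoint (N.erase v) D
    · have hnD : ∀ n ∈ N, n ≠ v → n ∉ D := fun n hn hnv hnD =>
        Finset.disjoint_left.mp hdis (mem_erase.mpr ⟨hnv, hn⟩) hnD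
      refine ⟨hvN, hdis, ⟨erase_subset_erase v (subset_univ _), fun z hz hzn a ha b hb => ?_⟩, ?_⟩
      · rw [mem_W] at hz
        have hzN : z ∉ N := fun h => hzn (mem_erase.mpr ⟨hz, h⟩)
        rw [mem_erase] at ha hb
        by_cases hzy : z = y
        · have heN : e ∉ N := fun h => hnD e h hev heD
          have k : ∀ n ∈ N, n ≠ v → (H.Adj y n ↔ H.Adj e n) := by
            intro n hn hnv
            rw [H.adj_comm, hD.2 n (mem_W.mpr hnv) (hnD n hn hnv) y hy e heD, H.adj_comm]
          rw [hzy, k a ha.2 ha.1, k b hb.2 hb.1]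
          exact hN.2 e (mem_W.mpr hey) heN a ha.2 b hb.2
        · exact hN.2 z (mem_W.mpr hzy) hzN a ha.2 b hb.2
      · intro h
        have : y ∈ N.erase v := by rw [h]; exact mem_W.mpr hyv
        exact hyN (mem_erase.mp this).2
    · exfalso
      rw [Finset.not_disjoint_iff] at hdis
      obtain ⟨t, htN, htD⟩ := hdis
      rw [mem_erase] at htN
      have hm : Mod H (univ.erase v) (N.erase v ∪ D) := by
        refine ⟨union_subset (erase_subset_erase v (subset_univ _)) hD.1,
          fun z hz hzn a ha b hb => ?_⟩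
        rw [mem_union, not_or, mem_erase] at hzn
        rw [mem_W] at hz
        have hzN : z ∉ N := fun h => hzn.1 ⟨hz, h⟩
        have hzy : z ≠ y := fun h => hzn.2 (h ▸ hy)
        have k : ∀ a ∈ N.erase v ∪ D, (H.Adj z a ↔ H.Adj z t) := by
          intro a ha
          rcases mem_union.mp ha with h | h
          · exact hN.2 z (mem_W.mpr hzy) hzN a (mem_erase.mp h).2 t htN.2
          · exact hD.2 z (mem_W.mpr hz) hzn.2 a h t htD
        exact (k a ha).trans (k b hb).symm
      by_cases hND : N.erase v ∪ D = univ.erase v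
      · obtain ⟨q, hqN, hqy, _⟩ := exists_out hN3 y y
        have hqv : q ≠ v := fun h => hqN (h ▸ hvN)
        have hqD : q ∈ D := by
          have : q ∈ N.erase v ∪ D := by rw [hND]; exact mem_W.mpr hqv
          rcases mem_union.mp this with h | h
          · exact absurd (mem_erase.mp h).2 hqN
          · exact h
        refine cst q hqD hqN hqy (fun n hnv hnD => ?_)
        have : n ∈ N.erase v ∪ D := by rw [hND]; exact mem_W.mpr hnv
        rcases mem_union.mp this with h | h
        · exact (mem_erase.mp h).2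
        · exact absurd h hnD
      · have hsub := hsubD hm hND (mem_union_right _ hdD)
        have hND' : ∀ n ∈ N, n ≠ v → n ∈ D := fun n hn hnv =>
          hsub (mem_union_left _ (mem_erase.mpr ⟨hnv, hn⟩))
        have hm2 : Mod H univ (insert v D) := by
          refine ⟨subset_univ _, fun z _ hzn a ha b hb => ?_⟩
          rw [mem_insert, not_or] at hzn
          have hzN : z ∉ N := fun h => hzn.2 (hND' z h hzn.1)
          have hzy : z ≠ y := fun h => hzn.2 (h ▸ hy)
          have k : ∀ a ∈ insert v D, (H.Adj z a ↔ H.Adj z t) := by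
            intro a ha
            rcases mem_insert.mp ha with h | h
            · rw [h]
              exact hN.2 z (mem_W.mpr hzy) hzN v hvN t htN.2
            · exact hD.2 z (mem_W.mpr hzn.1) hzn.2 a h t htD
          exact (k a ha).trans (k b hb).symm
        have h2 := hp _ hm2 ((by omega : 2 ≤ D.card).trans (card_le_card (subset_insert v D)))
        have : p ∈ insert v D := by rw [h2]; exact mem_univ _
        rcases mem_insert.mp this with h | h
        · exact hpv h
        · exact hpD h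
  · left
    by_cases hdis : Disjoint N (D.erase y)
    · exfalso
      have hnD : ∀ n ∈ N, n ∉ D := by
        intro n hn hnD
        refine Finset.disjoint_left.mp hdis hn (mem_erase.mpr ⟨fun h => hyN (h ▸ hn), hnD⟩)
      have hm : Mod H univ N := by
        refine ⟨subset_univ _, fun z _ hzn a ha b hb => ?_⟩
        by_cases hzy : z = y
        · have heN : e ∉ N := fun h => hnD e h heD
          have k : ∀ n ∈ N, (H.Adj y n ↔ H.Adj e n) := by
            intro n hn
            have hnv : n ≠ v := fun h => hvN (h ▸ hn)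
            rw [H.adj_comm, hD.2 n (mem_W.mpr hnv) (hnD n hn) y hy e heD, H.adj_comm]
          rw [hzy, k a ha, k b hb]
          exact hN.2 e (mem_W.mpr hey) heN a ha b hb
        · exact hN.2 z (mem_W.mpr hzy) hzn a ha b hb
      have := hp N hm hN2
      exact hyN (by rw [this]; exact mem_univ _)
    · rw [Finset.not_disjoint_iff] at hdis
      obtain ⟨t, htN, htD⟩ := hdis
      rw [mem_erase] at htD
      have hNW : ∀ n ∈ N, n ≠ v := fun n hn h => hvN (h ▸ hn)
      have hm : Mod H (univ.erase v) (N ∪ D) := by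
        refine ⟨union_subset (fun n hn => mem_W.mpr (hNW n hn)) hD.1,
          fun z hz hzn a ha b hb => ?_⟩
        rw [mem_union, not_or] at hzn
        rw [mem_W] at hz
        have hzy : z ≠ y := fun h => hzn.2 (h ▸ hy)
        have k : ∀ a ∈ N ∪ D, (H.Adj z a ↔ H.Adj z t) := by
          intro a ha
          rcases mem_union.mp ha with h | h
          · exact hN.2 z (mem_W.mpr hzy) hzn.1 a h t htN
          · exact hD.2 z (mem_W.mpr hz) hzn.2 a h t htD.2
        exact (k a ha).trans (k b hb).symm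
      by_cases hND : N ∪ D = univ.erase v
      · exfalso
        obtain ⟨q, hqN, hqy, hqv⟩ := exists_out hN3 y v
        have hqD : q ∈ D := by
          have : q ∈ N ∪ D := by rw [hND]; exact mem_W.mpr hqv
          rcases mem_union.mp this with h | h
          · exact absurd h hqN
          · exact h
        refine cst q hqD hqN hqy (fun n hnv hnD => ?_)
        have : n ∈ N ∪ D := by rw [hND]; exact mem_W.mpr hnv
        rcases mem_union.mp this with h | h
        · exact h
        · exact absurd h hnD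
      · have hsub := hsubD hm hND (mem_union_right _ hdD)
        intro n hn
        exact mem_erase.mpr ⟨fun h => hyN (h ▸ hn), hsub (mem_union_left _ hn)⟩

theorem lemG {D N1 N2 : Finset V} {w1 w2 : V}
    (hp : ∀ N, Mod H univ N → 2 ≤ N.card → N = univ)
    (hD : Mod H (univ.erase v) D) (h1 : w1 ∈ D) (h2 : w2 ∈ D) (h12 : w1 ≠ w2)
    (hN1 : Mod H (univ.erase w1) N1) (hN2 : Mod H (univ.erase w2) N2) (hv1 : v ∈ N1)
    (hv2 : v ∈ N2) (hc1 : 2 ≤ N1.card) (hd1 : Disjoint (N1.erase v) D)
    (hd2 : Disjoint (N2.erase v) D) :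
    ¬ (H.Adj w1 v ↔ H.Adj w2 v) ∧ ∀ n, n ∈ N1 → n ∈ N2 → n = v := by
  have hw1v : w1 ≠ v := mem_W.mp (hD.1 h1)
  have hw2v : w2 ≠ v := mem_W.mp (hD.1 h2)
  have hw2N : w2 ∉ N1 := fun h => Finset.disjoint_left.mp hd1 (mem_erase.mpr ⟨hw2v, h⟩) h2
  have hw1N : w1 ∉ N2 := fun h => Finset.disjoint_left.mp hd2 (mem_erase.mpr ⟨hw1v, h⟩) h1
  have hw1N1 : w1 ∉ N1 := fun h => mem_W.mp (hN1.1 h) rfl
  have k : ∀ n ∈ N1, n ≠ v → (H.Adj w1 n ↔ H.Adj w2 n) := by
    intro n hn hnv
    have hnD : n ∉ D := fun h => Finset.disjoint_left.mp hd1 (mem_erase.mpr ⟨hnv, hn⟩) h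
    rw [H.adj_comm, hD.2 n (mem_W.mpr hnv) hnD w1 h1 w2 h2, H.adj_comm]
  have i : ¬ (H.Adj w1 v ↔ H.Adj w2 v) := by
    intro hcon
    have hm : Mod H univ N1 := by
      refine ⟨subset_univ _, fun z _ hzn a ha b hb => ?_⟩
      by_cases hz : z = w1
      · have k2 : ∀ n ∈ N1, (H.Adj w1 n ↔ H.Adj w1 v) := by
          intro n hn
          by_cases hnv : n = v
          · rw [hnv]
          · rw [k n hn hnv, hN1.2 w2 (mem_W.mpr h12.symm) hw2N n hn v hv1, hcon]
        rw [hz, k2 a ha, k2 b hb]
      · exact hN1.2 z (mem_W.mpr hz) hzn a ha b hb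
    have := hp N1 hm hc1
    exact hw1N1 (by rw [this]; exact mem_univ _)
  refine ⟨i, fun n hn1 hn2 => ?_⟩
  by_contra hnv
  apply i
  rw [← hN1.2 w2 (mem_W.mpr h12.symm) hw2N n hn1 v hv1,
    ← hN2.2 w1 (mem_W.mpr h12) hw1N n hn2 v hv2]
  exact k n hn1 hnv

theorem lemP (hG : Good G univ) (hH : Hypo G H π)
    (hp : ∀ N, Mod H univ N → 2 ≤ N.card → N = univ) (x0 : V)
    (h3 : 3 ≤ (blk G univ x0).card) : False := by
  have hM := blk_mod hG (mem_univ x0)
  have hn := blk_three hG (mem_univ x0)
  have hx0M := self_mem_blk hG (mem_univ x0)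
  have hMb : ∀ u ∈ blk G univ x0, blk G univ u = blk G univ x0 :=
    fun u hu => blk_eq hG (mem_univ x0) hu
  set M := blk G univ x0 with hMdef
  have hcM : M.card + 3 ≤ Fintype.card V := by
    rw [← compl_eq_univ_sdiff, card_compl] at hn
    have := card_le_univ M
    omega
  have hcb : ∀ b, (blk G univ b).card + 3 ≤ Fintype.card V := by
    intro b
    have hn := blk_three hG (mem_univ b)
    rw [← compl_eq_univ_sdiff, card_compl] at hn
    have := card_le_univ (blk G univ b)
    omega
  let Nw : V → Finset V := fun w => mp (π w) (M.erase w)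
  have hNw : ∀ w, Mod H (univ.erase w) (Nw w) := fun w => hyp_mod hH (hM.erase w)
  have hNwc : ∀ w, M.card - 1 ≤ (Nw w).card ∧ (Nw w).card ≤ M.card := by
    intro w
    show M.card - 1 ≤ (mp (π w) (M.erase w)).card ∧ (mp (π w) (M.erase w)).card ≤ M.card
    rw [card_mp]
    exact ⟨pred_card_le_card_erase, card_erase_le⟩
  have h2M : ∀ v ∈ M, 2 ≤ (blk G univ v).card := by
    intro v hv
    rw [hMb v hv]
    omega
  have hgood : ∀ v ∈ M, Good H (univ.erase v) := fun v hv =>
    hyp_good hH (good_erase hG (mem_univ v) (h2M v hv))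
  have hD : ∀ v ∈ M, ∃ d, d ≠ v ∧ blk H (univ.erase v) d = Nw v := by
    intro v hv
    obtain ⟨u, hu, huv⟩ := exists_mem_ne (by omega : 1 < M.card) v
    refine ⟨π v u, (pi_ne hH v u).mpr huv, ?_⟩
    rw [hyp_blk hH, blk_erase hG (mem_univ v) (h2M v hv) (mem_W.mpr huv), hMb u hu]
  have hDc : ∀ v ∈ M, (Nw v).card = M.card - 1 := by
    intro v hv
    show (mp (π v) (M.erase v)).card = _
    rw [card_mp, card_erase_of_mem hv]
  have key1 : ∀ v ∈ M, ∀ w ∈ Nw v, v ∈ Nw w ∧ Disjoint ((Nw w).erase v) (Nw v) ∧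
      Mod H (univ.erase v) ((Nw w).erase v) ∧ (Nw w).erase v ≠ univ.erase v := by
    intro v hv w hw
    obtain ⟨d, hdv, hd⟩ := hD v hv
    have hc := hDc v hv
    have := factF hp (hgood v hv) hdv (by rw [hd]; omega) (by rw [hd]; exact hw) (hNw w)
      (by have := hNwc w; omega) (by have := hNwc w; omega)
    rw [hd] at this
    rcases this with h | h
    · exfalso
      have h1 := card_le_card h
      rw [card_erase_of_mem hw] at h1
      have := hNwc w
      omega
    · exact h
  have key2 : M.card = 3 := by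
    by_contra hne
    have hc := hDc x0 hx0M
    obtain ⟨d, hdv, hd⟩ := hD x0 hx0M
    have hDm : Mod H (univ.erase x0) (Nw x0) := hNw x0
    obtain ⟨w1, w2, w3, hw1, hw2, hw3, h12, h13, h23⟩ := two_lt_card_iff.mp
      (by omega : 2 < (Nw x0).card)
    obtain ⟨a1, b1, _, _⟩ := key1 x0 hx0M w1 hw1
    obtain ⟨a2, b2, _, _⟩ := key1 x0 hx0M w2 hw2
    obtain ⟨a3, b3, _, _⟩ := key1 x0 hx0M w3 hw3
    have c1 := (lemG hp hDm hw1 hw2 h12 (hNw w1) (hNw w2) a1 a2 (by have := hNwc w1; omega)
      b1 b2).1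
    have c2 := (lemG hp hDm hw1 hw3 h13 (hNw w1) (hNw w3) a1 a3 (by have := hNwc w1; omega)
      b1 b3).1
    have c3 := (lemG hp hDm hw2 hw3 h23 (hNw w2) (hNw w3) a2 a3 (by have := hNwc w2; omega)
      b2 b3).1
    tauto
  have key3 : ∀ v ∈ M, ∀ w ∈ Nw v, ∀ b, 2 ≤ ((blk G univ b).erase w).card → b ∈ M := by
    intro v hv w hw b hb
    obtain ⟨d, hdv, hd⟩ := hD v hv
    have hc := hDc v hv
    have hb' := hcb b
    have hbm : Mod H (univ.erase w) (mp (π w) ((blk G univ b).erase w)) :=
      hyp_mod hH ((blk_mod hG (mem_univ b)).erase w)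
    have hle : ((blk G univ b).erase w).card ≤ (blk G univ b).card := card_erase_le
    have := factF hp (hgood v hv) hdv (by rw [hd]; omega) (by rw [hd]; exact hw) hbm
      (by rw [card_mp]; exact hb) (by rw [card_mp]; omega)
    rw [hd] at this
    rcases this with h | h
    · exfalso
      have h1 := card_le_card h
      rw [card_erase_of_mem hw, card_mp] at h1
      omega
    · have h1 := mem_mp.mp h.1
      have h2 := mem_mp.mp (key1 v hv w hw).1
      rw [mem_erase] at h1 h2
      have e1 := blk_eq hG (mem_univ b) h1.2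
      have e2 := hMb _ h2.2
      rw [← e2, e1]
      exact self_mem_blk hG (mem_univ b)
  -- the structure when some `w` is outside of `M`
  have key4 : ∀ v ∈ M, ∀ w ∈ Nw v, w ∉ M → ∃ b, b ∉ M ∧
      (Nw w).erase v = mp (π v) (blk G univ b) ∧ ∀ w' ∈ Nw v, w' ∈ blk G univ b := by
    intro v hv w hw hwM
    obtain ⟨a1, a2, a3, a4⟩ := key1 v hv w hw
    have hcN : (Nw w).card = 3 := by
      show (mp (π w) (M.erase w)).card = 3
      rw [card_mp, erase_eq_of_notMem hwM, key2]
    have hcN' : ((Nw w).erase v).card = 2 := by rw [card_erase_of_mem a1, hcN]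
    obtain ⟨c, hc⟩ := card_pos.mp (by omega : 0 < ((Nw w).erase v).card)
    have hcv : c ≠ v := (mem_erase.mp hc).1
    have hsub := subset_blk a3 a4 hc
    set b := (π v).symm c with hb
    have hbc : π v b = c := by rw [hb, Equiv.apply_symm_apply]
    have hbv : b ≠ v := (pi_symm_ne hH v c).mpr hcv
    have hbM : b ∉ M := by
      intro h
      apply Finset.disjoint_left.mp a2 hc
      rw [← hbc]
      exact apply_mem_mp.mpr (mem_erase.mpr ⟨hbv, h⟩)
    have hvb : v ∉ blk G univ b := by
      intro h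
      apply hbM
      have := blk_eq hG (mem_univ b) h
      rw [hMb v hv] at this
      rw [this]
      exact self_mem_blk hG (mem_univ b)
    have hblk : blk H (univ.erase v) c = mp (π v) (blk G univ b) := by
      rw [← hbc, hyp_blk hH, blk_erase hG (mem_univ v) (h2M v hv) (mem_W.mpr hbv),
        erase_eq_of_notMem hvb]
    rw [hblk] at hsub
    have hcb2 : 2 ≤ (blk G univ b).card := by
      have := card_le_card hsub
      rw [card_mp, hcN'] at this
      exact this
    have hw' : ∀ w' ∈ Nw v, w' ∈ blk G univ b := by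
      intro w' hw'
      by_contra hcon
      apply hbM
      apply key3 v hv w' hw' b
      rw [erase_eq_of_notMem hcon]
      exact hcb2
    have hcb3 : (blk G univ b).card ≤ 2 := by
      by_contra hcon
      apply hbM
      apply key3 v hv w hw b
      rw [card_erase_of_mem (hw' w hw)]
      omega
    refine ⟨b, hbM, ?_, hw'⟩
    apply eq_of_subset_of_card_le hsub
    rw [card_mp, hcN']
    exact hcb3
  have key5 : ∀ v ∈ M, ∀ w ∈ Nw v, w ∈ M := by
    intro v hv w hw
    by_contra hwM
    obtain ⟨b, hbM, hb1, hb2⟩ := key4 v hv w hw hwM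
    have hc := hDc v hv
    obtain ⟨w', hw', hne⟩ := exists_mem_ne (by omega : 1 < (Nw v).card) w
    have hw'b := hb2 w' hw'
    have hw'M : w' ∉ M := by
      intro h
      apply hbM
      have := blk_eq hG (mem_univ b) hw'b
      rw [hMb w' h] at this
      rw [this]
      exact self_mem_blk hG (mem_univ b)
    obtain ⟨b', hb'M, hb'1, hb'2⟩ := key4 v hv w' hw' hw'M
    have hbb : blk G univ b = blk G univ b' := by
      rw [← blk_eq hG (mem_univ b) (hb2 w hw), ← blk_eq hG (mem_univ b') (hb'2 w hw)]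
    have heq : (Nw w).erase v = (Nw w').erase v := by rw [hb1, hb'1, hbb]
    obtain ⟨a1, a2, _, _⟩ := key1 v hv w hw
    obtain ⟨a1', a2', _, _⟩ := key1 v hv w' hw'
    have hG2 := (lemG hp (hNw v) hw hw' hne.symm (hNw w) (hNw w') a1 a1'
      (by have := hNwc w; omega) a2 a2').2
    have hcN : 2 ≤ (Nw w).card := by have := hNwc w; omega
    obtain ⟨n, hn, hnv⟩ := exists_mem_ne (by omega : 1 < (Nw w).card) v
    apply hnv
    apply hG2 n hn
    have : n ∈ (Nw w).erase v := mem_erase.mpr ⟨hnv, hn⟩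
    rw [heq] at this
    exact (mem_erase.mp this).2
  have key6 : ∀ v ∈ M, Nw v = M.erase v := by
    intro v hv
    apply eq_of_subset_of_card_le
    · intro w hw
      refine mem_erase.mpr ⟨fun h => ?_, key5 v hv w hw⟩
      exact mem_W.mp ((hNw v).1 hw) h
    · rw [hDc v hv, card_erase_of_mem hv]
  obtain ⟨w1, hw1, hne1⟩ := exists_mem_ne (by omega : 1 < M.card) x0
  have h1 : w1 ∈ Nw x0 := by rw [key6 x0 hx0M]; exact mem_erase.mpr ⟨hne1, hw1⟩
  obtain ⟨_, a2, _, _⟩ := key1 x0 hx0M w1 h1
  rw [key6 w1 hw1, key6 x0 hx0M] at a2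
  obtain ⟨w2, hw2⟩ : ((M.erase x0).erase w1).Nonempty := by
    apply card_pos.mp
    rw [card_erase_of_mem (mem_erase.mpr ⟨hne1, hw1⟩), card_erase_of_mem hx0M]
    omega
  rw [mem_erase, mem_erase] at hw2
  exact Finset.disjoint_left.mp a2
    (mem_erase.mpr ⟨hw2.2.1, mem_erase.mpr ⟨hw2.1, hw2.2.2⟩⟩) (mem_erase.mpr ⟨hw2.2.1, hw2.2.2⟩)

theorem dd_zero_iff (K : SimpleGraph V) (a b : V) : dd K a b = 0 ↔ Mod K univ {a, b} := by
  unfold dd
  rw [card_eq_zero]
  constructor
  · intro h
    refine ⟨subset_univ _, fun z _ hz x hx y hy => ?_⟩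
    rw [mem_insert, mem_singleton, not_or] at hz
    have hz' : K.Adj a z ↔ K.Adj b z := by
      by_contra hcon
      have : z ∈ ds K a b := (mem_ds K a b z).mpr ⟨hz.1, hz.2, hcon⟩
      rw [h] at this
      exact notMem_empty _ this
    rw [mem_insert, mem_singleton] at hx hy
    rw [K.adj_comm a z, K.adj_comm b z] at hz'
    rcases hx with rfl | rfl <;> rcases hy with rfl | rfl
    · exact Iff.rfl
    · exact hz'
    · exact hz'.symm
    · exact Iff.rfl
  · intro h
    ext z
    rw [mem_ds]
    constructor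
    · rintro ⟨h1, h2, h3⟩
      exfalso
      apply h3
      rw [K.adj_comm a z, K.adj_comm b z]
      exact h.2 z (mem_univ _) (by simp [h1, h2]) a (by simp) b (by simp)
    · intro h'
      exact absurd h' (notMem_empty z)

/-- decomposability is recognizable -/
theorem recog (hn : 8 ≤ Fintype.card V) (hG : Good G univ) (hH : Hypo G H π)
    (h : ∃ x, 2 ≤ (blk G univ x).card) : ∃ x, 2 ≤ (blk H univ x).card := by
  by_contra hcon
  push Not at hcon
  have hp : ∀ N, Mod H univ N → 2 ≤ N.card → N = univ := by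
    intro N hN hN2
    by_contra hne
    obtain ⟨x, hx⟩ := card_pos.mp (by omega : 0 < N.card)
    have := card_le_card (subset_blk hN hne hx)
    have := hcon x
    omega
  obtain ⟨x, hx⟩ := h
  by_cases h3 : 3 ≤ (blk G univ x).card
  · exact lemP hG hH hp x h3
  · obtain ⟨a, b, hab, hs⟩ := card_eq_two.mp (by omega : (blk G univ x).card = 2)
    have hm := blk_mod hG (mem_univ x)
    rw [hs, ← dd_zero_iff] at hm
    obtain ⟨a', b', hab', h0, _⟩ := twin_exists hn hH hab hm
    have h1 := hp _ ((dd_zero_iff H a' b').mp h0) (by rw [card_pair hab'])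
    have h2 : ({a', b'} : Finset V).card = Fintype.card V := by rw [h1, card_univ]
    rw [card_pair hab'] at h2
    omega

theorem card_blk_pos (hG : Good G univ) (x : V) : 1 ≤ (blk G univ x).card :=
  card_pos.mpr ⟨x, self_mem_blk hG (mem_univ x)⟩

theorem blk_one (hG : Good G univ) (h : ¬ 2 ≤ (blk G univ v).card) : blk G univ v = {v} := by
  have h1 := card_blk_pos hG v
  obtain ⟨a, ha⟩ := card_eq_one.mp (by omega : (blk G univ v).card = 1)
  have h2 := self_mem_blk hG (mem_univ v)
  rw [ha, mem_singleton] at h2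
  rw [ha, h2]

theorem nb_both (hG : Good G univ) (hG' : Good H univ) (hH : Hypo G H π)
    (h1 : 2 ≤ (blk G univ v).card) (h2 : 2 ≤ (blk H univ v).card) : nb G univ = nb H univ := by
  rw [← nb_erase hG (mem_univ v) h1, ← nb_erase hG' (mem_univ v) h2, hyp_nb hH]

theorem nb_one (hG : Good G univ) (hG' : Good H univ) (hH : Hypo G H π)
    (h1 : 2 ≤ (blk G univ v).card) (h2 : ¬ 2 ≤ (blk H univ v).card) : nb G univ < nb H univ := by
  rw [← nb_erase hG (mem_univ v) h1, ← hyp_nb hH]
  exact nb_lt hG' (mem_univ v) (blk_one hG' h2)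
    (hyp_good hH (good_erase hG (mem_univ v) h1))

/-- the same vertices are in nontrivial maximal proper modules -/
theorem same_U (hn : 8 ≤ Fintype.card V) (hG : Good G univ) (hG' : Good H univ) (hH : Hypo G H π)
    (h : ∃ x, 2 ≤ (blk G univ x).card) (v : V) :
    2 ≤ (blk G univ v).card ↔ 2 ≤ (blk H univ v).card := by
  have hH' := hypo_symm hH
  obtain ⟨x, hx⟩ := h
  obtain ⟨y, hy⟩ := recog hn hG hH ⟨x, hx⟩
  constructor
  · intro h1
    by_contra h2
    have h3 := nb_one hG hG' hH h1 h2
    by_cases h4 : 2 ≤ (blk G univ y).card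
    · have := nb_both hG hG' hH h4 hy
      omega
    · have := nb_one hG' hG hH' hy h4
      omega
  · intro h1
    by_contra h2
    have h3 := nb_one hG' hG hH' h1 h2
    by_cases h4 : 2 ≤ (blk H univ x).card
    · have := nb_both hG hG' hH hx h4
      omega
    · have := nb_one hG hG' hH hx h4
      omega

end Pool.Agent.L7h41.MD
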