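import Pool.Agent.L7h41.MD.Ext

set_option autoImplicit false
set_option linter.unusedSectionVars false

/-!
# The theorems about quotient graphs
-/

namespace Pool.Agent.L7h41.MD

open Finset Classical
open Pool.Agent.H234RC (Hypo NonIso Reconstructible)

variable {V : Type} [Fintype V] {G H : SimpleGraph V} {π : V → Equiv.Perm V} {x0 : V}

/-- the quotient graph on the maximal proper modules -/
def quo (G : SimpleGraph V) : SimpleGraph {N : Finset V // IsMaxModule G N} where
  Adj A B := A ≠ B ∧ ∃ a ∈ A.1, ∃ b ∈ B.1, G.Adj a b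
  symm := ⟨fun _ _ h => ⟨h.1.symm, let ⟨a, ha, b, hb, hab⟩ := h.2; ⟨b, hb, a, ha, hab.symm⟩⟩⟩
  loopless := ⟨fun _ h => h.1 rfl⟩

theorem mem_om (hG : Good G univ) (N : Finset V) :
    N ∈ univ.image (blk G univ) ↔ IsMaxModule G N := by
  rw [max_iff hG, mem_image]
  constructor
  · rintro ⟨x, _, h⟩
    exact ⟨x, h.symm⟩
  · rintro ⟨x, h⟩
    exact ⟨x, mem_univ _, h.symm⟩

/-- the two descriptions of the maximal proper modules -/
def eqv (hG : Good G univ) : Om G ≃ {N : Finset V // IsMaxModule G N} :=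
  Equiv.subtypeEquivRight (mem_om hG)

theorem eqv_adj (hG : Good G univ) (B B' : Om G) :
    (quo G).Adj (eqv hG B) (eqv hG B') ↔ (qg G).Adj B B' := by
  show (eqv hG B ≠ eqv hG B' ∧ adjB G B.1 B'.1) ↔ (B ≠ B' ∧ adjB G B.1 B'.1)
  rw [(eqv hG).injective.ne_iff]

/-- **Theorem.** -/
theorem thm_quot (G : SimpleGraph V) (hn : 8 ≤ Fintype.card V)
    (hN : ∃ N, IsModule G N ∧ N ≠ univ ∧ 2 ≤ N.card) (M : {N : Finset V // IsMaxModule G N})
    (hp : ∀ F : Finset {N : Finset V // IsMaxModule G N}, M ∉ F → 2 ≤ F.card →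
      (∀ C, C ≠ M → C ∉ F → ∀ A ∈ F, ∀ B ∈ F, ((quo G).Adj C A ↔ (quo G).Adj C B)) →
      ∀ C, C ≠ M → C ∈ F)
    (hE : ∀ ψ : Equiv.Perm {N : Finset V // IsMaxModule G N},
      (∀ A B, A ≠ M → B ≠ M → ((quo G).Adj (ψ A) (ψ B) ↔ (quo G).Adj A B)) →
      ∀ A, A ≠ M → ((quo G).Adj (ψ A) (ψ M) ↔ (quo G).Adj A M)) :
    Reconstructible G ∧ Reconstructible Gᶜ := by
  obtain ⟨N, hN1, hN2, hN3⟩ := hN
  refine rec_ctx G hn (fun hG => ?_) (fun H π c hNI => ?_)
  · obtain ⟨x, hx⟩ := card_pos.mp (by omega : 0 < N.card)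
    exact ⟨x, hN3.trans (card_le_card (subset_blk (isModule_iff.mp hN1) hN2 hx))⟩
  · have hG := c.gG
    obtain ⟨x0, hx0⟩ := (max_iff hG M.1).mp M.2
    have hM : eqv hG (bk G x0) = M := Subtype.ext hx0.symm
    have hdel := del_prime (x0 := x0) hG (fun F hF h2 => by
      ext B
      have hMF : bk G x0 ∉ F := fun h => (mem_erase.mp (hF.1 h)).1 rfl
      rw [mem_erase]
      constructor
      · intro hB
        exact ⟨fun h => hMF (h ▸ hB), mem_univ _⟩
      · rintro ⟨hB, _⟩
        have h1 := hp (F.map (eqv hG).toEmbedding) (by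
            intro h
            obtain ⟨B, hB, hB'⟩ := mem_map.mp h
            rw [← hM] at hB'
            exact hMF ((eqv hG).injective hB' ▸ hB))
          (by rw [card_map]; exact h2)
          (by
            intro C hC hCF A hA B hB
            obtain ⟨A, hA', rfl⟩ := mem_map.mp hA
            obtain ⟨B, hB', rfl⟩ := mem_map.mp hB
            obtain ⟨C, rfl⟩ := (eqv hG).surjective C
            show (quo G).Adj (eqv hG C) (eqv hG A) ↔ (quo G).Adj (eqv hG C) (eqv hG B)
            rw [eqv_adj, eqv_adj]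
            refine hF.2 C (mem_erase.mpr ⟨fun h => hC (by rw [h, hM]), mem_univ _⟩)
              (fun h => hCF (mem_map.mpr ⟨C, h, rfl⟩)) A hA' B hB')
          (eqv hG B) (by rw [← hM]; exact (eqv hG).injective.ne hB)
        obtain ⟨B', hB', he⟩ := mem_map.mp h1
        exact (eqv hG).injective he ▸ hB')
    have d : DCtx G H π x0 := ⟨c, hNI, hdel.1, hdel.2⟩
    apply d.final
    intro ψ hψ B hB
    have h1 := hE ((eqv hG).symm.trans (ψ.trans (eqv hG))) (by
        intro A B hA hB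
        obtain ⟨A, rfl⟩ := (eqv hG).surjective A
        obtain ⟨B, rfl⟩ := (eqv hG).surjective B
        simp only [Equiv.trans_apply, Equiv.symm_apply_apply]
        rw [eqv_adj, eqv_adj]
        exact hψ A B (fun h => hA (by rw [h, hM])) (fun h => hB (by rw [h, hM])))
      (eqv hG B) (by rw [← hM]; exact (eqv hG).injective.ne hB)
    rw [← hM] at h1
    simp only [Equiv.trans_apply, Equiv.symm_apply_apply] at h1
    rw [eqv_adj, eqv_adj] at h1
    exact h1

/-- the degree in a graph -/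
theorem dg_nat {W : Type} [Fintype W] (Q : SimpleGraph W) (a : W) :
    dg Q a = (Nat.card {b // Q.Adj a b} : ℤ) := by
  rw [dg_card, Nat.card_eq_fintype_card, Fintype.card_subtype]

theorem er_congr {W : Type} [Fintype W] (i1 i2 : DecidableEq W) (b : W) :
    @Finset.erase W i1 univ b = @Finset.erase W i2 univ b := by
  rw [Subsingleton.elim i1 i2]

/-- the quotient graphs in which no two degrees differ by exactly one -/
theorem thm_deg (G : SimpleGraph V) (hn : 8 ≤ Fintype.card V)
    (hN : ∃ N, IsModule G N ∧ N ≠ univ ∧ 2 ≤ N.card)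
    (hd : ∀ A B : {N : Finset V // IsMaxModule G N},
      Nat.card {C // (quo G).Adj A C} ≠ Nat.card {C // (quo G).Adj B C} + 1) :
    Reconstructible G ∧ Reconstructible Gᶜ := by
  obtain ⟨N, hN1, hN2, hN3⟩ := hN
  refine rec_ctx G hn (fun hG => ?_) (fun H π c hNI => ?_)
  · obtain ⟨x, hx⟩ := card_pos.mp (by omega : 0 < N.card)
    exact ⟨x, hN3.trans (card_le_card (subset_blk (isModule_iff.mp hN1) hN2 hx))⟩
  · have hG := c.gG
    have hd' : ∀ A B : Om G, dg (qg G) A ≠ dg (qg G) B + 1 := by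
      have k : ∀ A : Om G, Nat.card {C // (quo G).Adj (eqv hG A) C} =
          Nat.card {C // (qg G).Adj A C} := by
        intro A
        apply Nat.card_congr
        refine ((eqv hG).subtypeEquiv (fun B => ?_)).symm
        exact (eqv_adj hG A B).symm
      intro A B h
      apply hd (eqv hG A) (eqv hG B)
      rw [k, k]
      rw [dg_nat, dg_nat] at h
      exact_mod_cast h
    obtain ⟨B0, hB0⟩ := exists_prime (qg_four hG) (qg_prime hG) hd'
    obtain ⟨x0, rfl⟩ := exists_bk B0
    have hdel := del_prime (x0 := x0) hG (fun F h1 h2 => by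
      rw [er_congr _ (fun a b => propDecidable (a = b))] at h1 ⊢
      exact hB0 F h1 h2)
    have d : DCtx G H π x0 := ⟨c, hNI, hdel.1, hdel.2⟩
    apply d.final
    intro ψ hψ B hB
    exact ext_of_deg (bk G x0) (fun a b _ _ _ => hd' a b) ψ hψ B hB

/-- the criterion with degrees for one module -/
theorem thm_crit (G : SimpleGraph V) (hn : 8 ≤ Fintype.card V)
    (hN : ∃ N, IsModule G N ∧ N ≠ univ ∧ 2 ≤ N.card) (M : {N : Finset V // IsMaxModule G N})
    (hp : ∀ F : Finset {N : Finset V // IsMaxModule G N}, M ∉ F → 2 ≤ F.card →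
      (∀ C, C ≠ M → C ∉ F → ∀ A ∈ F, ∀ B ∈ F, ((quo G).Adj C A ↔ (quo G).Adj C B)) →
      ∀ C, C ≠ M → C ∈ F)
    (hd : ∀ A B : {N : Finset V // IsMaxModule G N}, (quo G).Adj A M → ¬ (quo G).Adj B M →
      B ≠ M → Nat.card {C // (quo G).Adj A C} ≠ Nat.card {C // (quo G).Adj B C} + 1) :
    Reconstructible G ∧ Reconstructible Gᶜ := by
  apply thm_quot G hn hN M hp
  intro ψ hψ A hA
  have : Fintype {N : Finset V // IsMaxModule G N} := Fintype.ofFinite _
  exact ext_of_deg M (fun a b h1 h2 h3 h4 => hd a b h1 h2 h3 (by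
    rw [dg_nat, dg_nat] at h4
    exact_mod_cast h4)) ψ hψ A hA

end Pool.Agent.L7h41.MD
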