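import Pool.Agent.L7h41.MD.Group

set_option autoImplicit false
set_option linter.unusedSectionVars false

/-!
# The quotient graph with the isomorphism types of the maximal proper modules
-/

namespace Pool.Agent.L7h41.MD

open Finset Classical
open Pool.Agent.H234RC (Hypo NonIso)
open Pool.Agent.TH403.FLP (hypo_symm pi_ne pi_symm_ne ds dd mem_ds dd_comm)

variable {V : Type} [Fintype V] {G H K L : SimpleGraph V} {π : V → Equiv.Perm V}
  {v w x y z d : V} {N A B C : Finset V}

variable (V) in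
/-- isomorphism of induced subgraphs -/
def tset : Setoid (SimpleGraph V × Finset V) where
  r a b := SI a.1 a.2 b.1 b.2
  iseqv := ⟨fun a => SI.refl a.1 a.2, fun h => SI.symm h, fun h h' => SI.trans h h'⟩

variable (V) in
/-- isomorphism types -/
def Ty : Type := Quotient (tset V)

instance : Finite (Ty V) := inferInstanceAs (Finite (Quotient (tset V)))

noncomputable instance : Fintype (Ty V) := Fintype.ofFinite _

/-- the isomorphism type of an induced subgraph -/
def ty (K : SimpleGraph V) (A : Finset V) : Ty V := Quotient.mk (tset V) (K, A)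

theorem ty_eq : ty K A = ty L B ↔ SI K A L B := by
  show Quotient.mk (tset V) (K, A) = Quotient.mk (tset V) (L, B) ↔ SI K A L B
  exact Quotient.eq (r := tset V)

/-- the maximal proper modules -/
abbrev Om (G : SimpleGraph V) : Type := {B : Finset V // B ∈ univ.image (blk G univ)}

/-- the block of a vertex -/
noncomputable def bk (G : SimpleGraph V) (x : V) : Om G :=
  ⟨blk G univ x, mem_image_of_mem _ (mem_univ x)⟩

/-- the image of a block -/
noncomputable def rf (H : SimpleGraph V) (σ : Equiv.Perm V) (v : V) (B : Finset V) : Finset V :=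
  if h : ∃ x, x ∈ B ∧ x ≠ v then blk H univ (σ h.choose) else ∅

theorem exists_rep (hG : Good G univ) (h2 : 2 ≤ (blk G univ v).card) (B : Om G) :
    ∃ x, x ≠ v ∧ B = bk G x := by
  obtain ⟨B, hB⟩ := B
  obtain ⟨x, _, rfl⟩ := mem_image.mp hB
  by_cases hx : x = v
  · obtain ⟨u, hu, huv⟩ := exists_mem_ne (by rw [hx]; omega : 1 < (blk G univ x).card) v
    refine ⟨u, huv, Subtype.ext ?_⟩
    exact (blk_eq hG (mem_univ x) hu).symm
  · exact ⟨x, hx, rfl⟩

theorem Ctx.same (c : Ctx G H π) (h2 : 2 ≤ (blk G univ v).card) (hx : x ≠ v) (hy : y ≠ v) :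
    blk G univ x = blk G univ y ↔ blk H univ (π v x) = blk H univ (π v y) := by
  have hx' := (pi_ne c.hyp v x).mpr hx
  have hy' := (pi_ne c.hyp v y).mpr hy
  have h2' := (c.U v).mp h2
  rw [← mem_blk_iff c.gG (mem_univ y) (mem_univ x), ← mem_blk_iff c.gH (mem_univ _) (mem_univ _)]
  have e1 : x ∈ blk G univ y ↔ x ∈ blk G (univ.erase v) y := by
    rw [blk_erase c.gG (mem_univ v) h2 (mem_W.mpr hy), mem_erase]
    exact ⟨fun h => ⟨hx, h⟩, fun h => h.2⟩
  have e2 : π v x ∈ blk H univ (π v y) ↔ π v x ∈ blk H (univ.erase v) (π v y) := by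
    rw [blk_erase c.gH (mem_univ v) h2' (mem_W.mpr hy'), mem_erase]
    exact ⟨fun h => ⟨hx', h⟩, fun h => h.2⟩
  rw [e1, e2, hyp_blk c.hyp, apply_mem_mp]

theorem Ctx.rf_eq (c : Ctx G H π) (h2 : 2 ≤ (blk G univ v).card) (hx : x ≠ v) :
    rf H (π v) v (blk G univ x) = blk H univ (π v x) := by
  have h : ∃ y, y ∈ blk G univ x ∧ y ≠ v := ⟨x, self_mem_blk c.gG (mem_univ x), hx⟩
  unfold rf
  rw [dif_pos h]
  have h1 := h.choose_spec
  rw [← c.same h2 h1.2 hx]
  exact blk_eq c.gG (mem_univ x) h1.1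

theorem mem_Om (H : SimpleGraph V) (x : V) : blk H univ x ∈ univ.image (blk H univ) :=
  mem_image_of_mem _ (mem_univ x)

/-- the isomorphism of the quotient graphs given by the card of `v` -/
noncomputable def rho (c : Ctx G H π) (h2 : 2 ≤ (blk G univ v).card) : Om G ≃ Om H :=
  Equiv.ofBijective (fun B => ⟨rf H (π v) v B.1, by
      obtain ⟨x, hx, rfl⟩ := exists_rep c.gG h2 B
      show rf H (π v) v (blk G univ x) ∈ _
      rw [c.rf_eq h2 hx]
      exact mem_Om _ _⟩) (by
    constructor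
    · intro B B' h
      obtain ⟨x, hx, rfl⟩ := exists_rep c.gG h2 B
      obtain ⟨y, hy, rfl⟩ := exists_rep c.gG h2 B'
      have h1 : rf H (π v) v (blk G univ x) = rf H (π v) v (blk G univ y) :=
        congrArg Subtype.val h
      rw [c.rf_eq h2 hx, c.rf_eq h2 hy, ← c.same h2 hx hy] at h1
      exact Subtype.ext h1
    · intro C
      obtain ⟨z, hz, rfl⟩ := exists_rep c.gH ((c.U v).mp h2) C
      have hz' := (pi_symm_ne c.hyp v z).mpr hz
      refine ⟨bk G ((π v).symm z), Subtype.ext ?_⟩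
      show rf H (π v) v (blk G univ ((π v).symm z)) = blk H univ z
      rw [c.rf_eq h2 hz', Equiv.apply_symm_apply])

theorem rho_bk (c : Ctx G H π) (h2 : 2 ≤ (blk G univ v).card) (hx : x ≠ v) :
    rho c h2 (bk G x) = bk H (π v x) := Subtype.ext (c.rf_eq h2 hx)

/-- adjacency of sets -/
def adjB (K : SimpleGraph V) (A B : Finset V) : Prop := ∃ x ∈ A, ∃ y ∈ B, K.Adj x y

theorem adjB_iff (hG : Good G univ) (h : blk G univ x ≠ blk G univ y) :
    adjB G (blk G univ x) (blk G univ y) ↔ G.Adj x y := by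
  constructor
  · rintro ⟨a, ha, b, hb, hab⟩
    have hdis := blk_disj hG (mem_univ x) (mem_univ y) h
    have h1 : a ∉ blk G univ y := fun h' => Finset.disjoint_left.mp hdis ha h'
    have h2 : y ∉ blk G univ x := fun h' =>
      Finset.disjoint_left.mp hdis h' (self_mem_blk hG (mem_univ y))
    have e1 := (blk_mod hG (mem_univ y)).2 a (mem_univ _) h1 b hb y (self_mem_blk hG (mem_univ y))
    have e2 := (blk_mod hG (mem_univ x)).2 y (mem_univ _) h2 a ha x (self_mem_blk hG (mem_univ x))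
    rw [G.adj_comm, ← e2, G.adj_comm, ← e1]
    exact hab
  · intro hxy
    exact ⟨x, self_mem_blk hG (mem_univ x), y, self_mem_blk hG (mem_univ y), hxy⟩

theorem rho_adj (c : Ctx G H π) (h2 : 2 ≤ (blk G univ v).card) (B B' : Om G) (hne : B ≠ B') :
    adjB G B.1 B'.1 ↔ adjB H (rho c h2 B).1 (rho c h2 B').1 := by
  obtain ⟨x, hx, rfl⟩ := exists_rep c.gG h2 B
  obtain ⟨y, hy, rfl⟩ := exists_rep c.gG h2 B'
  have h1 : blk G univ x ≠ blk G univ y := fun h => hne (Subtype.ext h)
  have h3 : blk H univ (π v x) ≠ blk H univ (π v y) := fun h => h1 ((c.same h2 hx hy).mpr h)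
  rw [rho_bk c h2 hx, rho_bk c h2 hy]
  show adjB G (blk G univ x) (blk G univ y) ↔ adjB H (blk H univ (π v x)) (blk H univ (π v y))
  rw [adjB_iff c.gG h1, adjB_iff c.gH h3]
  exact (c.hyp.adj v x y hx hy).symm

theorem mp_blk (c : Ctx G H π) (h2 : 2 ≤ (blk G univ v).card) (hx : x ≠ v) :
    mp (π v) ((blk G univ x).erase v) = (blk H univ (π v x)).erase v := by
  rw [← blk_erase c.gG (mem_univ v) h2 (mem_W.mpr hx), ← hyp_blk c.hyp,
    blk_erase c.gH (mem_univ v) ((c.U v).mp h2) (mem_W.mpr ((pi_ne c.hyp v x).mpr hx))]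

/-- the types along the isomorphism of the card of `v` -/
theorem rho_ty (c : Ctx G H π) (hN : NonIso G H) (h2 : 2 ≤ (blk G univ v).card) (B : Om G) :
    (B = bk G v → rho c h2 B ≠ bk H v ∧ ty H (rho c h2 B).1 = ty G ((blk G univ v).erase v)) ∧
    (rho c h2 B = bk H v → ty G B.1 = ty G ((blk G univ v).erase v)) ∧
    (B ≠ bk G v → rho c h2 B ≠ bk H v → ty G B.1 = ty H (rho c h2 B).1) := by
  obtain ⟨x, hx, rfl⟩ := exists_rep c.gG h2 B
  rw [rho_bk c h2 hx]
  have hm := mp_blk c h2 hx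
  have hsi : SI G ((blk G univ x).erase v) H ((blk H univ (π v x)).erase v) :=
    ⟨π v, hm, (hyp_iso c.hyp v).mono (erase_subset_erase v (subset_univ _))⟩
  have hsw := c.swap hN h2
  have key1 : bk G x = bk G v → bk H (π v x) ≠ bk H v := by
    intro h h'
    apply hsw
    have e1 : blk G univ x = blk G univ v := congrArg Subtype.val h
    have e2 : blk H univ (π v x) = blk H univ v := congrArg Subtype.val h'
    rw [← e1, hm, e2]
  have notv : ∀ {K : SimpleGraph V} {y : V}, Good K univ → bk K y ≠ bk K v →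
      (blk K univ y).erase v = blk K univ y := by
    intro K y hK hne
    apply erase_eq_of_notMem
    intro h
    exact hne (Subtype.ext (blk_eq hK (mem_univ y) h).symm)
  refine ⟨fun h => ⟨key1 h, ?_⟩, fun h => ?_, fun h h' => ?_⟩
  · have e1 : blk G univ x = blk G univ v := congrArg Subtype.val h
    show ty H (blk H univ (π v x)) = _
    rw [ty_eq]
    rw [notv c.gH (key1 h), e1] at hsi
    exact hsi.symm
  · show ty G (blk G univ x) = _
    have e2 : blk H univ (π v x) = blk H univ v := congrArg Subtype.val h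
    have h3 : bk G x ≠ bk G v := fun h' => key1 h' h
    rw [notv c.gG h3, e2] at hsi
    rw [ty_eq]
    exact hsi.trans (c.type' h2).symm
  · show ty G (blk G univ x) = ty H (blk H univ (π v x))
    rw [notv c.gG h, notv c.gH h'] at hsi
    rw [ty_eq]
    exact hsi

/-- isomorphisms of the quotients which preserve the types give isomorphisms -/
theorem glue (hG : Good G univ) (hH : Good H univ) (μ : Om G ≃ Om H)
    (hadj : ∀ B B', B ≠ B' → (adjB G B.1 B'.1 ↔ adjB H (μ B).1 (μ B').1))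
    (hty : ∀ B, ty G B.1 = ty H (μ B).1) : ¬ NonIso G H := by
  intro hN
  apply hN
  have h1 : ∀ B : Om G, ∃ ψ : Equiv.Perm V, mp ψ B.1 = (μ B).1 ∧ IsoOn G H B.1 ψ := by
    intro B
    exact ty_eq.mp (hty B)
  choose ψ hψ1 hψ2 using h1
  let τ : V → V := fun x => ψ (bk G x) x
  have hbk : ∀ x, bk H (τ x) = μ (bk G x) := by
    intro x
    have h3 : τ x ∈ (μ (bk G x)).1 := by
      rw [← hψ1]
      exact apply_mem_mp.mpr (self_mem_blk hG (mem_univ x))
    obtain ⟨C, hC⟩ : ∃ C, μ (bk G x) = C := ⟨_, rfl⟩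
    rw [hC] at h3 ⊢
    obtain ⟨C, hC'⟩ := C
    obtain ⟨y, _, rfl⟩ := mem_image.mp hC'
    exact Subtype.ext (blk_eq hH (mem_univ y) h3)
  have hinj : Function.Injective τ := by
    intro x y hxy
    have h3 : bk G x = bk G y := by
      apply μ.injective
      rw [← hbk, ← hbk, hxy]
    have h4 : ψ (bk G x) x = ψ (bk G y) y := hxy
    rw [h3] at h4
    exact (ψ (bk G y)).injective h4
  refine ⟨Equiv.ofBijective τ (Finite.injective_iff_bijective.mp hinj), fun x y => ?_⟩
  rw [Equiv.ofBijective_apply, Equiv.ofBijective_apply]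
  by_cases hxy : bk G x = bk G y
  · have h3 : τ y = ψ (bk G x) y := by
      show ψ (bk G y) y = _
      rw [hxy]
    rw [h3]
    apply hψ2 (bk G x) x (self_mem_blk hG (mem_univ x)) y
    have h4 : blk G univ x = blk G univ y := congrArg Subtype.val hxy
    show y ∈ blk G univ x
    rw [h4]
    exact self_mem_blk hG (mem_univ y)
  · have h3 : bk H (τ x) ≠ bk H (τ y) := by
      rw [hbk, hbk]
      intro h
      exact hxy (μ.injective h)
    have e1 := adjB_iff (G := G) hG (x := x) (y := y) (fun h => hxy (Subtype.ext h))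
    have e2 := adjB_iff (G := H) hH (x := τ x) (y := τ y) (fun h => h3 (Subtype.ext h))
    rw [← e1, ← e2]
    have e3 : blk H univ (τ x) = (μ (bk G x)).1 := congrArg Subtype.val (hbk x)
    have e4 : blk H univ (τ y) = (μ (bk G y)).1 := congrArg Subtype.val (hbk y)
    rw [e3, e4]
    exact (hadj _ _ hxy).symm

/-- the types considered: each of them has a vertex whose deletion gives `z` -/
def Par (p : Ty V → Prop) (z : Ty V) : Prop :=
  ∀ (K : SimpleGraph V) (A : Finset V), p (ty K A) → 2 ≤ A.card ∧ ∃ w ∈ A, ty K (A.erase w) = z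

theorem Par.not {p : Ty V → Prop} {z : Ty V} (h : Par p z) : ¬ p z := by
  intro hz
  obtain ⟨⟨K, A⟩, rfl⟩ := Quotient.exists_rep z
  obtain ⟨_, w, hw, h1⟩ := h K A hz
  have h2 : SI K (A.erase w) K A := ty_eq.mp h1
  have h3 := h2.card
  rw [card_erase_of_mem hw] at h3
  have := card_pos.mpr ⟨w, hw⟩
  omega

/-- the number of the vertices whose deletion gives `z` -/
noncomputable def bet (K : SimpleGraph V) (A : Finset V) (z : Ty V) : ℕ :=
  (A.filter (fun w => ty K (A.erase w) = z)).card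

theorem bet_eq (h : SI G A H B) (z : Ty V) : bet G A z = bet H B z := by
  obtain ⟨σ, rfl, h⟩ := h
  unfold bet
  rw [← card_mp (σ := σ)]
  congr 1
  ext y
  rw [mem_mp, mem_filter, mem_filter, mem_mp]
  have e : σ.symm y ∈ A → ty G (A.erase (σ.symm y)) = ty H ((mp σ A).erase y) := by
    intro _
    rw [ty_eq]
    refine ⟨σ, ?_, h.mono (erase_subset _ _)⟩
    rw [mp_erase, Equiv.apply_symm_apply]
  constructor
  · rintro ⟨h1, h2⟩
    exact ⟨h1, (e h1).symm.trans h2⟩
  · rintro ⟨h1, h2⟩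
    exact ⟨h1, (e h1).trans h2⟩

/-- the permutations of the quotient graph of `G` which preserve all types except for those
considered -/
noncomputable def Gam (G : SimpleGraph V) (p : Ty V → Prop) (z : Ty V) :
    Subgroup (Equiv.Perm (Om G)) where
  carrier := {γ | (∀ B B', B ≠ B' → (adjB G B.1 B'.1 ↔ adjB G (γ B).1 (γ B').1)) ∧
    (∀ B, (p (ty G B.1) ∨ ty G B.1 = z) ↔ (p (ty G (γ B).1) ∨ ty G (γ B).1 = z)) ∧
    ∀ B, ¬ (p (ty G B.1) ∨ ty G B.1 = z) → ty G (γ B).1 = ty G B.1}
  one_mem' := ⟨fun _ _ _ => Iff.rfl, fun _ => Iff.rfl, fun _ _ => rfl⟩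
  mul_mem' := by
    rintro a b ⟨ha1, ha2, ha3⟩ ⟨hb1, hb2, hb3⟩
    refine ⟨fun B B' h => ?_, fun B => ?_, fun B h => ?_⟩
    · rw [hb1 B B' h, ha1 _ _ (fun h' => h (b.injective h'))]
      rfl
    · rw [hb2 B, ha2 (b B)]
      rfl
    · show ty G (a (b B)).1 = _
      rw [ha3 (b B) (fun h' => h ((hb2 B).mpr h')), hb3 B h]
  inv_mem' := by
    rintro a ⟨ha1, ha2, ha3⟩
    have hinv : ∀ B, a (a⁻¹ B) = B := fun B => a.apply_symm_apply B
    refine ⟨fun B B' h => ?_, fun B => ?_, fun B h => ?_⟩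
    · have h' : a⁻¹ B ≠ a⁻¹ B' := fun h' => h (a⁻¹.injective h')
      rw [ha1 _ _ h', hinv, hinv]
    · rw [ha2 (a⁻¹ B), hinv]
    · have h1 := ha2 (a⁻¹ B)
      rw [hinv] at h1
      have h2 := ha3 (a⁻¹ B) (fun h' => h (h1.mp h'))
      rw [hinv] at h2
      exact h2.symm

/-- the action on labelled modules -/
noncomputable def phi (G : SimpleGraph V) (p : Ty V → Prop) (z : Ty V) :
    Gam G p z →* Equiv.Perm (Om G × Ty V) where
  toFun γ := Equiv.prodCongr (γ : Equiv.Perm (Om G)) (Equiv.refl _)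
  map_one' := by
    ext q <;> rfl
  map_mul' a b := by
    ext q <;> rfl

theorem phi_apply (p : Ty V → Prop) (z : Ty V) (γ : Gam G p z) (B : Om G) (t : Ty V) :
    phi G p z γ (B, t) = ((γ : Equiv.Perm (Om G)) B, t) := rfl

/-- the labelled modules of `G` -/
noncomputable def QG (G : SimpleGraph V) (p : Ty V → Prop) : Finset (Om G × Ty V) :=
  univ.filter (fun q => p (ty G q.1.1) ∧ q.2 = ty G q.1.1)

/-- the labelled modules of `H` -/
noncomputable def QH (ρ : Om G ≃ Om H) (p : Ty V → Prop) : Finset (Om G × Ty V) :=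
  univ.filter (fun q => p (ty H (ρ q.1).1) ∧ q.2 = ty H (ρ q.1).1)

theorem mem_QG {p : Ty V → Prop} {q : Om G × Ty V} :
    q ∈ QG G p ↔ p (ty G q.1.1) ∧ q.2 = ty G q.1.1 := by
  unfold QG
  rw [mem_filter]
  exact ⟨fun h => h.2, fun h => ⟨mem_univ _, h⟩⟩

theorem mem_QH {ρ : Om G ≃ Om H} {p : Ty V → Prop} {q : Om G × Ty V} :
    q ∈ QH ρ p ↔ p (ty H (ρ q.1).1) ∧ q.2 = ty H (ρ q.1).1 := by
  unfold QH
  rw [mem_filter]
  exact ⟨fun h => h.2, fun h => ⟨mem_univ _, h⟩⟩

/-- the vertices whose deletion replaces a considered type by `z` -/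
abbrev Jt (G : SimpleGraph V) (p : Ty V → Prop) (z : Ty V) : Type :=
  {v : V // p (ty G (blk G univ v)) ∧ ty G ((blk G univ v).erase v) = z}

theorem Jt.two {p : Ty V → Prop} {z : Ty V} (hp : Par p z) (j : Jt G p z) :
    2 ≤ (blk G univ j.1).card := (hp _ _ j.2.1).1

theorem rho_gam (c : Ctx G H π) (hN : NonIso G H) {p : Ty V → Prop} {z : Ty V} (hp : Par p z)
    (h2 : 2 ≤ (blk G univ v).card) (hv1 : p (ty G (blk G univ v)))
    (hv2 : ty G ((blk G univ v).erase v) = z) (B : Om G) :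
    ((p (ty G B.1) ∨ ty G B.1 = z) ↔
      (p (ty H (rho c h2 B).1) ∨ ty H (rho c h2 B).1 = z)) ∧
    (¬ (p (ty G B.1) ∨ ty G B.1 = z) → ty H (rho c h2 B).1 = ty G B.1) := by
  obtain ⟨h1, h3, h4⟩ := rho_ty c hN h2 B
  rw [hv2] at h1 h3
  by_cases hB : B = bk G v
  · have h5 := h1 hB
    have h6 : p (ty G B.1) := by rw [hB]; exact hv1
    exact ⟨⟨fun _ => Or.inr h5.2, fun _ => Or.inl h6⟩, fun h => absurd (Or.inl h6) h⟩
  · by_cases hB' : rho c h2 B = bk H v
    · have h5 := h3 hB'
      have h6 : p (ty H (rho c h2 B).1) := by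
        rw [hB']
        show p (ty H (blk H univ v))
        rw [← ty_eq.mpr (c.type h2)]
        exact hv1
      exact ⟨⟨fun _ => Or.inl h6, fun _ => Or.inr h5⟩, fun h => absurd (Or.inr h5) h⟩
    · have h5 := h4 hB hB'
      rw [h5]
      exact ⟨Iff.rfl, fun _ => rfl⟩

theorem dk (c : Ctx G H π) (hN : NonIso G H) {p : Ty V → Prop} {z : Ty V} (hp : Par p z)
    (j0 : Jt G p z) :
    Dk (phi G p z) (QG G p) (QH (rho c (Jt.two hp j0)) p)
      (fun j : Jt G p z => (bk G j.1, ty G (blk G univ j.1)))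
      (fun j : Jt G p z => ((rho c (Jt.two hp j0)).symm (bk H j.1), ty H (blk H univ j.1)))
      (fun j : Jt G p z => 1 / (bet G (blk G univ j.1) z : ℚ)) := by
  set ρ0 := rho c (Jt.two hp j0) with hρ0
  refine ⟨?_, ?_, ?_, ?_, ?_⟩
  · intro j
    rw [mem_QG]
    exact ⟨j.2.1, rfl⟩
  · intro j
    rw [mem_QH]
    simp only [Equiv.apply_symm_apply]
    refine ⟨?_, rfl⟩
    show p (ty H (blk H univ j.1))
    rw [← ty_eq.mpr (c.type (Jt.two hp j))]
    exact j.2.1
  · rintro ⟨B, t⟩ hx
    rw [mem_QG] at hx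
    obtain ⟨hx1, hx2⟩ := hx
    dsimp only at hx1 hx2
    obtain ⟨B, hB⟩ := B
    obtain ⟨y, _, rfl⟩ := mem_image.mp hB
    dsimp only at hx1 hx2
    have e1 : (univ.filter (fun j : Jt G p z => (bk G j.1, ty G (blk G univ j.1)) =
        ((⟨blk G univ y, hB⟩ : Om G), t))).map ⟨Subtype.val, Subtype.val_injective⟩ =
        (blk G univ y).filter (fun w => ty G ((blk G univ y).erase w) = z) := by
      ext w
      rw [mem_map, mem_filter]
      constructor
      · rintro ⟨j, hj, rfl⟩
        have h3 := (mem_filter.mp hj).2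
        have h4 : blk G univ j.1 = blk G univ y := congrArg Subtype.val (congrArg Prod.fst h3)
        refine ⟨?_, ?_⟩
        · show j.1 ∈ blk G univ y
          rw [← h4]
          exact self_mem_blk c.gG (mem_univ _)
        · show ty G ((blk G univ y).erase j.1) = z
          rw [← h4]
          exact j.2.2
      · rintro ⟨hw1, hw2⟩
        have h4 := blk_eq c.gG (mem_univ y) hw1
        refine ⟨⟨w, by rw [h4]; exact ⟨hx1, hw2⟩⟩, ?_, rfl⟩
        rw [mem_filter]
        refine ⟨mem_univ _, ?_⟩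
        apply Prod.ext
        · exact Subtype.ext h4
        · show ty G (blk G univ w) = t
          rw [h4, hx2]
    have e2 := congrArg Finset.card e1
    rw [card_map] at e2
    have e3 : ∀ j ∈ univ.filter (fun j : Jt G p z => (bk G j.1, ty G (blk G univ j.1)) =
        ((⟨blk G univ y, hB⟩ : Om G), t)), 1 / (bet G (blk G univ j.1) z : ℚ) =
        1 / (bet G (blk G univ y) z : ℚ) := by
      intro j hj
      have h3 := (mem_filter.mp hj).2
      have h4 : blk G univ j.1 = blk G univ y := congrArg Subtype.val (congrArg Prod.fst h3)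
      rw [h4]
    rw [sum_congr rfl e3, sum_const, e2, nsmul_eq_mul]
    have hb : (bet G (blk G univ y) z : ℚ) ≠ 0 := by
      obtain ⟨_, w, hw, hw2⟩ := hp _ _ hx1
      have : 0 < bet G (blk G univ y) z := card_pos.mpr ⟨w, mem_filter.mpr ⟨hw, hw2⟩⟩
      exact_mod_cast this.ne'
    show (bet G (blk G univ y) z : ℚ) * (1 / (bet G (blk G univ y) z : ℚ)) = 1
    rw [mul_one_div_cancel hb]
  · rintro ⟨B, t⟩ hx
    rw [mem_QH] at hx
    obtain ⟨hx1, hx2⟩ := hx
    dsimp only at hx1 hx2
    obtain ⟨R, hR⟩ : ∃ R, ρ0 B = R := ⟨_, rfl⟩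
    rw [hR] at hx1 hx2
    obtain ⟨R, hRm⟩ := R
    obtain ⟨y, _, rfl⟩ := mem_image.mp hRm
    dsimp only at hx1 hx2
    have hB : B = ρ0.symm (bk H y) := by
      rw [Equiv.eq_symm_apply, hR]
      rfl
    have hbr : ∀ j : Jt G p z, ρ0.symm (bk H j.1) = B ↔ blk H univ j.1 = blk H univ y := by
      intro j
      rw [hB, ρ0.symm.injective.eq_iff, Subtype.ext_iff]
      rfl
    have e1 : (univ.filter (fun j : Jt G p z => (ρ0.symm (bk H j.1), ty H (blk H univ j.1)) =
        (B, t))).map ⟨Subtype.val, Subtype.val_injective⟩ =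
        (blk H univ y).filter (fun w => ty H ((blk H univ y).erase w) = z) := by
      ext w
      rw [mem_map, mem_filter]
      constructor
      · rintro ⟨j, hj, rfl⟩
        have h3 := (mem_filter.mp hj).2
        have h4 := (hbr j).mp (congrArg Prod.fst h3)
        refine ⟨?_, ?_⟩
        · show j.1 ∈ blk H univ y
          rw [← h4]
          exact self_mem_blk c.gH (mem_univ _)
        · show ty H ((blk H univ y).erase j.1) = z
          rw [← h4, ← ty_eq.mpr (c.type' (Jt.two hp j))]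
          exact j.2.2
      · rintro ⟨hw1, hw2⟩
        have h4 := blk_eq c.gH (mem_univ y) hw1
        have h5 : 2 ≤ (blk H univ w).card := by
          rw [h4]
          exact (hp _ _ hx1).1
        have h6 := (c.U w).mpr h5
        have h7 : p (ty G (blk G univ w)) ∧ ty G ((blk G univ w).erase w) = z := by
          rw [ty_eq.mpr (c.type h6), ty_eq.mpr (c.type' h6), h4]
          exact ⟨hx1, hw2⟩
        refine ⟨⟨w, h7⟩, ?_, rfl⟩
        rw [mem_filter]
        refine ⟨mem_univ _, ?_⟩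
        apply Prod.ext
        · exact (hbr ⟨w, h7⟩).mpr h4
        · show ty H (blk H univ w) = t
          rw [h4, hx2]
    have e2 := congrArg Finset.card e1
    rw [card_map] at e2
    have e3 : ∀ j ∈ univ.filter (fun j : Jt G p z => (ρ0.symm (bk H j.1),
        ty H (blk H univ j.1)) = (B, t)), 1 / (bet G (blk G univ j.1) z : ℚ) =
        1 / (bet H (blk H univ y) z : ℚ) := by
      intro j hj
      have h3 := (mem_filter.mp hj).2
      have h4 := (hbr j).mp (congrArg Prod.fst h3)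
      rw [bet_eq (c.type (Jt.two hp j)), h4]
    rw [sum_congr rfl e3, sum_const, e2, nsmul_eq_mul]
    have hb : (bet H (blk H univ y) z : ℚ) ≠ 0 := by
      obtain ⟨_, w, hw, hw2⟩ := hp _ _ hx1
      have : 0 < bet H (blk H univ y) z := card_pos.mpr ⟨w, mem_filter.mpr ⟨hw, hw2⟩⟩
      exact_mod_cast this.ne'
    show (bet H (blk H univ y) z : ℚ) * (1 / (bet H (blk H univ y) z : ℚ)) = 1
    rw [mul_one_div_cancel hb]
  · intro j
    have hj2 := Jt.two hp j
    set ρ := rho c hj2 with hρ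
    have g1 := fun B => rho_gam c hN hp hj2 j.2.1 j.2.2 B
    have g0 := fun B => rho_gam c hN hp (Jt.two hp j0) j0.2.1 j0.2.2 B
    rw [← hρ0] at g0
    rw [← hρ] at g1
    have hmem : ρ.trans ρ0.symm ∈ Gam G p z := by
      refine ⟨fun B B' h => ?_, fun B => ?_, fun B h => ?_⟩
      · have h' : ρ B ≠ ρ B' := fun h' => h (ρ.injective h')
        have h'' : ρ0.symm (ρ B) ≠ ρ0.symm (ρ B') := fun h'' => h' (ρ0.symm.injective h'')
        have e1 := rho_adj c hj2 B B' h
        have e2 := rho_adj c (Jt.two hp j0) _ _ h''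
        rw [← hρ0, Equiv.apply_symm_apply, Equiv.apply_symm_apply] at e2
        rw [← hρ] at e1
        exact e1.trans e2.symm
      · have e1 := (g1 B).1
        have e2 := (g0 (ρ0.symm (ρ B))).1
        rw [Equiv.apply_symm_apply] at e2
        exact e1.trans e2.symm
      · have e1 := (g1 B).2 h
        have e2 := (g0 (ρ0.symm (ρ B))).1
        rw [Equiv.apply_symm_apply] at e2
        have e3 := (g0 (ρ0.symm (ρ B))).2 (fun h' => h ((g1 B).1.mpr (e2.mp h')))
        rw [Equiv.apply_symm_apply] at e3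
        show ty G (ρ0.symm (ρ B)).1 = ty G B.1
        rw [← e3, e1]
    refine ⟨⟨_, hmem⟩, ?_⟩
    rintro ⟨B, t⟩
    rw [phi_apply, mem_erase, mem_erase, mem_QG, mem_QH]
    dsimp only
    rw [Equiv.trans_apply, Equiv.apply_symm_apply]
    have hne1 : ((ρ0.symm (ρ B), t) : Om G × Ty V) ≠ (ρ0.symm (bk H j.1), ty H (blk H univ j.1)) ↔
        ¬ (ρ B = bk H j.1 ∧ t = ty H (blk H univ j.1)) := by
      rw [ne_eq, Prod.mk.injEq, ρ0.symm.injective.eq_iff]
    have hne2 : ((B, t) : Om G × Ty V) ≠ (bk G j.1, ty G (blk G univ j.1)) ↔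
        ¬ (B = bk G j.1 ∧ t = ty G (blk G univ j.1)) := by
      rw [ne_eq, Prod.mk.injEq]
    rw [hne1, hne2]
    obtain ⟨k1, k2, k3⟩ := rho_ty c hN hj2 B
    rw [← hρ, j.2.2] at k1 k2
    rw [← hρ] at k3
    by_cases hB : B = bk G j.1
    · have k := k1 hB
      constructor
      · rintro ⟨_, h3, _⟩
        rw [k.2] at h3
        exact absurd h3 hp.not
      · rintro ⟨h3, _, h5⟩
        apply absurd _ h3
        refine ⟨hB, ?_⟩
        rw [h5, hB]
        rfl
    · by_cases hB' : ρ B = bk H j.1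
      · have k := k2 hB'
        constructor
        · rintro ⟨h3, _, h5⟩
          apply absurd _ h3
          refine ⟨hB', ?_⟩
          rw [h5, hB']
          rfl
        · rintro ⟨_, h3, _⟩
          rw [k] at h3
          exact absurd h3 hp.not
      · have k := k3 hB hB'
        rw [k]
        constructor
        · rintro ⟨_, h3⟩
          exact ⟨fun h => hB h.1, h3⟩
        · rintro ⟨_, h3⟩
          exact ⟨fun h => hB' h.1, h3⟩

/-- a group element which maps the labelled modules of `G` to those of `H` gives an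
isomorphism -/
theorem no_match (c : Ctx G H π) (hN : NonIso G H) {p : Ty V → Prop} {z : Ty V} (hp : Par p z)
    (j0 : Jt G p z) :
    ¬ ∃ γ : Gam G p z, ∀ q ∈ QG G p, phi G p z γ q ∈ QH (rho c (Jt.two hp j0)) p := by
  rintro ⟨γ, hγ⟩
  have hcard := (dk c hN hp j0).card
  set ρ0 := rho c (Jt.two hp j0) with hρ0
  have hsurj : ∀ q ∈ QH ρ0 p, ∃ q' ∈ QG G p, phi G p z γ q' = q := by
    have h1 : (QG G p).map (phi G p z γ).toEmbedding = QH ρ0 p := by
      apply eq_of_subset_of_card_le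
      · intro q hq
        obtain ⟨q', hq', rfl⟩ := mem_map.mp hq
        exact hγ q' hq'
      · rw [card_map, hcard]
    intro q hq
    rw [← h1] at hq
    obtain ⟨q', hq', h2⟩ := mem_map.mp hq
    exact ⟨q', hq', h2⟩
  obtain ⟨γ, hγm⟩ := γ
  obtain ⟨g1, g2, g3⟩ := hγm
  have g0 := fun B => rho_gam c hN hp (Jt.two hp j0) j0.2.1 j0.2.2 B
  rw [← hρ0] at g0
  refine glue c.gG c.gH (γ.trans ρ0) ?_ ?_ hN
  · intro B B' h
    have e2 := rho_adj c (Jt.two hp j0) _ _ (fun h' : γ B = γ B' => h (γ.injective h'))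
    exact (g1 B B' h).trans e2
  · intro B
    show ty G B.1 = ty H (ρ0 (γ B)).1
    by_cases h1 : p (ty G B.1)
    · have h2 := hγ (B, ty G B.1) (mem_QG.mpr ⟨h1, rfl⟩)
      exact (mem_QH.mp h2).2
    · by_cases h3 : ty G B.1 = z
      · have h4 := (g0 (γ B)).1.mp ((g2 B).mp (Or.inr h3))
        rcases h4 with h5 | h5
        · exfalso
          obtain ⟨⟨B', t'⟩, hq', he⟩ := hsurj (γ B, ty H (ρ0 (γ B)).1) (mem_QH.mpr ⟨h5, rfl⟩)
          have h6 : γ B' = γ B := congrArg Prod.fst he
          have h7 := (mem_QG.mp hq').1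
          rw [γ.injective h6] at h7
          exact h1 h7
        · rw [h3, h5]
      · have h4 : ¬ (p (ty G B.1) ∨ ty G B.1 = z) := fun h => h.elim h1 h3
        have h5 := (g0 (γ B)).2 (fun h => h4 ((g2 B).mpr h))
        rw [h5]
        exact (g3 B h4).symm

end Pool.Agent.L7h41.MD
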