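import Pool.Agent.L7h41.MD.Basic
import Pool.Agent.TH403.FLP.Rec

set_option autoImplicit false
set_option linter.unusedSectionVars false

/-!
# Transport of modules along partial isomorphisms
-/

namespace Pool.Agent.L7h41.MD

open Finset Classical
open Pool.Agent.H234RC (Hypo NonIso)
open Pool.Agent.TH403.FLP (hypo_symm pi_ne pi_symm_ne)

variable {V : Type} [Fintype V]

/-- the image of a set -/
noncomputable def mp (σ : Equiv.Perm V) (S : Finset V) : Finset V := S.map σ.toEmbedding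

variable {G H K L : SimpleGraph V} {S T A B C N : Finset V} {u v w x y z : V}
  {σ τ : Equiv.Perm V} {π : V → Equiv.Perm V}

theorem mem_mp : y ∈ mp σ S ↔ σ.symm y ∈ S := mem_map_equiv

theorem apply_mem_mp : σ x ∈ mp σ S ↔ x ∈ S := by
  rw [mem_mp, Equiv.symm_apply_apply]

theorem card_mp : (mp σ S).card = S.card := card_map _

theorem mp_symm_mp (σ : Equiv.Perm V) (S : Finset V) : mp σ.symm (mp σ S) = S := by
  ext x
  rw [mem_mp, mem_mp, Equiv.symm_symm, Equiv.symm_apply_apply]

theorem mp_mp_symm (σ : Equiv.Perm V) (S : Finset V) : mp σ (mp σ.symm S) = S := by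
  ext x
  rw [mem_mp, mem_mp, Equiv.symm_symm, Equiv.apply_symm_apply]

theorem mp_inj : mp σ S = mp σ T ↔ S = T := by
  constructor
  · intro h
    rw [← mp_symm_mp σ S, h, mp_symm_mp]
  · intro h
    rw [h]

theorem mp_erase : mp σ (S.erase x) = (mp σ S).erase (σ x) := by
  ext y
  rw [mem_mp, mem_erase, mem_erase, mem_mp, ne_eq, ne_eq, Equiv.symm_apply_eq]

theorem mp_sub : mp σ S ⊆ mp σ T ↔ S ⊆ T := map_subset_map

theorem mp_mono (h : S ⊆ T) : mp σ S ⊆ mp σ T := mp_sub.mpr h

theorem mp_sdiff : mp σ (S \ T) = mp σ S \ mp σ T := by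
  ext y
  rw [mem_mp, mem_sdiff, mem_sdiff, mem_mp, mem_mp]

theorem mp_nonempty : (mp σ S).Nonempty ↔ S.Nonempty := map_nonempty

theorem mp_trans : mp (σ.trans τ) S = mp τ (mp σ S) := by
  ext y
  rw [mem_mp, mem_mp, mem_mp]
  rfl

theorem mp_refl : mp (Equiv.refl V) S = S := by
  ext y
  rw [mem_mp]
  rfl

theorem mp_univ : mp σ univ = univ := by
  ext y
  rw [mem_mp]
  simp

theorem mp_disj : Disjoint (mp σ S) (mp σ T) ↔ Disjoint S T := by
  rw [Finset.disjoint_left, Finset.disjoint_left]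
  constructor
  · intro h x hx hy
    exact h (apply_mem_mp.mpr hx) (apply_mem_mp.mpr hy)
  · intro h x hx hy
    exact h (mem_mp.mp hx) (mem_mp.mp hy)

/-- `σ` preserves the adjacency on `S`. -/
def IsoOn (G H : SimpleGraph V) (S : Finset V) (σ : Equiv.Perm V) : Prop :=
  ∀ x ∈ S, ∀ y ∈ S, (H.Adj (σ x) (σ y) ↔ G.Adj x y)

theorem IsoOn.symm (h : IsoOn G H S σ) : IsoOn H G (mp σ S) σ.symm := by
  intro x hx y hy
  have := h _ (mem_mp.mp hx) _ (mem_mp.mp hy)
  rw [Equiv.apply_symm_apply, Equiv.apply_symm_apply] at this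
  exact this.symm

theorem IsoOn.mono (h : IsoOn G H S σ) (hT : T ⊆ S) : IsoOn G H T σ :=
  fun x hx y hy => h x (hT hx) y (hT hy)

theorem IsoOn.mod (h : IsoOn G H S σ) (hN : Mod G S N) : Mod H (mp σ S) (mp σ N) := by
  refine ⟨mp_mono hN.1, fun z hz hzn x hx y hy => ?_⟩
  rw [mem_mp] at hz hzn hx hy
  have h1 := h _ hz _ (hN.1 hx)
  have h2 := h _ hz _ (hN.1 hy)
  rw [Equiv.apply_symm_apply, Equiv.apply_symm_apply] at h1 h2
  rw [h1, h2]
  exact hN.2 _ hz hzn _ hx _ hy

theorem IsoOn.good (h : IsoOn G H S σ) (hG : Good G S) : Good H (mp σ S) := by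
  refine ⟨by rw [card_mp]; exact hG.1, fun A hA h1 h2 c hc => ?_⟩
  refine hG.2 (mp σ.symm A) ?_ (mp_nonempty.mpr h1) ?_ c ?_
  · have := mp_mono (σ := σ.symm) hA
    rwa [mp_symm_mp] at this
  · have := mp_nonempty (σ := σ.symm).mpr h2
    rwa [mp_sdiff, mp_symm_mp] at this
  · intro x hx y hy
    rw [mem_mp, Equiv.symm_symm] at hx
    rw [mem_sdiff, mem_mp, Equiv.symm_symm] at hy
    have hxS : x ∈ S := by
      have := hA hx
      rwa [apply_mem_mp] at this
    rw [← h x hxS y hy.1]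
    exact hc _ hx _ (mem_sdiff.mpr ⟨apply_mem_mp.mpr hy.1, hy.2⟩)

theorem IsoOn.blk (h : IsoOn G H S σ) (x : V) :
    blk H (mp σ S) (σ x) = mp σ (blk G S x) := by
  ext y
  rw [mem_mp, mem_blk, mem_blk]
  constructor
  · rintro ⟨N, h1, h2, h3, h4⟩
    refine ⟨mp σ.symm N, ?_, ?_, ?_, ?_⟩
    · have := h.symm.mod h1
      rwa [mp_symm_mp] at this
    · intro h5
      apply h2
      rw [← h5, mp_mp_symm]
    · rw [mem_mp, Equiv.symm_symm]
      exact h3
    · rw [mem_mp, Equiv.symm_symm, Equiv.apply_symm_apply]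
      exact h4
  · rintro ⟨N, h1, h2, h3, h4⟩
    refine ⟨mp σ N, h.mod h1, fun h5 => h2 (mp_inj.mp h5), apply_mem_mp.mpr h3, ?_⟩
    rw [mem_mp]
    exact h4

theorem IsoOn.nb (h : IsoOn G H S σ) : nb H (mp σ S) = nb G S := by
  unfold MD.nb
  have : (mp σ S).image (MD.blk H (mp σ S)) = (S.image (MD.blk G S)).image (mp σ) := by
    ext B
    rw [mem_image, mem_image]
    constructor
    · rintro ⟨x, hx, rfl⟩
      rw [mem_mp] at hx
      refine ⟨MD.blk G S (σ.symm x), mem_image_of_mem _ hx, ?_⟩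
      rw [← h.blk, Equiv.apply_symm_apply]
    · rintro ⟨C, hC, rfl⟩
      obtain ⟨x, hx, rfl⟩ := mem_image.mp hC
      exact ⟨σ x, apply_mem_mp.mpr hx, h.blk x⟩
  rw [this, card_image_of_injective]
  intro A B hAB
  exact mp_inj.mp hAB

theorem hyp_iso (hH : Hypo G H π) (v : V) : IsoOn G H (univ.erase v) (π v) := by
  intro x hx y hy
  exact hH.adj v x y (mem_erase.mp hx).1 (mem_erase.mp hy).1

theorem mp_W (hH : Hypo G H π) (v : V) : mp (π v) (univ.erase v) = univ.erase v := by
  rw [mp_erase, mp_univ, hH.fix]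

theorem hyp_good (hH : Hypo G H π) (hG : Good G (univ.erase v)) : Good H (univ.erase v) := by
  have := (hyp_iso hH v).good hG
  rwa [mp_W hH] at this

theorem hyp_blk (hH : Hypo G H π) (v x : V) :
    blk H (univ.erase v) (π v x) = mp (π v) (blk G (univ.erase v) x) := by
  have := (hyp_iso hH v).blk x
  rwa [mp_W hH] at this

theorem hyp_mod (hH : Hypo G H π) (hN : Mod G (univ.erase v) N) :
    Mod H (univ.erase v) (mp (π v) N) := by
  have := (hyp_iso hH v).mod hN
  rwa [mp_W hH] at this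

theorem hyp_nb (hH : Hypo G H π) (v : V) : nb H (univ.erase v) = nb G (univ.erase v) := by
  have := (hyp_iso hH v).nb
  rwa [mp_W hH] at this

/-- The graphs induced by `A` in `G` and by `B` in `H` are isomorphic. -/
def SI (G : SimpleGraph V) (A : Finset V) (H : SimpleGraph V) (B : Finset V) : Prop :=
  ∃ σ : Equiv.Perm V, mp σ A = B ∧ IsoOn G H A σ

theorem SI.refl (G : SimpleGraph V) (A : Finset V) : SI G A G A :=
  ⟨Equiv.refl V, mp_refl, fun _ _ _ _ => Iff.rfl⟩

theorem SI.symm (h : SI G A H B) : SI H B G A := by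
  obtain ⟨σ, rfl, h⟩ := h
  exact ⟨σ.symm, mp_symm_mp σ A, h.symm⟩

theorem SI.trans (h : SI G A H B) (h' : SI H B K C) : SI G A K C := by
  obtain ⟨σ, rfl, h⟩ := h
  obtain ⟨τ, rfl, h'⟩ := h'
  refine ⟨σ.trans τ, mp_trans, fun x hx y hy => ?_⟩
  rw [Equiv.trans_apply, Equiv.trans_apply, h' _ (apply_mem_mp.mpr hx) _ (apply_mem_mp.mpr hy)]
  exact h x hx y hy

theorem SI.card (h : SI G A H B) : A.card = B.card := by
  obtain ⟨σ, rfl, _⟩ := h
  exact card_mp.symm

theorem IsoOn.si (h : IsoOn G H A σ) : SI G A H (mp σ A) := ⟨σ, rfl, h⟩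

theorem si_single (G H : SimpleGraph V) (h1 : A.card = 1) (h2 : B.card = 1) : SI G A H B := by
  obtain ⟨a, rfl⟩ := card_eq_one.mp h1
  obtain ⟨b, rfl⟩ := card_eq_one.mp h2
  refine ⟨Equiv.swap a b, ?_, ?_⟩
  · ext y
    rw [mem_mp, mem_singleton, mem_singleton, Equiv.symm_apply_eq, Equiv.swap_apply_left]
  · intro x hx y hy
    rw [mem_singleton] at hx hy
    subst hx
    subst hy
    exact ⟨fun h => absurd h H.irrefl, fun h => absurd h G.irrefl⟩

/-- The isomorphism type of a set with a vertex removed. -/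
theorem SI.exists_erase (h : SI G A H B) (hy : y ∈ B) : ∃ x ∈ A, SI G (A.erase x) H (B.erase y) := by
  obtain ⟨σ, rfl, h⟩ := h
  refine ⟨σ.symm y, mem_mp.mp hy, σ, ?_, h.mono (erase_subset _ _)⟩
  rw [mp_erase, Equiv.apply_symm_apply]

theorem sum_blk (hG : Good G univ) (h2 : 2 ≤ (blk G univ v).card) (f : Finset V → ℤ) :
    ∑ x ∈ univ.erase v, f (blk G (univ.erase v) x) = ∑ x, f (blk G univ x) -
      (blk G univ v).card * f (blk G univ v) +
      ((blk G univ v).card - 1) * f ((blk G univ v).erase v) := by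
  have hvP := self_mem_blk hG (mem_univ v)
  set P := blk G univ v with hP
  have e1 : ∀ x ∈ univ.erase v, f (blk G (univ.erase v) x) = f ((blk G univ x).erase v) := by
    intro x hx
    rw [blk_erase hG (mem_univ v) h2 hx]
  rw [sum_congr rfl e1]
  have e2 : (univ.erase v : Finset V) = P.erase v ∪ Pᶜ := by
    ext x
    rw [mem_erase, mem_union, mem_erase, mem_compl]
    constructor
    · rintro ⟨h, _⟩
      by_cases hx : x ∈ P
      · exact Or.inl ⟨h, hx⟩
      · exact Or.inr hx
    · rintro (h | h)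
      · exact ⟨h.1, mem_univ _⟩
      · exact ⟨fun h' => h (h' ▸ hvP), mem_univ _⟩
  have e3 : Disjoint (P.erase v) Pᶜ := by
    rw [Finset.disjoint_left]
    intro x hx hx'
    exact (mem_compl.mp hx') (mem_erase.mp hx).2
  have e4 : ∑ x ∈ P.erase v, f ((blk G univ x).erase v) = (P.card - 1) * f (P.erase v) := by
    rw [sum_congr rfl (fun x hx => by rw [blk_eq hG (mem_univ v) (mem_erase.mp hx).2]),
      sum_const, card_erase_of_mem hvP, nsmul_eq_mul, ← hP]
    congr 1
    rw [Nat.cast_sub (by omega)]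
    simp
  have e5 : ∑ x ∈ Pᶜ, f ((blk G univ x).erase v) = ∑ x ∈ Pᶜ, f (blk G univ x) := by
    apply sum_congr rfl
    intro x hx
    rw [erase_eq_of_notMem]
    intro h
    apply mem_compl.mp hx
    rw [hP, blk_eq hG (mem_univ x) h]
    exact self_mem_blk hG (mem_univ x)
  have e6 : ∑ x ∈ P, f (blk G univ x) = P.card * f P := by
    rw [sum_congr rfl (fun x hx => by rw [blk_eq hG (mem_univ v) hx]), sum_const, nsmul_eq_mul,
      ← hP]
  have e7 : ∑ x, f (blk G univ x) = ∑ x ∈ P, f (blk G univ x) + ∑ x ∈ Pᶜ, f (blk G univ x) :=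
    (sum_add_sum_compl P _).symm
  rw [e2, sum_union e3, e4, e5, e7, e6]
  ring

theorem sum_trans (hH : Hypo G H π) (v : V) (f g : Finset V → ℤ)
    (hfg : ∀ A ⊆ univ.erase v, g (mp (π v) A) = f A) :
    ∑ x ∈ univ.erase v, g (blk H (univ.erase v) x) =
      ∑ x ∈ univ.erase v, f (blk G (univ.erase v) x) := by
  symm
  apply Finset.sum_equiv (π v)
  · intro x
    rw [mem_erase, mem_erase, pi_ne hH]
    simp
  · intro x _
    rw [hyp_blk hH, hfg _ blk_subset]

/-- indicator -/
noncomputable def ind (p : Prop) : ℤ := if p then 1 else 0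

theorem ind_true {p : Prop} (h : p) : ind p = 1 := if_pos h
theorem ind_false {p : Prop} (h : ¬ p) : ind p = 0 := if_neg h
theorem ind_nonneg (p : Prop) : 0 ≤ ind p := by unfold ind; split_ifs <;> norm_num
theorem ind_le (p : Prop) : ind p ≤ 1 := by unfold ind; split_ifs <;> norm_num
theorem ind_congr {p q : Prop} (h : p ↔ q) : ind p = ind q := by rw [propext h]

/-- the number of the vertices in maximal proper modules of the given isomorphism type -/
noncomputable def cnt (G K : SimpleGraph V) (C : Finset V) : ℤ :=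
  ∑ x, ind (SI G (blk G univ x) K C)

theorem cnt_eq (G K : SimpleGraph V) (C : Finset V) :
    cnt G K C = ((univ.filter (fun x => SI G (blk G univ x) K C)).card : ℤ) := by
  unfold cnt ind
  rw [Finset.sum_boole]

theorem cnt_pos (h : SI G (blk G univ x) K C) : 0 < cnt G K C := by
  rw [cnt_eq]
  exact_mod_cast card_pos.mpr ⟨x, mem_filter.mpr ⟨mem_univ _, h⟩⟩

theorem exists_of_cnt (h : 0 < cnt G K C) : ∃ x, SI G (blk G univ x) K C := by
  rw [cnt_eq] at h
  obtain ⟨x, hx⟩ := card_pos.mp (by exact_mod_cast h)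
  exact ⟨x, (mem_filter.mp hx).2⟩

/-- the equation of a vertex in a nontrivial maximal proper module -/
theorem eqn (hG : Good G univ) (hG' : Good H univ) (hH : Hypo G H π)
    (h2 : 2 ≤ (blk G univ v).card) (h2' : 2 ≤ (blk H univ v).card) (K : SimpleGraph V)
    (C : Finset V) :
    cnt G K C - (blk G univ v).card * ind (SI G (blk G univ v) K C) +
      ((blk G univ v).card - 1) * ind (SI G ((blk G univ v).erase v) K C) =
    cnt H K C - (blk H univ v).card * ind (SI H (blk H univ v) K C) +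
      ((blk H univ v).card - 1) * ind (SI H ((blk H univ v).erase v) K C) := by
  unfold cnt
  rw [← sum_blk hG h2 (fun A => ind (SI G A K C)), ← sum_blk hG' h2' (fun A => ind (SI H A K C))]
  symm
  refine sum_trans hH v (fun A => ind (SI G A K C)) (fun A => ind (SI H A K C)) ?_
  intro A hA
  apply ind_congr
  have h := ((hyp_iso hH v).mono hA).si
  exact ⟨fun h' => h.trans h', fun h' => h.symm.trans h'⟩

theorem eqn_card (hG : Good G univ) (hG' : Good H univ) (hH : Hypo G H π)
    (h2 : 2 ≤ (blk G univ v).card) (h2' : 2 ≤ (blk H univ v).card) :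
    (∑ x, ((blk G univ x).card : ℤ)) - 2 * (blk G univ v).card =
    (∑ x, ((blk H univ x).card : ℤ)) - 2 * (blk H univ v).card := by
  have h1 := sum_blk hG h2 (fun A => (A.card : ℤ))
  have h3 := sum_blk hG' h2' (fun A => (A.card : ℤ))
  have h4 := sum_trans hH v (fun A => (A.card : ℤ)) (fun A => (A.card : ℤ))
    (fun A _ => by rw [card_mp])
  rw [h1, h3] at h4
  have e1 : (((blk G univ v).erase v).card : ℤ) = (blk G univ v).card - 1 := by
    rw [card_erase_of_mem (self_mem_blk hG (mem_univ v)), Nat.cast_sub (by omega)]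
    simp
  have e2 : (((blk H univ v).erase v).card : ℤ) = (blk H univ v).card - 1 := by
    rw [card_erase_of_mem (self_mem_blk hG' (mem_univ v)), Nat.cast_sub (by omega)]
    simp
  rw [e1, e2] at h4
  linarith [h4]

end Pool.Agent.L7h41.MD
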