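import Pool.Agent.L7h41.MD.Trans

set_option autoImplicit false
set_option linter.unusedSectionVars false

/-!
# The number of the pairs of twins is reconstructible
-/

namespace Pool.Agent.L7h41.MD

open Finset Classical
open Pool.Agent.H234RC (Hypo NonIso)
open Pool.Agent.TH403.FLP (hypo_symm pi_ne pi_symm_ne ds dd mem_ds dd_comm)

variable {V : Type} [Fintype V] {G H K : SimpleGraph V} {π : V → Equiv.Perm V}

/-- the pairs of distinct vertices of a given adjacency -/
noncomputable def prs (K : SimpleGraph V) (c : Prop) : Finset (V × V) :=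
  univ.filter (fun p => p.1 ≠ p.2 ∧ (K.Adj p.1 p.2 ↔ c))

theorem mem_prs (c : Prop) (p : V × V) : p ∈ prs K c ↔ p.1 ≠ p.2 ∧ (K.Adj p.1 p.2 ↔ c) := by
  unfold prs
  rw [mem_filter]
  exact ⟨fun h => h.2, fun h => ⟨mem_univ _, h⟩⟩

/-- the number of these pairs which are distinguished by `i` vertices -/
noncomputable def qq (K : SimpleGraph V) (c : Prop) (i : ℕ) : ℤ :=
  ∑ p ∈ prs K c, ind (dd K p.1 p.2 = i)

/-- the same in the card of `v` -/
noncomputable def qv (K : SimpleGraph V) (c : Prop) (i : ℕ) (v : V) : ℤ :=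
  ∑ p ∈ prs K c, ind (p.1 ≠ v ∧ p.2 ≠ v ∧ ((ds K p.1 p.2).erase v).card = i)

theorem ind_eq (p : Prop) [Decidable p] : ind p = if p then 1 else 0 := by
  unfold ind
  congr

theorem sum_ind_mem (D : Finset V) : ∑ v, ind (v ∈ D) = (D.card : ℤ) := by
  rw [sum_congr rfl (fun v _ => ind_eq (v ∈ D)), Finset.sum_boole]
  congr 2
  ext v
  simp

theorem sum_qv (K : SimpleGraph V) (c : Prop) (i : ℕ) :
    ∑ v, qv K c i v = ((Fintype.card V : ℤ) - 2 - i) * qq K c i + (i + 1) * qq K c (i + 1) := by
  unfold qv qq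
  rw [sum_comm, mul_sum, mul_sum, ← sum_add_distrib]
  apply sum_congr rfl
  rintro ⟨x, y⟩ hp
  rw [mem_prs] at hp
  obtain ⟨hxy, _⟩ := hp
  dsimp only at hxy ⊢
  have hD : ∀ z ∈ ds K x y, z ≠ x ∧ z ≠ y := by
    intro z hz
    rw [mem_ds] at hz
    exact ⟨hz.1, hz.2.1⟩
  set D := ds K x y with hDdef
  have hdd : dd K x y = D.card := rfl
  rw [hdd]
  have e1 : ∀ v ∈ (univ : Finset V), ind (x ≠ v ∧ y ≠ v ∧ (D.erase v).card = i) =
      ind (v ∈ D) * ind (D.card = i + 1) + ind (v ∈ (insert x (insert y D))ᶜ) * ind (D.card = i) := by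
    intro v _
    by_cases hv : v ∈ D
    · have h1 := hD v hv
      have h2 := card_pos.mpr ⟨v, hv⟩
      have h3 : v ∉ (insert x (insert y D))ᶜ := by
        rw [mem_compl, not_not]
        exact mem_insert_of_mem (mem_insert_of_mem hv)
      rw [ind_true hv, ind_false h3, one_mul, zero_mul, add_zero]
      apply ind_congr
      rw [card_erase_of_mem hv]
      constructor
      · rintro ⟨_, _, h⟩; omega
      · intro h; exact ⟨h1.1.symm, h1.2.symm, by omega⟩
    · rw [ind_false hv, zero_mul, zero_add]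
      by_cases hx : v = x ∨ v = y
      · have h3 : v ∉ (insert x (insert y D))ᶜ := by
          rw [mem_compl, not_not, mem_insert, mem_insert]
          tauto
        rw [ind_false h3, zero_mul, ind_false]
        rintro ⟨h1, h2, _⟩
        rcases hx with h | h
        · exact h1 h.symm
        · exact h2 h.symm
      · rw [not_or] at hx
        have h3 : v ∈ (insert x (insert y D))ᶜ := by
          rw [mem_compl, mem_insert, mem_insert]
          tauto
        rw [ind_true h3, one_mul]
        apply ind_congr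
        rw [erase_eq_of_notMem hv]
        exact ⟨fun h => h.2.2, fun h => ⟨fun h' => hx.1 h'.symm, fun h' => hx.2 h'.symm, h⟩⟩
  rw [sum_congr rfl e1, sum_add_distrib, ← sum_mul, ← sum_mul, sum_ind_mem, sum_ind_mem]
  have e2 : (((insert x (insert y D))ᶜ).card : ℤ) = (Fintype.card V : ℤ) - 2 - D.card := by
    have h1 : (insert x (insert y D)).card = D.card + 2 := by
      rw [card_insert_of_notMem, card_insert_of_notMem]
      · intro h
        exact (hD y h).2 rfl
      · rw [mem_insert, not_or]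
        exact ⟨hxy, fun h => (hD x h).1 rfl⟩
    have h2 := card_le_univ (insert x (insert y D))
    rw [card_compl, Nat.cast_sub h2, h1]
    push_cast
    ring
  rw [e2]
  by_cases h1 : D.card = i
  · rw [ind_true h1, ind_false (by omega), h1]
    ring
  · rw [ind_false h1]
    by_cases h2 : D.card = i + 1
    · rw [ind_true h2, h2]
      push_cast
      ring
    · rw [ind_false h2]
      ring

theorem qv_eq (hH : Hypo G H π) (c : Prop) (i : ℕ) (v : V) : qv H c i v = qv G c i v := by
  unfold qv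
  have e : ∀ K : SimpleGraph V, ∑ p ∈ prs K c, ind (p.1 ≠ v ∧ p.2 ≠ v ∧
      ((ds K p.1 p.2).erase v).card = i) = ∑ p : V × V, ind ((p.1 ≠ p.2 ∧ (K.Adj p.1 p.2 ↔ c)) ∧
      p.1 ≠ v ∧ p.2 ≠ v ∧ ((ds K p.1 p.2).erase v).card = i) := by
    intro K
    unfold prs
    rw [sum_filter]
    apply sum_congr rfl
    intro p _
    split_ifs with h
    · apply ind_congr
      exact ⟨fun h' => ⟨h, h'⟩, fun h' => h'.2⟩
    · rw [ind_false]
      exact fun h' => h h'.1
  rw [e, e]
  symm
  apply Finset.sum_equiv ((π v).prodCongr (π v))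
  · intro p
    simp
  · rintro ⟨x, y⟩ _
    apply ind_congr
    simp only [Equiv.prodCongr_apply, Prod.map_apply]
    rw [pi_ne hH, pi_ne hH, (π v).injective.ne_iff]
    have key : x ≠ v → y ≠ v → ((H.Adj (π v x) (π v y) ↔ G.Adj x y) ∧
        ((ds H (π v x) (π v y)).erase v).card = ((ds G x y).erase v).card) := by
      intro hx hy
      refine ⟨hH.adj v x y hx hy, ?_⟩
      have : mp (π v) ((ds G x y).erase v) = (ds H (π v x) (π v y)).erase v := by
        ext z
        rw [mem_mp, mem_erase, mem_erase, mem_ds, mem_ds, pi_symm_ne hH]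
        constructor
        · rintro ⟨h0, h1, h2, h3⟩
          have h0' := (pi_symm_ne hH v z).mpr h0
          have a1 := hH.adj v x _ hx h0'
          have a2 := hH.adj v y _ hy h0'
          rw [Equiv.apply_symm_apply] at a1 a2
          refine ⟨h0, fun h => h1 ?_, fun h => h2 ?_, fun h => h3 ?_⟩
          · rw [h, Equiv.symm_apply_apply]
          · rw [h, Equiv.symm_apply_apply]
          · exact a1.symm.trans (h.trans a2)
        · rintro ⟨h0, h1, h2, h3⟩
          have h0' := (pi_symm_ne hH v z).mpr h0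
          have a1 := hH.adj v x _ hx h0'
          have a2 := hH.adj v y _ hy h0'
          rw [Equiv.apply_symm_apply] at a1 a2
          refine ⟨h0, fun h => h1 ?_, fun h => h2 ?_, fun h => h3 ?_⟩
          · rw [← h, Equiv.apply_symm_apply]
          · rw [← h, Equiv.apply_symm_apply]
          · exact a1.trans (h.trans a2.symm)
      rw [← this, card_mp]
    constructor
    · rintro ⟨⟨h1, h2⟩, h3, h4, h5⟩
      obtain ⟨k1, k2⟩ := key h3 h4
      exact ⟨⟨h1, k1.trans h2⟩, h3, h4, k2.trans h5⟩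
    · rintro ⟨⟨h1, h2⟩, h3, h4, h5⟩
      obtain ⟨k1, k2⟩ := key h3 h4
      exact ⟨⟨h1, k1.symm.trans h2⟩, h3, h4, k2.symm.trans h5⟩

theorem qq_nonneg (K : SimpleGraph V) (c : Prop) (i : ℕ) : 0 ≤ qq K c i :=
  sum_nonneg (fun _ _ => ind_nonneg _)

theorem sum_qq (K : SimpleGraph V) (c : Prop) (m : ℕ) :
    ∑ i ∈ range m, qq K c i ≤ (Fintype.card V : ℤ) * (Fintype.card V - 1) := by
  unfold qq
  rw [sum_comm]
  have h1 : ∀ p ∈ prs K c, ∑ i ∈ range m, ind (dd K p.1 p.2 = i) ≤ 1 := by
    intro p _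
    rw [sum_congr rfl (fun i _ => ind_eq (dd K p.1 p.2 = i)), Finset.sum_ite_eq]
    split_ifs <;> norm_num
  have h2 := sum_le_sum h1
  rw [sum_const, nsmul_eq_mul, mul_one] at h2
  have h3 : prs K c ⊆ univ.offDiag := by
    intro p hp
    rw [mem_prs] at hp
    rw [mem_offDiag]
    exact ⟨mem_univ _, mem_univ _, hp.1⟩
  have h4 := card_le_card h3
  rw [offDiag_card, card_univ] at h4
  have h5 : ((Fintype.card V * Fintype.card V - Fintype.card V : ℕ) : ℤ) =
      (Fintype.card V : ℤ) * (Fintype.card V - 1) := by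
    rw [Nat.cast_sub (Nat.le_mul_self _)]
    push_cast
    ring
  have h6 : ((prs K c).card : ℤ) ≤ (Fintype.card V : ℤ) * (Fintype.card V - 1) := by
    rw [← h5]
    exact_mod_cast h4
  linarith

theorem qq_even (K : SimpleGraph V) (c : Prop) (i : ℕ) : (2 : ℤ) ∣ qq K c i := by
  have e : qq K c i = (((prs K c).filter (fun p => dd K p.1 p.2 = i)).card : ℤ) := by
    unfold qq
    rw [sum_congr rfl (fun p _ => ind_eq (dd K p.1 p.2 = i)), Finset.sum_boole]
  rw [e]
  have h : (((prs K c).filter (fun p => dd K p.1 p.2 = i)).card : ZMod 2) = 0 := by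
    have h0 : ∑ p ∈ (prs K c).filter (fun p => dd K p.1 p.2 = i), (1 : ZMod 2) = 0 := by
      apply Finset.sum_involution (fun p _ => (p.2, p.1))
      · intro p _
        decide
      · intro p hp _ h
        rw [mem_filter, mem_prs] at hp
        exact hp.1.1 (congrArg Prod.snd h)
      · intro p hp
        rw [mem_filter, mem_prs] at hp ⊢
        dsimp only
        exact ⟨⟨hp.1.1.symm, by rw [K.adj_comm]; exact hp.1.2⟩, by rw [dd_comm]; exact hp.2⟩
      · intro p _
        rfl
    rw [sum_const, nsmul_eq_mul, mul_one] at h0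
    exact h0
  have h1 := (ZMod.natCast_eq_zero_iff _ 2).mp h
  exact_mod_cast h1

theorem pow_bound (n : ℕ) (hn : 8 ≤ n) : n * (n - 1) < 2 ^ (n - 2) := by
  obtain ⟨m, rfl⟩ := Nat.exists_eq_add_of_le hn
  have e1 : 8 + m - 1 = m + 7 := by omega
  have e2 : 8 + m - 2 = m + 6 := by omega
  rw [e1, e2]
  induction m with
  | zero => norm_num
  | succ m ih =>
    have ih' := ih (by omega) (by omega) (by omega)
    have : 2 ^ (m + 1 + 6) = 2 * 2 ^ (m + 6) := by ring
    rw [this]
    nlinarith [ih']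

/-- for at least eight vertices, hypomorphic graphs have the same numbers of twins -/
theorem twin_count (hn : 8 ≤ Fintype.card V) (hH : Hypo G H π) (c : Prop) :
    qq G c 0 = qq H c 0 := by
  set n := Fintype.card V with hndef
  let δ : ℕ → ℤ := fun i => qq G c i - qq H c i
  have hrec : ∀ i : ℕ, ((n : ℤ) - 2 - i) * δ i + (i + 1) * δ (i + 1) = 0 := by
    intro i
    have h1 := sum_qv G c i
    have h2 := sum_qv H c i
    rw [sum_congr rfl (fun v _ => qv_eq hH c i v), h1] at h2
    simp only [δ]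
    linarith
  have habs : ∀ i : ℕ, i ≤ n - 2 → |δ i| = ((n - 2).choose i : ℤ) * |δ 0| := by
    intro i
    induction i with
    | zero => intro _; simp
    | succ i ih =>
      intro hi
      have h1 := hrec i
      have h2 : ((n : ℤ) - 2 - i) * |δ i| = (i + 1) * |δ (i + 1)| := by
        have h3 : (0 : ℤ) ≤ (n : ℤ) - 2 - i := by omega
        have h4 : (0 : ℤ) ≤ (i : ℤ) + 1 := by omega
        have h5 : ((n : ℤ) - 2 - i) * δ i = - ((i + 1) * δ (i + 1)) := by linarith
        have h6 := congrArg abs h5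
        rw [abs_neg, abs_mul, abs_mul, abs_of_nonneg h3, abs_of_nonneg h4] at h6
        exact h6
      rw [ih (by omega)] at h2
      have h3 : ((n - 2).choose (i + 1) : ℤ) * (i + 1) = ((n - 2).choose i : ℤ) * ((n : ℤ) - 2 - i) := by
        have h4 := Nat.choose_succ_right_eq (n - 2) i
        have h5 : ((n - 2 - i : ℕ) : ℤ) = (n : ℤ) - 2 - i := by omega
        rw [← h5]
        exact_mod_cast h4
      have h4 : ((i : ℤ) + 1) ≠ 0 := by omega
      apply mul_left_cancel₀ h4
      rw [← h2]
      linear_combination (-|δ 0|) * h3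
  by_contra hne
  have hδ0 : δ 0 ≠ 0 := sub_ne_zero.mpr hne
  have h2 : 2 ≤ |δ 0| := by
    obtain ⟨a, ha⟩ := qq_even G c 0
    obtain ⟨b, hb⟩ := qq_even H c 0
    have h3 : δ 0 = 2 * (a - b) := by simp only [δ]; rw [ha, hb]; ring
    have h4 : a - b ≠ 0 := by
      intro h
      apply hδ0
      rw [h3, h, mul_zero]
    have h5 := Int.one_le_abs h4
    rw [h3, abs_mul]
    have : |(2 : ℤ)| = 2 := abs_of_pos two_pos
    rw [this]
    linarith
  have hsum : ∑ i ∈ range (n - 2 + 1), |δ i| = 2 ^ (n - 2) * |δ 0| := by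
    rw [sum_congr rfl (fun i hi => habs i (by rw [mem_range] at hi; omega)), ← sum_mul]
    congr 1
    have := Nat.sum_range_choose (n - 2)
    exact_mod_cast this
  have hle : ∑ i ∈ range (n - 2 + 1), |δ i| ≤ 2 * ((n : ℤ) * (n - 1)) := by
    have h3 : ∀ i ∈ range (n - 2 + 1), |δ i| ≤ qq G c i + qq H c i := by
      intro i _
      have h4 := qq_nonneg G c i
      have h5 := qq_nonneg H c i
      rw [abs_le]
      simp only [δ]
      constructor <;> linarith
    have h4 := sum_le_sum h3
    rw [sum_add_distrib] at h4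
    have h5 := sum_qq G c (n - 2 + 1)
    have h6 := sum_qq H c (n - 2 + 1)
    linarith
  have hb := pow_bound n hn
  have hb' : (n : ℤ) * (n - 1) < 2 ^ (n - 2) := by
    have : ((n * (n - 1) : ℕ) : ℤ) < ((2 ^ (n - 2) : ℕ) : ℤ) := by exact_mod_cast hb
    push_cast [Nat.cast_sub (by omega : 1 ≤ n)] at this
    exact this
  have h7 : (2 : ℤ) ^ (n - 2) * 2 ≤ 2 ^ (n - 2) * |δ 0| :=
    mul_le_mul_of_nonneg_left h2 (by positivity)
  linarith

/-- hypomorphic graphs with at least eight vertices both have twins or not -/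
theorem twin_exists (hn : 8 ≤ Fintype.card V) (hH : Hypo G H π) {x y : V} (hxy : x ≠ y)
    (h : dd G x y = 0) : ∃ a b : V, a ≠ b ∧ dd H a b = 0 ∧ (H.Adj a b ↔ G.Adj x y) := by
  have h1 := twin_count hn hH (G.Adj x y)
  have h2 : 0 < qq G (G.Adj x y) 0 := by
    unfold qq
    apply sum_pos' (fun _ _ => ind_nonneg _)
    refine ⟨(x, y), (mem_prs _ _).mpr ⟨hxy, Iff.rfl⟩, ?_⟩
    rw [ind_true h]
    exact one_pos
  rw [h1] at h2
  have h3 : ∃ p ∈ prs H (G.Adj x y), dd H p.1 p.2 = 0 := by
    by_contra hcon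
    push Not at hcon
    have : qq H (G.Adj x y) 0 = 0 := by
      unfold qq
      apply sum_eq_zero
      intro p hp
      exact ind_false (hcon p hp)
    omega
  obtain ⟨⟨a, b⟩, hp, hab⟩ := h3
  rw [mem_prs] at hp
  exact ⟨a, b, hp.1, hab, hp.2⟩

end Pool.Agent.L7h41.MD
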