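import Pool.Agent.L7h41.MD.Prime

set_option autoImplicit false
set_option linter.unusedSectionVars false

/-!
# The isomorphism types of the maximal proper modules are reconstructible
-/

namespace Pool.Agent.L7h41.MD

open Finset Classical
open Pool.Agent.H234RC (Hypo NonIso)
open Pool.Agent.TH403.FLP (hypo_symm pi_ne pi_symm_ne ds dd mem_ds dd_comm)
open Pool.Agent.TH87.RVC (mem_iff_of_maps)

variable {V : Type} [Fintype V] {G H K : SimpleGraph V} {π : V → Equiv.Perm V}
  {v w x y z d : V} {N A C : Finset V}

/-- the standing assumptions -/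
structure Ctx (G H : SimpleGraph V) (π : V → Equiv.Perm V) : Prop where
  n8 : 8 ≤ Fintype.card V
  gG : Good G univ
  gH : Good H univ
  hyp : Hypo G H π
  ex : ∃ x, 2 ≤ (blk G univ x).card

theorem Ctx.symm (c : Ctx G H π) : Ctx H G (fun v => (π v).symm) :=
  ⟨c.n8, c.gH, c.gG, hypo_symm c.hyp, recog c.n8 c.gG c.hyp c.ex⟩

theorem Ctx.U (c : Ctx G H π) (v : V) : 2 ≤ (blk G univ v).card ↔ 2 ≤ (blk H univ v).card :=
  same_U c.n8 c.gG c.gH c.hyp c.ex v

theorem two_blk (hG : Good G univ) (h2 : 2 ≤ (blk G univ v).card) (hx : x ∈ blk G univ v) :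
    2 ≤ (blk G univ x).card := by
  rw [blk_eq hG (mem_univ v) hx]
  exact h2

theorem Ctx.card (c : Ctx G H π) (v : V) : (blk G univ v).card = (blk H univ v).card := by
  have hG := c.gG
  have hH := c.gH
  set U : Finset V := univ.filter (fun x => 2 ≤ (blk G univ x).card) with hU
  have hmem : ∀ x, x ∈ U ↔ 2 ≤ (blk G univ x).card := by
    intro x
    rw [hU, mem_filter]
    exact ⟨fun h => h.2, fun h => ⟨mem_univ _, h⟩⟩
  have hmem' : ∀ x, x ∈ U ↔ 2 ≤ (blk H univ x).card := fun x => (hmem x).trans (c.U x)
  have hone : ∀ x, x ∉ U → (blk G univ x).card = 1 ∧ (blk H univ x).card = 1 := by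
    intro x hx
    have h1 := card_blk_pos hG x
    have h2 := card_blk_pos hH x
    have h3 : ¬ 2 ≤ (blk G univ x).card := fun h => hx ((hmem x).mpr h)
    have h4 : ¬ 2 ≤ (blk H univ x).card := fun h => hx ((hmem' x).mpr h)
    omega
  by_cases hvU : v ∈ U
  swap
  · have := hone v hvU
    omega
  set FG : ℤ := ∑ x, ((blk G univ x).card : ℤ) with hFG
  set FH : ℤ := ∑ x, ((blk H univ x).card : ℤ) with hFH
  have hE : ∀ x ∈ U, FG - 2 * (blk G univ x).card = FH - 2 * (blk H univ x).card := fun x hx =>
    eqn_card hG hH c.hyp ((hmem x).mp hx) ((hmem' x).mp hx)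
  have sG : ∑ x ∈ U, ((blk G univ x).card : ℤ) = FG - (Uᶜ.card : ℤ) := by
    rw [hFG, ← sum_add_sum_compl U, sum_congr rfl (fun x hx => by
      rw [(hone x (mem_compl.mp hx)).1] : ∀ x ∈ Uᶜ, ((blk G univ x).card : ℤ) = ((1 : ℕ) : ℤ))]
    rw [sum_const, nsmul_eq_mul]
    push_cast
    ring
  have sH : ∑ x ∈ U, ((blk H univ x).card : ℤ) = FH - (Uᶜ.card : ℤ) := by
    rw [hFH, ← sum_add_sum_compl U, sum_congr rfl (fun x hx => by
      rw [(hone x (mem_compl.mp hx)).2] : ∀ x ∈ Uᶜ, ((blk H univ x).card : ℤ) = ((1 : ℕ) : ℤ))]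
    rw [sum_const, nsmul_eq_mul]
    push_cast
    ring
  have hs := sum_congr rfl hE
  rw [sum_sub_distrib, sum_sub_distrib, ← mul_sum, ← mul_sum, sG, sH, sum_const, sum_const,
    nsmul_eq_mul, nsmul_eq_mul] at hs
  have hprod : ((U.card : ℤ) - 2) * (FG - FH) = 0 := by linarith
  rcases mul_eq_zero.mp hprod with h | h
  · have hc : U.card = 2 := by omega
    have hsub : blk G univ v ⊆ U := fun x hx => (hmem x).mpr (two_blk hG ((hmem v).mp hvU) hx)
    have hsub' : blk H univ v ⊆ U := fun x hx =>
      (hmem' x).mpr (two_blk hH ((hmem' v).mp hvU) hx)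
    have h1 := card_le_card hsub
    have h2 := card_le_card hsub'
    have h3 := (hmem v).mp hvU
    have h4 := (hmem' v).mp hvU
    omega
  · have := hE v hvU
    omega

theorem ind_card (h : A.card ≠ C.card) : ind (SI G A K C) = 0 := by
  apply ind_false
  intro h'
  exact h h'.card

theorem cnt_nonneg (G K : SimpleGraph V) (C : Finset V) : 0 ≤ cnt G K C :=
  sum_nonneg (fun _ _ => ind_nonneg _)

theorem Ctx.eqn (c : Ctx G H π) (h2 : 2 ≤ (blk G univ v).card) (K : SimpleGraph V)
    (C : Finset V) : cnt G K C - cnt H K C =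
      (blk G univ v).card * (ind (SI G (blk G univ v) K C) - ind (SI H (blk H univ v) K C)) -
      ((blk G univ v).card - 1) *
        (ind (SI G ((blk G univ v).erase v) K C) - ind (SI H ((blk H univ v).erase v) K C)) := by
  have h := MD.eqn c.gG c.gH c.hyp h2 ((c.U v).mp h2) K C
  rw [← c.card v] at h
  linarith

theorem card_er (hG : Good G univ) (v : V) :
    ((blk G univ v).erase v).card + 1 = (blk G univ v).card := by
  have := card_blk_pos hG v
  rw [card_erase_of_mem (self_mem_blk hG (mem_univ v))]
  omega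

/-- the image map on sets -/
noncomputable def mpE (σ : Equiv.Perm V) : Finset V ≃ Finset V :=
  ⟨mp σ, mp σ.symm, mp_symm_mp σ, mp_mp_symm σ⟩

theorem sum_kelly (M : Finset V) (p : Finset V → Prop) :
    ∑ v ∈ M, ∑ A : Finset V, ind (v ∉ A ∧ p A) =
      ∑ A : Finset V, ((M.card : ℤ) - (A ∩ M).card) * ind (p A) := by
  rw [sum_comm]
  apply sum_congr rfl
  intro A _
  have e1 : ∀ v ∈ M, ind (v ∉ A ∧ p A) = ind (v ∉ A) * ind (p A) := by
    intro v _
    unfold ind
    by_cases h1 : v ∉ A <;> by_cases h2 : p A <;> simp [h1, h2]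
  rw [sum_congr rfl e1, ← sum_mul]
  congr 1
  have e2 : ∑ v ∈ M, ind (v ∉ A) = ((M \ A).card : ℤ) := by
    rw [sum_congr rfl (fun v _ => ind_eq (v ∉ A)), Finset.sum_boole]
    congr 2
    ext v
    rw [mem_filter, mem_sdiff]
  rw [e2]
  have e3 := card_sdiff_add_card_inter M A
  rw [inter_comm] at e3
  omega

theorem Ctx.type (c : Ctx G H π) (h2 : 2 ≤ (blk G univ v).card) :
    SI G (blk G univ v) H (blk H univ v) := by
  by_contra hno
  have hG := c.gG
  have hH := c.gH
  have hno' : ¬ SI H (blk H univ v) G (blk G univ v) := fun h => hno h.symm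
  set M := blk G univ v with hM
  have hMs : ∀ x ∈ M, blk G univ x = M := fun x hx => blk_eq hG (mem_univ v) hx
  have hRc : (blk H univ v).card = M.card := (c.card v).symm
  have e0 := c.eqn h2 G M
  rw [← hM, ind_true (SI.refl G M), ind_false hno', ind_card (by have := card_er hG v; rw [← hM] at this; omega),
    ind_card (by have := card_er hH v; omega)] at e0
  have hsame : ∀ x, (blk G univ x).card = M.card →
      SI G (blk G univ x) G M ∧ ¬ SI H (blk H univ x) G M := by
    intro x hx
    have e1 := c.eqn (v := x) (by omega) G M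
    rw [ind_card (A := (blk G univ x).erase x) (by have := card_er hG x; omega),
      ind_card (A := (blk H univ x).erase x)
        (by have := card_er hH x; have := c.card x; omega), hx] at e1
    have hpos : (0 : ℤ) < M.card := by omega
    have e2 : (M.card : ℤ) * (ind (SI G (blk G univ x) G M) - ind (SI H (blk H univ x) G M) - 1)
        = 0 := by linarith
    have e3 : ind (SI G (blk G univ x) G M) - ind (SI H (blk H univ x) G M) - 1 = 0 := by
      rcases mul_eq_zero.mp e2 with h | h
      · omega
      · exact h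
    constructor
    · by_contra hc
      rw [ind_false hc] at e3
      have := ind_nonneg (SI H (blk H univ x) G M)
      omega
    · intro hc
      rw [ind_true hc] at e3
      have := ind_le (SI G (blk G univ x) G M)
      omega
  have hcH : cnt H G M = 0 := by
    by_contra hne
    have := cnt_nonneg H G M
    obtain ⟨x, hx⟩ := exists_of_cnt (by omega : 0 < cnt H G M)
    have h1 := hx.card
    exact (hsame x (by rw [c.card x]; exact h1)).2 hx
  have hcG : cnt G G M = M.card := by linarith
  have hUa : ∀ x, (blk G univ x).card = M.card → x ∈ M := by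
    intro x hx
    have h1 : M ⊆ univ.filter (fun x => SI G (blk G univ x) G M) := by
      intro y hy
      rw [mem_filter, hMs y hy]
      exact ⟨mem_univ _, SI.refl G M⟩
    have h3 : M = univ.filter (fun x => SI G (blk G univ x) G M) := by
      apply eq_of_subset_of_card_le h1
      rw [cnt_eq] at hcG
      exact_mod_cast hcG.le
    rw [h3, mem_filter]
    exact ⟨mem_univ _, (hsame x hx).1⟩
  have hRM : blk H univ v = M := by
    apply eq_of_subset_of_card_le
    · intro x hx
      apply hUa
      rw [c.card x, blk_eq hH (mem_univ v) hx, hRc]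
    · rw [hRc]
  have hout : ∀ x, 2 ≤ (blk G univ x).card → x ∉ M → SI H ((blk H univ x).erase x) G M ∧
      ¬ SI G ((blk G univ x).erase x) G M := by
    intro x hx hxM
    have hne : (blk G univ x).card ≠ M.card := fun h => hxM (hUa x h)
    have e1 := c.eqn hx G M
    rw [ind_card hne, ind_card (by rw [← c.card x]; exact hne)] at e1
    have hpos : (0 : ℤ) < M.card := by omega
    have hpos2 : (0 : ℤ) ≤ (blk G univ x).card - 1 := by omega
    have e2 : (M.card : ℤ) = ((blk G univ x).card - 1) *
        (ind (SI H ((blk H univ x).erase x) G M) - ind (SI G ((blk G univ x).erase x) G M)) := by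
      linarith
    constructor
    · by_contra hc
      rw [ind_false hc] at e2
      have := ind_nonneg (SI G ((blk G univ x).erase x) G M)
      nlinarith
    · intro hc
      rw [ind_true hc] at e2
      have := ind_le (SI H ((blk H univ x).erase x) G M)
      nlinarith
  have hU : ∀ x, 2 ≤ (blk G univ x).card → x ∈ M := by
    intro x hx
    by_contra hxM
    have h1 := hout x hx hxM
    have hcx : (blk G univ x).card = M.card + 1 := by
      have := h1.1.card
      have := card_er hH x
      have := c.card x
      omega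
    have e1 := c.eqn h2 H (blk H univ x)
    have hcx' := c.card x
    rw [ind_card (by rw [← hM]; omega), ind_card (by omega),
      ind_card (by have := card_er hG v; rw [← hM] at this ⊢; omega),
      ind_card (by have := card_er hH v; omega)] at e1
    have h3 := cnt_pos (SI.refl H (blk H univ x))
    obtain ⟨w, hw⟩ := exists_of_cnt (by linarith : 0 < cnt G H (blk H univ x))
    obtain ⟨t, ht, hts⟩ := hw.exists_erase (self_mem_blk hH (mem_univ x))
    have hbt := blk_eq hG (mem_univ w) ht
    rw [← hbt] at hts hw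
    have hct := hw.card
    have htM : t ∉ M := by
      intro h
      rw [hMs t h] at hct
      omega
    exact (hout t (by omega) htM).2 (hts.trans h1.1)
  rw [hRM] at hno
  by_cases h3 : M.card = 2
  · obtain ⟨p, q, hpq, hMpq⟩ := card_eq_two.mp h3
    have hmod := blk_mod hG (mem_univ v)
    rw [← hM, hMpq, ← dd_zero_iff] at hmod
    obtain ⟨a, b, hab, h0, hadj⟩ := twin_exists c.n8 c.hyp hpq hmod
    have hmod' := (dd_zero_iff H a b).mp h0
    have hne : ({a, b} : Finset V) ≠ univ := by
      intro h
      have h4 : ({a, b} : Finset V).card = Fintype.card V := by rw [h, card_univ]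
      rw [card_pair hab] at h4
      have := c.n8
      omega
    have hmem : ∀ t, t ∈ ({a, b} : Finset V) → t ∈ M := by
      intro t ht
      apply hU
      rw [c.card t]
      have h5 := card_le_card (subset_blk hmod' hne ht)
      rw [card_pair hab] at h5
      exact h5
    have ha := hmem a (by simp)
    have hb := hmem b (by simp)
    rw [hMpq, mem_insert, mem_singleton] at ha hb
    have hadj' : H.Adj p q ↔ G.Adj p q := by
      rw [← hadj]
      rcases ha with rfl | rfl <;> rcases hb with rfl | rfl
      · exact absurd rfl hab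
      · exact Iff.rfl
      · exact H.adj_comm _ _
      · exact absurd rfl hab
    apply hno
    refine ⟨Equiv.refl V, mp_refl, fun a ha b hb => ?_⟩
    rw [hMpq, mem_insert, mem_singleton] at ha hb
    rcases ha with rfl | rfl <;> rcases hb with rfl | rfl
    · exact ⟨fun h => absurd h H.irrefl, fun h => absurd h G.irrefl⟩
    · exact hadj'
    · rw [H.adj_comm, G.adj_comm]; exact hadj'
    · exact ⟨fun h => absurd h H.irrefl, fun h => absurd h G.irrefl⟩
  · have hMc : 2 ≤ M.card := h2
    have hmaps : ∀ w ∈ M, ∀ x ∈ M, π w x ∈ M := by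
      intro w hw x hx
      by_cases hxw : x = w
      · rw [hxw, c.hyp.fix]; exact hw
      · apply hU
        have h2w : 2 ≤ (blk G univ w).card := by rw [hMs w hw]; exact hMc
        have e1 := hyp_blk c.hyp w x
        rw [blk_erase hG (mem_univ w) h2w (mem_W.mpr hxw), hMs x hx,
          blk_erase hH (mem_univ w) ((c.U w).mp h2w)
            (mem_W.mpr ((pi_ne c.hyp w x).mpr hxw))] at e1
        have e2 : ((blk H univ (π w x)).erase w).card = M.card - 1 := by
          rw [e1, card_mp, card_erase_of_mem hw]
        have e3 : ((blk H univ (π w x)).erase w).card ≤ (blk H univ (π w x)).card :=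
          card_erase_le
        rw [c.card]
        omega
    have hiff : ∀ w ∈ M, ∀ x, π w x ∈ M ↔ x ∈ M := fun w hw x =>
      mem_iff_of_maps (π w) M (hmaps w hw) x
    have hinter : ∀ w ∈ M, ∀ A : Finset V, (mp (π w) A ∩ M).card = (A ∩ M).card := by
      intro w hw A
      have : mp (π w) (A ∩ M) = mp (π w) A ∩ M := by
        ext x
        rw [mem_mp, mem_inter, mem_inter, mem_mp, ← hiff w hw, Equiv.apply_symm_apply]
      rw [← this, card_mp]
    have hswap : ∀ w (p : SimpleGraph V → Finset V → Prop), (∀ A, w ∉ A →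
        (p H (mp (π w) A) ↔ p G A)) →
        ∑ A : Finset V, ind (w ∉ A ∧ p G A) = ∑ A : Finset V, ind (w ∉ A ∧ p H A) := by
      intro w p hp
      apply Fintype.sum_equiv (mpE (π w))
      intro A
      apply ind_congr
      show _ ↔ (w ∉ mp (π w) A ∧ p H (mp (π w) A))
      have e1 : w ∉ mp (π w) A ↔ w ∉ A := by
        rw [mem_mp]
        have : (π w).symm w = w := by rw [Equiv.symm_apply_eq, c.hyp.fix]
        rw [this]
      rw [e1]
      constructor
      · rintro ⟨h1, h2⟩; exact ⟨h1, (hp A h1).mpr h2⟩
      · rintro ⟨h1, h2⟩; exact ⟨h1, (hp A h1).mp h2⟩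
    have hSI : ∀ w (A : Finset V), w ∉ A → (SI H (mp (π w) A) G M ↔ SI G A G M) := by
      intro w A hwA
      have h := ((hyp_iso c.hyp w).mono
        (fun x hx => mem_W.mpr (fun h => hwA (h ▸ hx)) : A ⊆ univ.erase w)).si
      exact ⟨fun h' => h.trans h', fun h' => h.symm.trans h'⟩
    have hj : ∀ j : ℕ, j ≠ M.card →
        ∑ A : Finset V, ind ((A ∩ M).card = j ∧ SI G A G M) =
          ∑ A : Finset V, ind ((A ∩ M).card = j ∧ SI H A G M) := by
      intro j hj
      have k : ∀ K : SimpleGraph V, ∑ w ∈ M, ∑ A : Finset V,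
          ind (w ∉ A ∧ (A ∩ M).card = j ∧ SI K A G M) =
          ((M.card : ℤ) - j) * ∑ A : Finset V, ind ((A ∩ M).card = j ∧ SI K A G M) := by
        intro K
        rw [sum_kelly M (fun A => (A ∩ M).card = j ∧ SI K A G M), mul_sum]
        apply sum_congr rfl
        intro A _
        by_cases hA : (A ∩ M).card = j
        · rw [hA]
        · rw [ind_false (fun h => hA h.1), mul_zero, mul_zero]
      have h1 : ∑ w ∈ M, ∑ A : Finset V, ind (w ∉ A ∧ (A ∩ M).card = j ∧ SI G A G M) =
          ∑ w ∈ M, ∑ A : Finset V, ind (w ∉ A ∧ (A ∩ M).card = j ∧ SI H A G M) := by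
        apply sum_congr rfl
        intro w hw
        refine hswap w (fun K A => (A ∩ M).card = j ∧ SI K A G M) (fun A hwA => ?_)
        show ((mp (π w) A ∩ M).card = j ∧ SI H (mp (π w) A) G M) ↔ _
        rw [hinter w hw, hSI w A hwA]
      rw [k, k] at h1
      have h5 : (M.card : ℤ) - j ≠ 0 := by omega
      exact mul_left_cancel₀ h5 h1
    have htot : ∑ A : Finset V, ind (SI G A G M) = ∑ A : Finset V, ind (SI H A G M) := by
      have k : ∀ K : SimpleGraph V, ∑ w, ∑ A : Finset V, ind (w ∉ A ∧ SI K A G M) =
          ((Fintype.card V : ℤ) - M.card) * ∑ A : Finset V, ind (SI K A G M) := by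
        intro K
        rw [sum_kelly univ (fun A => SI K A G M), mul_sum]
        apply sum_congr rfl
        intro A _
        by_cases hA : SI K A G M
        · rw [inter_univ, hA.card, card_univ]
        · rw [ind_false hA, mul_zero, mul_zero]
      have h1 : ∑ w, ∑ A : Finset V, ind (w ∉ A ∧ SI G A G M) =
          ∑ w, ∑ A : Finset V, ind (w ∉ A ∧ SI H A G M) := by
        apply sum_congr rfl
        intro w _
        exact hswap w (fun K A => SI K A G M) (fun A hwA => hSI w A hwA)
      rw [k, k] at h1
      have h5 : (Fintype.card V : ℤ) - M.card ≠ 0 := by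
        have h6 := blk_three hG (mem_univ v)
        rw [← hM, ← compl_eq_univ_sdiff, card_compl] at h6
        omega
      exact mul_left_cancel₀ h5 h1
    have hdec : ∀ K : SimpleGraph V, ∑ A : Finset V, ind (SI K A G M) =
        ∑ j ∈ range (M.card + 1), ∑ A : Finset V, ind ((A ∩ M).card = j ∧ SI K A G M) := by
      intro K
      rw [sum_comm]
      apply sum_congr rfl
      intro A _
      have hle : (A ∩ M).card < M.card + 1 := by
        have := card_le_card (inter_subset_right (s₁ := A) (s₂ := M))
        omega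
      rw [sum_eq_single_of_mem (A ∩ M).card (mem_range.mpr hle)]
      · apply ind_congr
        exact ⟨fun h => ⟨rfl, h⟩, fun h => h.2⟩
      · intro j _ hj
        exact ind_false (fun h => hj h.1.symm)
    rw [hdec G, hdec H, sum_range_succ, sum_range_succ,
      sum_congr rfl (fun j hj' => hj j (by rw [mem_range] at hj'; omega))] at htot
    have hlast : ∑ A : Finset V, ind ((A ∩ M).card = M.card ∧ SI G A G M) =
        ∑ A : Finset V, ind ((A ∩ M).card = M.card ∧ SI H A G M) := by linarith
    have hpos : 0 < ∑ A : Finset V, ind ((A ∩ M).card = M.card ∧ SI G A G M) := by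
      apply sum_pos' (fun _ _ => ind_nonneg _)
      refine ⟨M, mem_univ _, ?_⟩
      rw [ind_true ⟨by rw [inter_self], SI.refl G M⟩]
      exact one_pos
    rw [hlast] at hpos
    have hex : ∃ A : Finset V, (A ∩ M).card = M.card ∧ SI H A G M := by
      by_contra hcon
      push Not at hcon
      have : ∑ A : Finset V, ind ((A ∩ M).card = M.card ∧ SI H A G M) = 0 :=
        sum_eq_zero (fun A _ => ind_false (fun h => hcon A h.1 h.2))
      omega
    obtain ⟨A, hA1, hA2⟩ := hex
    have e1 : A ∩ M = M := eq_of_subset_of_card_le inter_subset_right hA1.ge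
    have e2 : M = A := by
      apply eq_of_subset_of_card_le
      · intro x hx
        rw [← e1] at hx
        exact (mem_inter.mp hx).1
      · exact hA2.card.le
    rw [← e2] at hA2
    exact hno hA2.symm

theorem Ctx.type' (c : Ctx G H π) (h2 : 2 ≤ (blk G univ v).card) :
    SI G ((blk G univ v).erase v) H ((blk H univ v).erase v) := by
  have hG := c.gG
  have hH := c.gH
  have c1 := card_er hG v
  have c2 := card_er hH v
  have c3 := c.card v
  by_cases h3 : (blk G univ v).card = 2
  · exact si_single G H (by omega) (by omega)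
  by_contra hno
  have hno' : ¬ SI H ((blk H univ v).erase v) G ((blk G univ v).erase v) := fun h => hno h.symm
  have e1 := c.eqn h2 G ((blk G univ v).erase v)
  rw [ind_card (by omega), ind_card (by omega), ind_true (SI.refl _ _), ind_false hno'] at e1
  have h4 := cnt_nonneg G G ((blk G univ v).erase v)
  obtain ⟨x, hx⟩ := exists_of_cnt (by linarith [(by omega : (3 : ℤ) ≤ (blk G univ v).card)] :
    0 < cnt H G ((blk G univ v).erase v))
  have c4 := hx.card
  have c5 := c.card x
  have c6 := card_er hG x
  have c7 := card_er hH x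
  have e2 := c.eqn (v := x) (by omega) G ((blk G univ v).erase v)
  rw [ind_card (A := (blk G univ x).erase x) (by omega),
    ind_card (A := (blk H univ x).erase x) (by omega), ind_true hx,
    ind_true ((c.type (by omega)).trans hx)] at e2
  have : (3 : ℤ) ≤ (blk G univ v).card := by omega
  linarith

/-- the numbers of the types agree -/
theorem Ctx.cnt (c : Ctx G H π) (K : SimpleGraph V) (C : Finset V) : cnt G K C = cnt H K C := by
  obtain ⟨x, hx⟩ := c.ex
  have e := c.eqn hx K C
  have h1 := c.type hx
  have h2 := c.type' hx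
  rw [ind_congr (⟨fun h => h1.symm.trans h, fun h => h1.trans h⟩ :
      SI G (blk G univ x) K C ↔ SI H (blk H univ x) K C),
    ind_congr (⟨fun h => h2.symm.trans h, fun h => h2.trans h⟩ :
      SI G ((blk G univ x).erase x) K C ↔ SI H ((blk H univ x).erase x) K C)] at e
  linarith

/-- when a removed vertex is added to the same module the graphs are isomorphic -/
theorem Ctx.swap (c : Ctx G H π) (hN : NonIso G H) (h2 : 2 ≤ (blk G univ v).card) :
    mp (π v) ((blk G univ v).erase v) ≠ (blk H univ v).erase v := by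
  intro heq
  apply hN
  have hG := c.gG
  have hH := c.gH
  have hvG := self_mem_blk hG (mem_univ v)
  have hvH := self_mem_blk hH (mem_univ v)
  obtain ⟨ψ, hψ1, hψ2⟩ := c.type h2
  have hmR : mp (π v) (blk G univ v) = blk H univ v := by
    rw [mp_erase, c.hyp.fix] at heq
    have h1 : v ∈ mp (π v) (blk G univ v) := by
      have := apply_mem_mp (σ := π v) (x := v) (S := blk G univ v)
      rw [c.hyp.fix] at this
      exact this.mpr hvG
    rw [← insert_erase h1, heq, insert_erase hvH]
  have hM := blk_mod hG (mem_univ v)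
  have hR := blk_mod hH (mem_univ v)
  set P := blk G univ v with hP
  set R := blk H univ v with hRdef
  obtain ⟨u, huP, huv⟩ := exists_mem_ne (by omega : 1 < P.card) v
  have hπ : ∀ x, π v x ∈ R ↔ x ∈ P := by
    intro x
    rw [← hmR, apply_mem_mp]
  have hψ : ∀ x, ψ x ∈ R ↔ x ∈ P := by
    intro x
    rw [← hψ1, apply_mem_mp]
  let τ : V → V := fun x => if x ∈ P then ψ x else π v x
  have t1 : ∀ x ∈ P, τ x = ψ x := fun x hx => by simp [τ, hx]
  have t2 : ∀ x, x ∉ P → τ x = π v x := fun x hx => by simp [τ, hx]
  have hinj : Function.Injective τ := by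
    intro x y hxy
    by_cases hx : x ∈ P <;> by_cases hy : y ∈ P
    · rw [t1 x hx, t1 y hy] at hxy
      exact ψ.injective hxy
    · rw [t1 x hx, t2 y hy] at hxy
      exact absurd ((hπ y).mp (hxy ▸ (hψ x).mpr hx)) hy
    · rw [t2 x hx, t1 y hy] at hxy
      exact absurd ((hπ x).mp (hxy ▸ (hψ y).mpr hy)) hx
    · rw [t2 x hx, t2 y hy] at hxy
      exact (π v).injective hxy
  have hmix : ∀ x ∈ P, ∀ y, y ∉ P → (H.Adj (π v y) (ψ x) ↔ G.Adj y x) := by
    intro x hx y hy
    have hyv : y ≠ v := fun h => hy (h ▸ hvG)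
    rw [hR.2 (π v y) (mem_univ _) (fun h => hy ((hπ y).mp h)) (ψ x) ((hψ x).mpr hx) (π v u)
      ((hπ u).mpr huP), c.hyp.adj v y u hyv huv]
    exact hM.2 y (mem_univ _) hy u huP x hx
  refine ⟨Equiv.ofBijective τ (Finite.injective_iff_bijective.mp hinj), fun x y => ?_⟩
  rw [Equiv.ofBijective_apply, Equiv.ofBijective_apply]
  by_cases hx : x ∈ P <;> by_cases hy : y ∈ P
  · rw [t1 x hx, t1 y hy]
    exact hψ2 x hx y hy
  · rw [t1 x hx, t2 y hy, H.adj_comm, G.adj_comm]
    exact hmix x hx y hy
  · rw [t2 x hx, t1 y hy]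
    exact hmix y hy x hx
  · rw [t2 x hx, t2 y hy]
    exact c.hyp.adj v x y (fun h => hx (h ▸ hvG)) (fun h => hy (h ▸ hvG))

end Pool.Agent.L7h41.MD
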